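import Pool.Agent.Helper34.Radon.Bd.Lim
import Pool.Agent.Helper34.Radon.Axis

set_option autoImplicit false

open MeasureTheory Real Filter Topology Set
open scoped FourierTransform ContDiff ENNReal

noncomputable section

namespace Pool.Agent.Helper34.Radon.Bd

/-- hypotheses in slope form -/
structure BSlope (f : ℝ × ℝ → ℝ) : Prop where
  cont : Continuous f
  bdd : ∃ M : ℝ, ∀ z, |f z| ≤ M
  line : ∀ t : ℝ, ∀ᵐ p : ℝ, Integrable (fun s : ℝ => f (p - t * s, s))
  strip : {t : ℝ | ¬ ∀ r : ℝ, IntegrableOn f (St r t)}.Countable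
  zero : ∀ᵐ t : ℝ, ∀ᵐ p : ℝ, ∫ s : ℝ, f (p - t * s, s) = 0
  hor : ∀ᵐ s : ℝ, Integrable (fun x : ℝ => f (x, s))

theorem BSlope.T_zero {f : ℝ × ℝ → ℝ} (h : BSlope f) {R : ℝ} {m κ : ℝ → ℂ} (hm : Win R m)
    (hκ : Dens κ) : T (fun z => ((f z : ℝ) : ℂ)) m κ = 0 := by
  obtain ⟨M, hM⟩ := h.bdd
  have hg : Bdd (fun z => ((f z : ℝ) : ℂ)) M := by
    refine ⟨Complex.continuous_ofReal.comp h.cont, fun z => ?_⟩
    rw [Complex.norm_real, Real.norm_eq_abs]
    exact hM z
  refine T_of_aff hg ?_ hm hκ
  intro P B φ φ1 φ2 φ3 hk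
  refine w_aff hg hk ?_ ?_ ?_
  · intro t
    filter_upwards [h.line t] with p hp
    exact hp.ofReal
  · refine h.strip.mono fun t ht => ?_
    intro hall
    apply ht
    exact (hall (P + 1)).ofReal
  · filter_upwards [h.zero] with t ht
    filter_upwards [ht] with p hp
    have h2 : ∫ s : ℝ, ((f (p - t * s, s) : ℝ) : ℂ) =
        ((∫ s : ℝ, f (p - t * s, s) : ℝ) : ℂ) := integral_ofReal
    rw [h2, hp]
    simp

theorem BSlope.axis {f : ℝ × ℝ → ℝ} (h : BSlope f) (hi : Integrable (fun x : ℝ => f (x, 0)))
    (x : ℝ) : f (x, 0) = 0 := by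
  obtain ⟨M, hM⟩ := h.bdd
  have hc : Continuous (fun z => ((f z : ℝ) : ℂ)) := Complex.continuous_ofReal.comp h.cont
  have haxis : ∀ κ : ℝ → ℂ, Dens κ → ∫ x : ℝ, ((f (x, 0) : ℝ) : ℂ) * 𝓕 κ x = 0 := by
    intro κ hκ
    refine axis_zero (F := fun z => ((f z : ℝ) : ℂ)) (C0 := M) (k := 0) hc ?_ ?_ hκ
    · intro y
      rw [Complex.norm_real, Real.norm_eq_abs, pow_zero, mul_one]
      exact hM y
    · intro R m κ' hm hκ'
      exact h.T_zero hm hκ'
  have h0 := zero_of_freq (F := fun x : ℝ => ((f (x, 0) : ℝ) : ℂ))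
    (hc.comp (by fun_prop)) hi.ofReal (fun x => Complex.conj_ofReal _) haxis x
  exact_mod_cast h0

theorem BSlope.translate {f : ℝ × ℝ → ℝ} (h : BSlope f) (s0 : ℝ) :
    BSlope (fun z => f (z.1, z.2 + s0)) := by
  have key : ∀ t p s : ℝ, f (p - t * s, s + s0) =
      (fun s => f (p + t * s0 - t * s, s)) (s + s0) := by
    intro t p s
    simp only
    congr 1
    refine Prod.ext ?_ rfl
    simp only
    ring
  refine ⟨h.cont.comp (by fun_prop), ?_, fun t => ?_, ?_, ?_, ?_⟩
  · obtain ⟨M, hM⟩ := h.bdd
    exact ⟨M, fun z => hM _⟩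
  · have h1 : Measure.QuasiMeasurePreserving (fun p : ℝ => p + t * s0) volume volume :=
      (measurePreserving_add_right (volume : Measure ℝ) _).quasiMeasurePreserving
    filter_upwards [h1.ae (h.line t)] with p hp
    have h2 := hp.comp_add_right s0
    refine h2.congr (Eventually.of_forall fun s => ?_)
    exact (key t p s).symm
  · refine h.strip.mono fun t ht => ?_
    intro hall
    apply ht
    intro r
    have h1 := hall (r + |t * s0|)
    have hemb : MeasurableEmbedding (fun z : ℝ × ℝ => z + (0, s0)) :=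
      measurableEmbedding_addRight _
    have hmp : MeasurePreserving (fun z : ℝ × ℝ => z + (0, s0))
        (volume : Measure (ℝ × ℝ)) volume := measurePreserving_add_right _ _
    have h2 : IntegrableOn (f ∘ fun z : ℝ × ℝ => z + (0, s0))
        ((fun z : ℝ × ℝ => z + (0, s0)) ⁻¹' (St (r + |t * s0|) t)) volume :=
      (hmp.integrableOn_comp_preimage hemb).2 h1
    have h3 : IntegrableOn (fun z : ℝ × ℝ => f (z.1, z.2 + s0))
        ((fun z : ℝ × ℝ => z + (0, s0)) ⁻¹' (St (r + |t * s0|) t)) volume := by
      refine h2.congr_fun (fun z _ => ?_) (hemb.measurable (St_open _ _).measurableSet)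
      simp only [Function.comp_apply]
      congr 1
      refine Prod.ext ?_ ?_
      · simp
      · simp
    refine h3.mono_set fun z hz => ?_
    show |(z + (0, s0)).1 + t * (z + (0, s0)).2| < r + |t * s0|
    have hz' : |z.1 + t * z.2| < r := hz
    have e1 : (z + (0, s0)).1 + t * (z + (0, s0)).2 = (z.1 + t * z.2) + t * s0 := by
      simp only [Prod.fst_add, Prod.snd_add, add_zero]
      ring
    rw [e1]
    have := abs_add_le (z.1 + t * z.2) (t * s0)
    linarith
  · filter_upwards [h.zero] with t ht
    have h1 : Measure.QuasiMeasurePreserving (fun p : ℝ => p + t * s0) volume volume :=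
      (measurePreserving_add_right (volume : Measure ℝ) _).quasiMeasurePreserving
    filter_upwards [h1.ae ht] with p hp
    simp_rw [key t p]
    rw [integral_add_right_eq_self (fun s => f (p + t * s0 - t * s, s)) s0]
    exact hp
  · have h1 : Measure.QuasiMeasurePreserving (fun s : ℝ => s + s0) volume volume :=
      (measurePreserving_add_right (volume : Measure ℝ) _).quasiMeasurePreserving
    exact h1.ae h.hor

theorem BSlope.main {f : ℝ × ℝ → ℝ} (h : BSlope f) : f = 0 := by
  have h1 : ∀ᵐ s : ℝ, ∀ x : ℝ, f (x, s) = 0 := by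
    filter_upwards [h.hor] with s hs x
    have h2 := (h.translate s).axis (by simpa using hs) x
    simpa using h2
  funext z
  obtain ⟨x, s⟩ := z
  have h2 : (fun s : ℝ => f (x, s)) =ᵐ[volume] fun _ => 0 := by
    filter_upwards [h1] with s hs
    exact hs x
  have hc : Continuous (fun s : ℝ => f (x, s)) := h.cont.comp (by fun_prop)
  have h3 := (Continuous.ae_eq_iff_eq volume hc continuous_const).1 h2
  exact congrFun h3 s

theorem arctan_qmp : Measure.QuasiMeasurePreserving arctan (volume : Measure ℝ) volume := by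
  refine ⟨Real.measurable_arctan, ?_⟩
  refine Measure.AbsolutelyContinuous.mk fun N hN hN0 => ?_
  rw [Measure.map_apply Real.measurable_arctan hN]
  have h1 : arctan ⁻¹' N ⊆ tan '' (N ∩ Ioo (-(π / 2)) (π / 2)) := by
    intro t ht
    exact ⟨arctan t, ⟨ht, arctan_mem_Ioo t⟩, tan_arctan t⟩
  refine measure_mono_null h1 ?_
  refine addHaar_image_eq_zero_of_differentiableOn_of_addHaar_eq_zero volume ?_
    (measure_mono_null inter_subset_left hN0)
  intro x hx
  exact (hasDerivAt_tan_of_mem_Ioo hx.2).differentiableAt.differentiableWithinAt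

/-- the theorem in angle form -/
theorem angle_main (f : ℝ × ℝ → ℝ) (hf : Continuous f) (hb : ∃ C : ℝ, ∀ x, |f x| ≤ C)
    (hline : ∀ θ : ℝ, ∀ᵐ p : ℝ, Integrable
      (fun t : ℝ => f (p * cos θ - t * sin θ, p * sin θ + t * cos θ)))
    (hstrip : {θ : ℝ | ¬ ∀ r : ℝ,
      IntegrableOn f {x : ℝ × ℝ | |x.1 * cos θ + x.2 * sin θ| ≤ r}}.Countable)
    (hRadon : ∀ᵐ θ : ℝ, ∀ᵐ p : ℝ,
      ∫ t : ℝ, f (p * cos θ - t * sin θ, p * sin θ + t * cos θ) = 0) : f = 0 := by
  have hcos : ∀ t : ℝ, 0 < cos (arctan t) := cos_arctan_pos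
  have hsin : ∀ t : ℝ, sin (arctan t) = t * cos (arctan t) := by
    intro t
    rw [sin_arctan, cos_arctan]
    ring
  have hsq : ∀ t : ℝ, cos (arctan t) ^ 2 * (1 + t ^ 2) = 1 := by
    intro t
    have := sin_sq_add_cos_sq (arctan t)
    rw [hsin] at this
    linarith
  -- parametrisations
  have hpar : ∀ t p s : ℝ, f (p - t * s, s) = (fun u : ℝ =>
      f (cos (arctan t) * p * cos (arctan t) - u * sin (arctan t),
        cos (arctan t) * p * sin (arctan t) + u * cos (arctan t)))
      ((cos (arctan t))⁻¹ * s - cos (arctan t) * p * t) := by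
    intro t p s
    simp only
    have hc := (hcos t).ne'
    have h2 := hsq t
    rw [hsin]
    congr 1
    refine Prod.ext ?_ ?_
    · simp only
      field_simp
      linear_combination (-p) * h2
    · simp only
      field_simp
      ring
  have hq : ∀ t : ℝ, Measure.QuasiMeasurePreserving (fun p : ℝ => cos (arctan t) * p)
      volume volume := by
    intro t
    refine ⟨measurable_const_mul _, ?_⟩
    rw [Real.map_volume_mul_left (hcos t).ne']
    exact Measure.smul_absolutelyContinuous
  have hS : BSlope f := by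
    refine ⟨hf, hb, fun t => ?_, ?_, ?_, ?_⟩
    · filter_upwards [(hq t).ae (hline (arctan t))] with p hp
      have h1 := (hp.comp_sub_right (cos (arctan t) * p * t)).comp_mul_left'
        (inv_ne_zero (hcos t).ne')
      refine h1.congr (Eventually.of_forall fun s => ?_)
      exact (hpar t p s).symm
    · have h1 : {t : ℝ | ¬ ∀ r : ℝ, IntegrableOn f (St r t)} ⊆ arctan ⁻¹' {θ : ℝ | ¬ ∀ r : ℝ,
          IntegrableOn f {x : ℝ × ℝ | |x.1 * cos θ + x.2 * sin θ| ≤ r}} := by
        intro t ht hall
        apply ht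
        intro r
        refine (hall (cos (arctan t) * r)).mono_set fun z hz => ?_
        have hz' : |z.1 + t * z.2| < r := hz
        show |z.1 * cos (arctan t) + z.2 * sin (arctan t)| ≤ cos (arctan t) * r
        have e1 : z.1 * cos (arctan t) + z.2 * sin (arctan t) =
            cos (arctan t) * (z.1 + t * z.2) := by
          rw [hsin]
          ring
        rw [e1, abs_mul, abs_of_pos (hcos t)]
        exact mul_le_mul_of_nonneg_left hz'.le (hcos t).le
      refine (hstrip.preimage_of_injOn ?_).mono h1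
      exact arctan_injective.injOn
    · filter_upwards [arctan_qmp.ae hRadon] with t ht
      filter_upwards [(hq t).ae ht] with p hp
      have h1 := Measure.integral_comp_mul_left (fun u : ℝ => (fun u : ℝ =>
        f (cos (arctan t) * p * cos (arctan t) - u * sin (arctan t),
          cos (arctan t) * p * sin (arctan t) + u * cos (arctan t)))
          (u - cos (arctan t) * p * t)) (cos (arctan t))⁻¹
      rw [integral_sub_right_eq_self (fun u : ℝ =>
        f (cos (arctan t) * p * cos (arctan t) - u * sin (arctan t),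
          cos (arctan t) * p * sin (arctan t) + u * cos (arctan t)))
          (cos (arctan t) * p * t), hp, smul_zero] at h1
      rw [← h1]
      refine integral_congr_ae (Eventually.of_forall fun s => ?_)
      exact hpar t p s
    · filter_upwards [hline (π / 2)] with p hp
      simp only [cos_pi_div_two, sin_pi_div_two, mul_zero, mul_one, zero_sub, add_zero] at hp
      have := hp.comp_neg
      simpa using this
  exact hS.main

end Pool.Agent.Helper34.Radon.Bd
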