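import Pool.Agent.Helper34.Radon.Bd.Holo
import Pool.Agent.Helper34.Radon.Bd.Main
import Pool.Agent.Helper34.Radon.Rot

set_option autoImplicit false

open MeasureTheory Real Filter Topology Set
open scoped FourierTransform ContDiff ENNReal

noncomputable section

namespace Pool.Agent.Helper34.Radon.Bd

/-- integrability on all parallel lines gives integrability on some strip -/
theorem strip_of_lines {f : ℝ × ℝ → ℝ} (hf : Continuous f) {t : ℝ}
    (h : ∀ p : ℝ, Integrable (fun s : ℝ => f (p - t * s, s))) :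
    ∃ c r : ℝ, 0 < r ∧ IntegrableOn f (Sc c r t) := by
  have hm : ∀ p : ℝ, Measurable (fun s : ℝ => ‖f (p - t * s, s)‖ₑ) := fun p =>
    (hf.comp (by fun_prop : Continuous fun s : ℝ => (p - t * s, s))).enorm.measurable
  have hcl : ∀ n : ℕ, IsClosed {p : ℝ | ∫⁻ s : ℝ, ‖f (p - t * s, s)‖ₑ ≤ n} := by
    intro n
    refine IsSeqClosed.isClosed ?_
    intro u p hu hp
    have h1 := lintegral_liminf_le (μ := (volume : Measure ℝ)) (u := atTop) (fun i => hm (u i))
    have h2 : ∫⁻ s : ℝ, ‖f (p - t * s, s)‖ₑ ≤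
        ∫⁻ s : ℝ, liminf (fun i => ‖f (u i - t * s, s)‖ₑ) atTop := by
      refine lintegral_mono fun s => ?_
      have h3 : Continuous (fun p : ℝ => ‖f (p - t * s, s)‖ₑ) :=
        (hf.comp (by fun_prop : Continuous fun p : ℝ => (p - t * s, s))).enorm
      have h4 := (h3.tendsto p).comp hp
      rw [← h4.liminf_eq]
      rfl
    refine (h2.trans h1).trans ?_
    exact liminf_le_of_frequently_le' (Frequently.of_forall fun i => hu i)
  obtain ⟨n, p0, hp0⟩ := nonempty_interior_of_iUnion_of_closed (X := ℝ) hcl (by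
    rw [eq_univ_iff_forall]
    intro p
    rw [mem_iUnion]
    have h1 : ∫⁻ s : ℝ, ‖f (p - t * s, s)‖ₑ < ⊤ := (h p).2
    obtain ⟨n, hn⟩ := ENNReal.exists_nat_gt h1.ne
    exact ⟨n, hn.le⟩)
  rw [mem_interior_iff_mem_nhds, Metric.mem_nhds_iff] at hp0
  obtain ⟨r, hr, hball⟩ := hp0
  refine ⟨p0, r, hr, hf.aestronglyMeasurable, ?_⟩
  show ∫⁻ z in Sc p0 r t, ‖f z‖ₑ < ⊤
  have hmF : Measurable (fun z : ℝ × ℝ => (Sc p0 r t).indicator (fun z => ‖f z‖ₑ) z) :=
    hf.enorm.measurable.indicator (Sc_open _ _ _).measurableSet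
  rw [← lintegral_indicator (Sc_open _ _ _).measurableSet,
    ← (shear_mp t).lintegral_comp hmF, Measure.volume_eq_prod, lintegral_prod]
  · have h1 : ∀ p : ℝ, ∫⁻ s : ℝ, (Sc p0 r t).indicator (fun z => ‖f z‖ₑ) (p - t * s, s) ≤
        (Metric.ball p0 r).indicator (fun _ => (n : ℝ≥0∞)) p := by
      intro p
      by_cases hp : p ∈ Metric.ball p0 r
      · rw [indicator_of_mem hp]
        refine le_trans (lintegral_mono fun s => ?_) (hball hp)
        exact indicator_le_self' (fun _ _ => zero_le) _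
      · rw [indicator_of_notMem hp]
        refine le_of_eq ?_
        rw [lintegral_eq_zero_iff']
        · refine Eventually.of_forall fun s => ?_
          simp only [Pi.zero_apply]
          refine indicator_of_notMem ?_ _
          intro hz
          apply hp
          have hz' : |p - t * s + t * s - p0| < r := hz
          rw [Metric.mem_ball, Real.dist_eq]
          have e1 : p - t * s + t * s - p0 = p - p0 := by ring
          rwa [e1] at hz'
        · exact (hmF.comp (by fun_prop : Measurable fun s : ℝ => (p - t * s, s))).aemeasurable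
    refine lt_of_le_of_lt (lintegral_mono h1) ?_
    rw [lintegral_indicator Metric.isOpen_ball.measurableSet, lintegral_const,
      Measure.restrict_apply_univ, Real.volume_ball]
    exact ENNReal.mul_lt_top (ENNReal.natCast_lt_top n) ENNReal.ofReal_lt_top
  · exact (hmF.comp (by fun_prop : Measurable fun z : ℝ × ℝ =>
      (z.1 - t * z.2, z.2))).aemeasurable

theorem slope_hcos (t : ℝ) : 0 < cos (arctan t) := cos_arctan_pos t

theorem slope_par (f : ℝ × ℝ → ℝ) (t p s : ℝ) : f (p - t * s, s) = (fun u : ℝ =>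
    f (cos (arctan t) * p * cos (arctan t) - u * sin (arctan t),
      cos (arctan t) * p * sin (arctan t) + u * cos (arctan t)))
    ((cos (arctan t))⁻¹ * s - cos (arctan t) * p * t) := by
  have hsin : sin (arctan t) = t * cos (arctan t) := by
    rw [sin_arctan, cos_arctan]
    ring
  have h2 : cos (arctan t) ^ 2 * (1 + t ^ 2) = 1 := by
    have := sin_sq_add_cos_sq (arctan t)
    rw [hsin] at this
    linarith
  have hc := (slope_hcos t).ne'
  simp only
  rw [hsin]
  congr 1
  refine Prod.ext ?_ ?_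
  · simp only
    field_simp
    linear_combination (-p) * h2
  · simp only
    field_simp
    ring

theorem slope_int {f : ℝ × ℝ → ℝ} {t p : ℝ}
    (hp : Integrable (fun u : ℝ => f (cos (arctan t) * p * cos (arctan t) - u * sin (arctan t),
      cos (arctan t) * p * sin (arctan t) + u * cos (arctan t)))) :
    Integrable (fun s : ℝ => f (p - t * s, s)) := by
  have h1 := (hp.comp_sub_right (cos (arctan t) * p * t)).comp_mul_left'
    (inv_ne_zero (slope_hcos t).ne')
  refine h1.congr (Eventually.of_forall fun s => ?_)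
  exact (slope_par f t p s).symm

theorem slope_zero {f : ℝ × ℝ → ℝ} {t p : ℝ}
    (hp : ∫ u : ℝ, f (cos (arctan t) * p * cos (arctan t) - u * sin (arctan t),
      cos (arctan t) * p * sin (arctan t) + u * cos (arctan t)) = 0) :
    ∫ s : ℝ, f (p - t * s, s) = 0 := by
  have h1 := Measure.integral_comp_mul_left (fun u : ℝ => (fun u : ℝ =>
    f (cos (arctan t) * p * cos (arctan t) - u * sin (arctan t),
      cos (arctan t) * p * sin (arctan t) + u * cos (arctan t)))
      (u - cos (arctan t) * p * t)) (cos (arctan t))⁻¹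
  rw [integral_sub_right_eq_self (fun u : ℝ =>
    f (cos (arctan t) * p * cos (arctan t) - u * sin (arctan t),
      cos (arctan t) * p * sin (arctan t) + u * cos (arctan t)))
      (cos (arctan t) * p * t), hp, smul_zero] at h1
  rw [← h1]
  refine integral_congr_ae (Eventually.of_forall fun s => ?_)
  exact slope_par f t p s

theorem slope_qmp (t : ℝ) : Measure.QuasiMeasurePreserving (fun p : ℝ => cos (arctan t) * p)
    volume volume := by
  refine ⟨measurable_const_mul _, ?_⟩
  rw [Real.map_volume_mul_left (slope_hcos t).ne']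
  exact Measure.smul_absolutelyContinuous

/-- the theorem for analyticity in the horizontal direction -/
theorem angle_ana (f : ℝ × ℝ → ℝ) (hf : Continuous f) (hb : ∃ C : ℝ, ∀ x, |f x| ≤ C)
    (hline : ∀ θ : ℝ, ∀ᵐ p : ℝ, Integrable
      (fun t : ℝ => f (p * cos θ - t * sin θ, p * sin θ + t * cos θ)))
    (hall : {θ : ℝ | ¬ ∀ p : ℝ, Integrable
      (fun t : ℝ => f (p * cos θ - t * sin θ, p * sin θ + t * cos θ))}.Countable)
    (hRadon : ∀ᵐ θ : ℝ, ∀ᵐ p : ℝ,
      ∫ t : ℝ, f (p * cos θ - t * sin θ, p * sin θ + t * cos θ) = 0)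
    {ρ C : ℝ} (hρ : 0 < ρ) (hana : UA (fun z => ((f z : ℝ) : ℂ)) ρ C) : f = 0 := by
  have hC : 0 ≤ C := by
    obtain ⟨G, _, hG, _⟩ := hana 0
    exact (norm_nonneg _).trans (hG 0 (by simpa using hρ))
  have hS : HSlope f := by
    refine ⟨hf, hb, fun t => ?_, ?_, ?_, ?_, ρ, C, hρ, hC, hana⟩
    · filter_upwards [(slope_qmp t).ae (hline (arctan t))] with p hp
      exact slope_int hp
    · have h1 : {t : ℝ | ¬ ∃ c r : ℝ, 0 < r ∧ IntegrableOn f (Sc c r t)} ⊆
          arctan ⁻¹' {θ : ℝ | ¬ ∀ p : ℝ, Integrable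
            (fun t : ℝ => f (p * cos θ - t * sin θ, p * sin θ + t * cos θ))} := by
        intro t ht hall'
        apply ht
        exact strip_of_lines hf fun p => slope_int (hall' _)
      refine (hall.preimage_of_injOn ?_).mono h1
      exact arctan_injective.injOn
    · filter_upwards [arctan_qmp.ae hRadon] with t ht
      filter_upwards [(slope_qmp t).ae ht] with p hp
      exact slope_zero hp
    · filter_upwards [hline (π / 2)] with p hp
      simp only [cos_pi_div_two, sin_pi_div_two, mul_zero, mul_one, zero_sub, add_zero] at hp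
      have := hp.comp_neg
      simpa using this
  exact hS.main

/-- the theorem for analyticity in an arbitrary direction -/
theorem angle_ana_rot (f : ℝ × ℝ → ℝ) (hf : Continuous f) (hb : ∃ C : ℝ, ∀ x, |f x| ≤ C)
    (hline : ∀ θ : ℝ, ∀ᵐ p : ℝ, Integrable
      (fun t : ℝ => f (p * cos θ - t * sin θ, p * sin θ + t * cos θ)))
    (hall : {θ : ℝ | ¬ ∀ p : ℝ, Integrable
      (fun t : ℝ => f (p * cos θ - t * sin θ, p * sin θ + t * cos θ))}.Countable)
    (hRadon : ∀ᵐ θ : ℝ, ∀ᵐ p : ℝ,
      ∫ t : ℝ, f (p * cos θ - t * sin θ, p * sin θ + t * cos θ) = 0)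
    (θ₀ : ℝ) {ρ C : ℝ} (hρ : 0 < ρ)
    (hana : ∀ s : ℝ, ∃ G : ℂ → ℂ, DifferentiableOn ℂ G {z : ℂ | |z.im| < ρ} ∧
      (∀ z : ℂ, |z.im| < ρ → ‖G z‖ ≤ C) ∧
      ∀ x : ℝ, G x = (f (x * cos θ₀ - s * sin θ₀, x * sin θ₀ + s * cos θ₀) : ℝ)) : f = 0 := by
  have key : ∀ θ p t : ℝ, (f ∘ rot θ₀) (p * cos θ - t * sin θ, p * sin θ + t * cos θ) =
      f (p * cos (θ + θ₀) - t * sin (θ + θ₀), p * sin (θ + θ₀) + t * cos (θ + θ₀)) := by
    intro θ p t
    rw [Function.comp_apply, rot_line]
  have h0 : f ∘ rot θ₀ = 0 := by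
    refine angle_ana (f ∘ rot θ₀) (hf.comp (rot_continuous θ₀)) ?_ ?_ ?_ ?_ hρ (C := C) ?_
    · obtain ⟨M, hM⟩ := hb
      exact ⟨M, fun x => hM _⟩
    · intro θ
      filter_upwards [hline (θ + θ₀)] with p hp
      simp_rw [key]
      exact hp
    · have h1 : {θ : ℝ | ¬ ∀ p : ℝ, Integrable (fun t : ℝ =>
          (f ∘ rot θ₀) (p * cos θ - t * sin θ, p * sin θ + t * cos θ))} ⊆
          (fun θ : ℝ => θ + θ₀) ⁻¹' {θ : ℝ | ¬ ∀ p : ℝ, Integrable
            (fun t : ℝ => f (p * cos θ - t * sin θ, p * sin θ + t * cos θ))} := by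
        intro θ hθ hall'
        apply hθ
        intro p
        simp_rw [key]
        exact hall' p
      refine (hall.preimage_of_injOn ?_).mono h1
      exact (add_left_injective θ₀).injOn
    · have h1 : Measure.QuasiMeasurePreserving (fun θ : ℝ => θ + θ₀) volume volume :=
        (measurePreserving_add_right (volume : Measure ℝ) _).quasiMeasurePreserving
      filter_upwards [h1.ae hRadon] with θ hθ
      filter_upwards [hθ] with p hp
      simp_rw [key]
      exact hp
    · intro s
      obtain ⟨G, hG1, hG2, hG3⟩ := hana s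
      exact ⟨G, hG1, hG2, fun x => hG3 x⟩
  funext x
  have h1 := congrFun h0 (rot (-θ₀) x)
  rw [Function.comp_apply, rot_rot'] at h1
  exact h1

end Pool.Agent.Helper34.Radon.Bd
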