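import Mathlib

set_option autoImplicit false

open MeasureTheory Filter Topology Set
open scoped ENNReal NNReal

noncomputable section

namespace Pool.Agent.Helper34.Radon.Bd

/-- points near which `w` is not affine -/
def Kset (w : ℝ → ℂ) : Set ℝ :=
  {t | ¬ ∃ η > 0, ∃ a b : ℂ, ∀ u : ℝ, |u - t| < η → w u = a + u • b}

theorem Kset_closed (w : ℝ → ℂ) : IsClosed (Kset w) := by
  have h : IsOpen {t : ℝ | ∃ η > 0, ∃ a b : ℂ, ∀ u : ℝ, |u - t| < η → w u = a + u • b} := by
    rw [Metric.isOpen_iff]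
    rintro t ⟨η, hη, a, b, h⟩
    refine ⟨η / 2, half_pos hη, fun t' ht' => ⟨η / 2, half_pos hη, a, b, fun u hu => h u ?_⟩⟩
    rw [Metric.mem_ball, Real.dist_eq] at ht'
    have := abs_sub_le u t' t
    linarith
  have h2 := h.isClosed_compl
  exact h2

/-- `w` is affine on the intervals which do not meet the exceptional set -/
theorem gap {w : ℝ → ℂ} (hw : Continuous w) {c d : ℝ} (hcd : c < d)
    (h : ∀ u ∈ Ioo c d, u ∉ Kset w) : ∃ b : ℂ, ∀ u ∈ Icc c d, w u = w c + (u - c) • b := by
  have hloc : ∀ u ∈ Ioo c d, ∃ η > 0, ∃ a b : ℂ, ∀ v : ℝ, |v - u| < η → w v = a + v • b := by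
    intro u hu
    have := h u hu
    unfold Kset at this
    simpa using this
  have hder : ∀ u ∈ Ioo c d, ∃ b : ℂ, ∀ᶠ v in 𝓝 u, HasDerivAt w b v := by
    intro u hu
    obtain ⟨η, hη, a, b, hab⟩ := hloc u hu
    refine ⟨b, ?_⟩
    rw [Metric.eventually_nhds_iff]
    refine ⟨η / 2, half_pos hη, fun v hv => ?_⟩
    rw [Real.dist_eq] at hv
    have h1 : HasDerivAt (fun v : ℝ => a + v • b) b v := by
      have := ((hasDerivAt_id v).smul_const b).const_add a
      simpa using this
    refine h1.congr_of_eventuallyEq ?_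
    filter_upwards [Metric.ball_mem_nhds v (half_pos hη)] with y hy
    rw [Metric.mem_ball, Real.dist_eq] at hy
    refine hab y ?_
    have := abs_sub_le y v u
    linarith
  have hdiff : DifferentiableOn ℝ w (Ioo c d) := by
    intro u hu
    obtain ⟨b, hb⟩ := hder u hu
    exact hb.self_of_nhds.differentiableAt.differentiableWithinAt
  have hdd : ∀ u ∈ Ioo c d, HasDerivAt (deriv w) 0 u := by
    intro u hu
    obtain ⟨b, hb⟩ := hder u hu
    refine (hasDerivAt_const u b).congr_of_eventuallyEq ?_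
    filter_upwards [hb] with v hv
    exact hv.deriv
  set m : ℝ := (c + d) / 2 with hm
  have hmm : m ∈ Ioo c d := ⟨by rw [hm]; linarith, by rw [hm]; linarith⟩
  have hconst : ∀ u ∈ Ioo c d, deriv w u = deriv w m := by
    intro u hu
    refine isOpen_Ioo.is_const_of_deriv_eq_zero (𝕜 := ℝ) isPreconnected_Ioo ?_ ?_ hu hmm
    · intro v hv
      exact (hdd v hv).differentiableAt.differentiableWithinAt
    · intro v hv
      exact (hdd v hv).deriv
  have haff : ∀ u ∈ Ioo c d, w u - u • deriv w m = w m - m • deriv w m := by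
    intro u hu
    have hg : ∀ v ∈ Ioo c d, HasDerivAt (fun v : ℝ => w v - v • deriv w m) 0 v := by
      intro v hv
      have h1 : HasDerivAt w (deriv w m) v := by
        rw [← hconst v hv]
        exact ((hdiff v hv).differentiableAt (isOpen_Ioo.mem_nhds hv)).hasDerivAt
      have h2 : HasDerivAt (fun v : ℝ => v • deriv w m) (deriv w m) v := by
        have := (hasDerivAt_id v).smul_const (deriv w m)
        simpa using this
      have h3 := h1.sub h2
      rw [sub_self] at h3
      exact h3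
    refine isOpen_Ioo.is_const_of_deriv_eq_zero (𝕜 := ℝ) (f := fun v : ℝ => w v - v • deriv w m)
      isPreconnected_Ioo ?_ ?_ hu hmm
    · intro v hv
      exact (hg v hv).differentiableAt.differentiableWithinAt
    · intro v hv
      exact (hg v hv).deriv
  refine ⟨deriv w m, ?_⟩
  have hcl : ∀ u ∈ Icc c d, w u - u • deriv w m = w m - m • deriv w m := by
    intro u hu
    rw [← closure_Ioo hcd.ne] at hu
    have hclosed : IsClosed {u : ℝ | w u - u • deriv w m = w m - m • deriv w m} :=
      isClosed_eq (by fun_prop) continuous_const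
    exact closure_minimal (fun x hx => haff x hx) hclosed hu
  intro u hu
  have h1 := hcl u hu
  have h2 := hcl c (left_mem_Icc.2 hcd.le)
  rw [← h2] at h1
  rw [sub_smul]
  linear_combination h1

/-- the abstract hypotheses -/
structure Hyp (w J : ℝ → ℂ) (α β C : ℝ) : Prop where
  cont : Continuous w
  C0 : 0 ≤ C
  h3 : ∀ t ∈ Kset w, t ∈ Ioo α β → ∀ t' ∈ Kset w, t' ∈ Ioo α β →
    ‖w t' - w t - (t' - t) • J t‖ ≤ C * (t' - t) ^ 2
  h2 : ∀ t : ℝ, ∀ ε > 0, ∃ η > 0, ∀ h : ℝ, 0 < h → h < η →
    ‖w (t + h) + w (t - h) - 2 * w t‖ ≤ ε * h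

theorem Kset_neg (w : ℝ → ℂ) (t : ℝ) : t ∈ Kset (fun u => w (-u)) ↔ -t ∈ Kset w := by
  have key : ∀ (w : ℝ → ℂ) (t : ℝ),
      (∃ η > 0, ∃ a b : ℂ, ∀ u : ℝ, |u - t| < η → w u = a + u • b) →
      (∃ η > 0, ∃ a b : ℂ, ∀ u : ℝ, |u - -t| < η → w (-u) = a + u • b) := by
    rintro w t ⟨η, hη, a, b, h⟩
    refine ⟨η, hη, a, -b, fun u hu => ?_⟩
    rw [h (-u) ?_]
    · simp
    · rw [← abs_neg]
      convert hu using 2
      ring
  unfold Kset
  rw [mem_ofPred_eq, mem_ofPred_eq, not_iff_not]
  constructor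
  · intro h
    have := key _ _ h
    simpa using this
  · intro h
    have := key _ _ h
    simpa using this

theorem Hyp.neg {w J : ℝ → ℂ} {α β C : ℝ} (h : Hyp w J α β C) :
    Hyp (fun u => w (-u)) (fun u => - J (-u)) (-β) (-α) C := by
  refine ⟨h.cont.comp continuous_neg, h.C0, ?_, ?_⟩
  · intro t ht hti t' ht' hti'
    rw [Kset_neg] at ht ht'
    have hti1 : -t ∈ Ioo α β := ⟨by linarith [hti.2], by linarith [hti.1]⟩
    have hti2 : -t' ∈ Ioo α β := ⟨by linarith [hti'.2], by linarith [hti'.1]⟩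
    have h1 := h.h3 (-t) ht hti1 (-t') ht' hti2
    have e1 : w (-t') - w (-t) - (t' - t) • (- J (-t)) =
        w (-t') - w (-t) - (-t' - -t) • J (-t) := by
      rw [smul_neg, ← neg_smul]
      congr 2
      ring
    have e2 : (t' - t) ^ 2 = (-t' - -t) ^ 2 := by ring
    rw [e1, e2]
    exact h1
  · intro t ε hε
    obtain ⟨η, hη, h1⟩ := h.h2 (-t) ε hε
    refine ⟨η, hη, fun u hu hu1 => ?_⟩
    have h2 := h1 u hu hu1
    have e1 : w (-(t + u)) + w (-(t - u)) - 2 * w (-t) =
        w (-t + u) + w (-t - u) - 2 * w (-t) := by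
      have a1 : -(t + u) = -t - u := by ring
      have a2 : -(t - u) = -t + u := by ring
      rw [a1, a2]
      ring
    rw [e1]
    exact h2

/-- the slope on a gap to the right of a point of the exceptional set -/
theorem Hyp.slope_right {w J : ℝ → ℂ} {α β C : ℝ} (h : Hyp w J α β C) {a d : ℝ}
    (ha : a ∈ Kset w) (hai : a ∈ Ioo α β) (had : a < d) {b : ℂ}
    (hb : ∀ u ∈ Icc a d, w u = w a + (u - a) • b) : b = J a := by
  by_cases hcase : ∃ η > 0, ∀ u ∈ Ioo (a - η) a, u ∉ Kset w
  · exfalso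
    obtain ⟨η, hη, hn⟩ := hcase
    obtain ⟨b', hb'⟩ := gap h.cont (show a - η < a by linarith) hn
    have hb2 : ∀ u ∈ Icc (a - η) a, w u = w a + (u - a) • b' := by
      intro u hu
      rw [hb' u hu, hb' a ⟨by linarith, le_rfl⟩, add_assoc, ← add_smul]
      congr 2
      ring
    have hbb : b = b' := by
      by_contra hne
      have hpos : 0 < ‖b - b'‖ := norm_pos_iff.2 (sub_ne_zero.2 hne)
      obtain ⟨η', hη', hs⟩ := h.h2 a (‖b - b'‖ / 2) (half_pos hpos)
      set u : ℝ := min (η' / 2) (min η (d - a)) with hu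
      have hu0 : 0 < u := by
        rw [hu]
        exact lt_min (half_pos hη') (lt_min hη (by linarith))
      have hu1 : u < η' := lt_of_le_of_lt (min_le_left _ _) (by linarith)
      have hu2 : u ≤ η := (min_le_right _ _).trans (min_le_left _ _)
      have hu3 : u ≤ d - a := (min_le_right _ _).trans (min_le_right _ _)
      have h1 := hs u hu0 hu1
      rw [hb (a + u) ⟨by linarith, by linarith⟩, hb2 (a - u) ⟨by linarith, by linarith⟩] at h1
      have e1 : w a + (a + u - a) • b + (w a + (a - u - a) • b') - 2 * w a = u • (b - b') := by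
        have a1 : a + u - a = u := by ring
        have a2 : a - u - a = -u := by ring
        rw [a1, a2, neg_smul, smul_sub]
        ring
      rw [e1, norm_smul, Real.norm_of_nonneg hu0.le] at h1
      nlinarith
    subst hbb
    apply ha
    refine ⟨min η (d - a), lt_min hη (by linarith), w a - a • b, b, fun u hu => ?_⟩
    have h1 := lt_of_lt_of_le hu (min_le_left _ _)
    have h2 := lt_of_lt_of_le hu (min_le_right _ _)
    rw [abs_lt] at h1 h2
    have h3 : w u = w a + (u - a) • b := by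
      rcases le_total a u with h4 | h4
      · exact hb u ⟨h4, by linarith⟩
      · exact hb2 u ⟨by linarith, h4⟩
    rw [h3, sub_smul]
    ring
  · push Not at hcase
    have key : ∀ ε > 0, ‖b - J a‖ ≤ ε := by
      intro ε hε
      obtain ⟨η', hη', hs⟩ := h.h2 a (ε / 2) (half_pos hε)
      have hC := h.C0
      set η : ℝ := min (min η' (d - a)) (min (a - α) (ε / (2 * (C + 1)))) with hηd
      have hη0 : 0 < η := by
        rw [hηd]
        refine lt_min (lt_min hη' (by linarith)) (lt_min (by linarith [hai.1]) (by positivity))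
      obtain ⟨u, hu, huK⟩ := hcase η hη0
      have g1 : η ≤ η' := (min_le_left _ _).trans (min_le_left _ _)
      have g2 : η ≤ d - a := (min_le_left _ _).trans (min_le_right _ _)
      have g3 : η ≤ a - α := (min_le_right _ _).trans (min_le_left _ _)
      have g4 : η ≤ ε / (2 * (C + 1)) := (min_le_right _ _).trans (min_le_right _ _)
      obtain ⟨hu1, hu2⟩ := hu
      set k : ℝ := a - u with hk
      have hk0 : 0 < k := by rw [hk]; linarith
      have hkη : k < η := by rw [hk]; linarith
      have h1 := hs k hk0 (by linarith)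
      have hau : a - k = u := by rw [hk]; ring
      rw [hb (a + k) ⟨by linarith, by linarith⟩, hau] at h1
      have h2 := h.h3 a ha hai u huK ⟨by linarith, by linarith [hai.2]⟩
      have e1 : k • (b - J a) = (w a + (a + k - a) • b + w u - 2 * w a) -
          (w u - w a - (u - a) • J a) := by
        have a1 : a + k - a = k := by ring
        have a2 : u - a = -k := by rw [hk]; ring
        rw [a1, a2, neg_smul, smul_sub]
        ring
      have h3 : k * ‖b - J a‖ ≤ ε / 2 * k + C * (u - a) ^ 2 := by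
        have := congrArg norm e1
        rw [norm_smul, Real.norm_of_nonneg hk0.le] at this
        rw [this]
        refine (norm_sub_le _ _).trans ?_
        linarith
      have h4 : (u - a) ^ 2 = k * k := by rw [hk]; ring
      rw [h4] at h3
      have h5 : C * k ≤ ε / 2 := by
        have h6 : k ≤ ε / (2 * (C + 1)) := by linarith
        calc C * k ≤ (C + 1) * (ε / (2 * (C + 1))) := by gcongr; linarith
          _ = ε / 2 := by field_simp
      have h7 : k * ‖b - J a‖ ≤ k * ε := by nlinarith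
      exact le_of_mul_le_mul_left h7 hk0
    have h0 : ‖b - J a‖ ≤ 0 := le_of_forall_pos_le_add fun ε hε => by simpa using key ε hε
    exact sub_eq_zero.1 (norm_le_zero_iff.1 h0)

theorem Hyp.slope_left {w J : ℝ → ℂ} {α β C : ℝ} (h : Hyp w J α β C) {a d : ℝ}
    (ha : a ∈ Kset w) (hai : a ∈ Ioo α β) (had : d < a) {b : ℂ}
    (hb : ∀ u ∈ Icc d a, w u = w a + (u - a) • b) : b = J a := by
  have h1 := h.neg.slope_right (a := -a) (d := -d) (b := -b)
    ((Kset_neg w (-a)).2 (by rwa [neg_neg])) ⟨by linarith [hai.2], by linarith [hai.1]⟩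
    (by linarith) (by
      intro u hu
      have h2 := hb (-u) ⟨by linarith [hu.2], by linarith [hu.1]⟩
      simp only [neg_neg]
      rw [h2, smul_neg, ← neg_smul]
      congr 2
      ring)
  simpa using h1

theorem Hyp.J_lip {w J : ℝ → ℂ} {α β C : ℝ} (h : Hyp w J α β C) {t t' : ℝ}
    (ht : t ∈ Kset w) (hti : t ∈ Ioo α β) (ht' : t' ∈ Kset w) (hti' : t' ∈ Ioo α β) :
    ‖J t' - J t‖ ≤ 2 * C * |t' - t| := by
  rcases eq_or_ne t t' with h0 | h0
  · rw [h0]
    simp
  have h1 := h.h3 t ht hti t' ht' hti'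
  have h2 := h.h3 t' ht' hti' t ht hti
  have hpos : 0 < |t' - t| := abs_pos.2 (sub_ne_zero.2 h0.symm)
  have e1 : (t' - t) • (J t' - J t) = (w t' - w t - (t' - t) • J t) +
      (w t - w t' - (t - t') • J t') := by
    have a1 : t - t' = -(t' - t) := by ring
    rw [a1, neg_smul, smul_sub]
    ring
  have h3 := congrArg norm e1
  rw [norm_smul, Real.norm_eq_abs] at h3
  have h4 := norm_add_le (w t' - w t - (t' - t) • J t) (w t - w t' - (t - t') • J t')
  have h5 : |t' - t| * ‖J t' - J t‖ ≤ |t' - t| * (2 * C * |t' - t|) := by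
    rw [h3]
    refine h4.trans ?_
    have h6 : (t - t') ^ 2 = |t' - t| ^ 2 := by rw [sq_abs]; ring
    have h7 : (t' - t) ^ 2 = |t' - t| ^ 2 := by rw [sq_abs]
    rw [h6] at h2
    rw [h7] at h1
    nlinarith
  exact le_of_mul_le_mul_left h5 hpos

/-- quadratic estimate to the right of a point of the exceptional set -/
theorem Hyp.right {w J : ℝ → ℂ} {α β C : ℝ} (h : Hyp w J α β C) {t t' : ℝ}
    (ht : t ∈ Kset w) (hti : t ∈ Ioo α β) (htt : t < t') (ht' : t' < β) :
    ‖w t' - w t - (t' - t) • J t‖ ≤ 2 * C * (t' - t) ^ 2 := by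
  have hC := h.C0
  have hcomp : IsCompact (Kset w ∩ Icc t t') := isCompact_Icc.inter_left (Kset_closed w)
  have hne : (Kset w ∩ Icc t t').Nonempty := ⟨t, ht, le_rfl, htt.le⟩
  have haM := hcomp.sSup_mem hne
  set a : ℝ := sSup (Kset w ∩ Icc t t') with ha
  obtain ⟨haK, hat, hat'⟩ := haM
  have hai : a ∈ Ioo α β := ⟨lt_of_lt_of_le hti.1 hat, lt_of_le_of_lt hat' ht'⟩
  have h1 := h.h3 t ht hti a haK hai
  rcases eq_or_lt_of_le hat' with he | hlt
  · rw [← he]
    refine h1.trans ?_
    nlinarith [sq_nonneg (a - t)]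
  · obtain ⟨b, hb⟩ := gap h.cont hlt (fun u hu huK => by
      have h2 : u ≤ a := le_csSup hcomp.bddAbove ⟨huK, hat.trans hu.1.le, hu.2.le⟩
      exact absurd hu.1 (not_lt.2 h2))
    have hbJ := h.slope_right haK hai hlt hb
    have h3 := hb t' ⟨hlt.le, le_rfl⟩
    have h4 := h.J_lip ht hti haK hai
    rw [abs_of_nonneg (by linarith)] at h4
    have e1 : w t' - w t - (t' - t) • J t =
        (w a - w t - (a - t) • J t) + (t' - a) • (J a - J t) := by
      rw [h3, hbJ, smul_sub]
      have a1 : t' - t = (t' - a) + (a - t) := by ring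
      rw [a1, add_smul]
      ring
    rw [e1]
    refine (norm_add_le _ _).trans ?_
    rw [norm_smul, Real.norm_of_nonneg (by linarith)]
    have h5 : (t' - a) * ‖J a - J t‖ ≤ (t' - a) * (2 * C * (a - t)) :=
      mul_le_mul_of_nonneg_left h4 (by linarith)
    have h6 : 0 ≤ (t' - a) ^ 2 := sq_nonneg _
    have h7 : 0 ≤ (a - t) ^ 2 := sq_nonneg _
    have h8 : 0 ≤ (t' - a) * (a - t) := mul_nonneg (by linarith) (by linarith)
    nlinarith

theorem Hyp.left {w J : ℝ → ℂ} {α β C : ℝ} (h : Hyp w J α β C) {t t' : ℝ}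
    (ht : t ∈ Kset w) (hti : t ∈ Ioo α β) (htt : t' < t) (ht' : α < t') :
    ‖w t' - w t - (t' - t) • J t‖ ≤ 2 * C * (t' - t) ^ 2 := by
  have h1 := h.neg.right (t := -t) (t' := -t') ((Kset_neg w (-t)).2 (by rwa [neg_neg]))
    ⟨by linarith [hti.2], by linarith [hti.1]⟩ (by linarith) (by linarith)
  simp only [neg_neg] at h1
  have e1 : w t' - w t - (t' - t) • J t = w t' - w t - (-t' - -t) • (- J t) := by
    rw [smul_neg, ← neg_smul]
    congr 2
    ring
  have e2 : (t' - t) ^ 2 = (-t' - -t) ^ 2 := by ring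
  rw [e1, e2]
  exact h1

theorem Hyp.hasDerivAt {w J : ℝ → ℂ} {α β C : ℝ} (h : Hyp w J α β C) {t : ℝ}
    (ht : t ∈ Kset w) (hti : t ∈ Ioo α β) : HasDerivAt w (J t) t := by
  rw [hasDerivAt_iff_isLittleO]
  have h1 : (fun u : ℝ => w u - w t - (u - t) • J t) =O[𝓝 t] fun u => (u - t) ^ 2 := by
    refine Asymptotics.IsBigO.of_bound (2 * C) ?_
    filter_upwards [isOpen_Ioo.mem_nhds hti] with u hu
    rw [Real.norm_of_nonneg (sq_nonneg (u - t))]
    rcases lt_trichotomy u t with h2 | h2 | h2
    · exact h.left ht hti h2 hu.1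
    · rw [h2]
      simp
    · exact h.right ht hti h2 hu.2
  refine h1.trans_isLittleO ?_
  have h2 : (fun u : ℝ => (u - t) ^ 2) =o[𝓝 t] fun u => u - t := by
    have h3 : (fun u : ℝ => (u - t) ^ 2) = fun u => (u - t) * (u - t) := by
      funext u; ring
    rw [h3]
    have h4 : (fun u : ℝ => (u - t) * (u - t)) =o[𝓝 t] fun u => (1 : ℝ) * (u - t) := by
      refine Asymptotics.IsLittleO.mul_isBigO ?_ (Asymptotics.isBigO_refl _ _)
      rw [Asymptotics.isLittleO_one_iff]
      have h5 : Continuous (fun u : ℝ => u - t) := by fun_prop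
      have h6 := h5.tendsto t
      simpa using h6
    simpa using h4
  exact h2

/-- the derivative on a gap -/
theorem deriv_off {w : ℝ → ℂ} {t : ℝ}
    (ht : t ∉ Kset w) : ∃ b : ℂ, ∀ᶠ u in 𝓝 t, HasDerivAt w b u := by
  have h1 : ∃ η > 0, ∃ a b : ℂ, ∀ u : ℝ, |u - t| < η → w u = a + u • b := by
    by_contra hne
    exact ht hne
  obtain ⟨η, hη, a, b, hab⟩ := h1
  refine ⟨b, ?_⟩
  rw [Metric.eventually_nhds_iff]
  refine ⟨η / 2, half_pos hη, fun v hv => ?_⟩
  rw [Real.dist_eq] at hv
  have h1 : HasDerivAt (fun v : ℝ => a + v • b) b v := by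
    have := ((hasDerivAt_id v).smul_const b).const_add a
    simpa using this
  refine h1.congr_of_eventuallyEq ?_
  filter_upwards [Metric.ball_mem_nhds v (half_pos hη)] with y hy
  rw [Metric.mem_ball, Real.dist_eq] at hy
  refine hab y ?_
  have := abs_sub_le y v t
  linarith

theorem Hyp.differentiableAt {w J : ℝ → ℂ} {α β C : ℝ} (h : Hyp w J α β C) {t : ℝ}
    (hti : t ∈ Ioo α β) : DifferentiableAt ℝ w t := by
  by_cases ht : t ∈ Kset w
  · exact (h.hasDerivAt ht hti).differentiableAt
  · obtain ⟨b, hb⟩ := deriv_off ht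
    exact hb.self_of_nhds.differentiableAt

/-- derivative of an affine piece -/
theorem deriv_affine {w : ℝ → ℂ} {c d : ℝ} {b : ℂ} {z : ℂ} {e : ℝ}
    (hb : ∀ u ∈ Icc c d, w u = z + (u - e) • b) {t : ℝ} (ht : t ∈ Icc c d) (hcd : c < d)
    (hdiff : DifferentiableAt ℝ w t) : deriv w t = b := by
  have h1 : HasDerivWithinAt w b (Icc c d) t := by
    have h2 : HasDerivAt (fun u : ℝ => z + (u - e) • b) b t := by
      have := (((hasDerivAt_id t).sub_const e).smul_const b).const_add z
      simpa using this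
    exact h2.hasDerivWithinAt.congr hb (hb t ht)
  have h2 := hdiff.hasDerivAt.hasDerivWithinAt (s := Icc c d)
  exact (uniqueDiffOn_Icc hcd t ht).eq_deriv _ h2 h1

theorem Hyp.lip {w J : ℝ → ℂ} {α β C : ℝ} (h : Hyp w J α β C) {t t' : ℝ}
    (hti : t ∈ Ioo α β) (hti' : t' ∈ Ioo α β) (htt : t < t') :
    ‖deriv w t' - deriv w t‖ ≤ 2 * C * (t' - t) := by
  have hC := h.C0
  by_cases hne : (Kset w ∩ Icc t t').Nonempty
  · have hcomp : IsCompact (Kset w ∩ Icc t t') := isCompact_Icc.inter_left (Kset_closed w)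
    have haM := hcomp.sSup_mem hne
    have hbM := hcomp.sInf_mem hne
    set a : ℝ := sSup (Kset w ∩ Icc t t') with ha
    set b : ℝ := sInf (Kset w ∩ Icc t t') with hb
    obtain ⟨haK, hat, hat'⟩ := haM
    obtain ⟨hbK, hbt, hbt'⟩ := hbM
    have hai : a ∈ Ioo α β := ⟨lt_of_lt_of_le hti.1 hat, lt_of_le_of_lt hat' hti'.2⟩
    have hbi : b ∈ Ioo α β := ⟨lt_of_lt_of_le hti.1 hbt, lt_of_le_of_lt hbt' hti'.2⟩
    have h1 : deriv w t' = J a := by
      rcases eq_or_lt_of_le hat' with he | hlt
      · rw [← he]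
        exact (h.hasDerivAt haK hai).deriv
      · obtain ⟨c, hc⟩ := gap h.cont hlt (fun u hu huK => by
          have h2 : u ≤ a := le_csSup hcomp.bddAbove ⟨huK, hat.trans hu.1.le, hu.2.le⟩
          exact absurd hu.1 (not_lt.2 h2))
        have hcJ := h.slope_right haK hai hlt hc
        rw [← hcJ]
        exact deriv_affine hc ⟨hlt.le, le_rfl⟩ hlt (h.differentiableAt hti')
    have h2 : deriv w t = J b := by
      rcases eq_or_lt_of_le hbt with he | hlt
      · rw [he]
        exact (h.hasDerivAt hbK hbi).deriv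
      · obtain ⟨c, hc⟩ := gap h.cont hlt (fun u hu huK => by
          have h2 : b ≤ u := csInf_le hcomp.bddBelow ⟨huK, hu.1.le, hu.2.le.trans hbt'⟩
          exact absurd hu.2 (not_lt.2 h2))
        have hc2 : ∀ u ∈ Icc t b, w u = w b + (u - b) • c := by
          intro u hu
          rw [hc u hu, hc b ⟨hlt.le, le_rfl⟩, add_assoc, ← add_smul]
          congr 2
          ring
        have hcJ := h.slope_left hbK hbi hlt hc2
        rw [← hcJ]
        exact deriv_affine hc ⟨le_rfl, hlt.le⟩ hlt (h.differentiableAt hti)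
    rw [h1, h2]
    refine (h.J_lip hbK hbi haK hai).trans ?_
    have h3 : |a - b| ≤ t' - t := by
      rw [abs_le]
      constructor <;> linarith
    have h4 : 0 ≤ 2 * C := by linarith
    exact mul_le_mul_of_nonneg_left h3 h4
  · obtain ⟨c, hc⟩ := gap h.cont htt (fun u hu huK => hne ⟨u, huK, hu.1.le, hu.2.le⟩)
    rw [deriv_affine hc ⟨htt.le, le_rfl⟩ htt (h.differentiableAt hti'),
      deriv_affine hc ⟨le_rfl, htt.le⟩ htt (h.differentiableAt hti), sub_self, norm_zero]
    have : 0 ≤ t' - t := by linarith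
    positivity

/-- the abstract vanishing theorem -/
theorem Hyp.empty {w J : ℝ → ℂ} {α β C : ℝ} (h : Hyp w J α β C)
    (h5 : ∀ᵐ t : ℝ, t ∈ Kset w → t ∈ Ioo α β → ∀ ε > 0, ∀ η > 0,
      ∃ t' ∈ Kset w, t' ∈ Ioo α β ∧ t' ≠ t ∧ |t' - t| < η ∧ ‖J t' - J t‖ ≤ ε * |t' - t|) :
    ∀ t ∈ Ioo α β, t ∉ Kset w := by
  intro t0 ht0 ht0K
  have hC := h.C0
  set c : ℝ := (α + t0) / 2 with hc
  set d : ℝ := (t0 + β) / 2 with hd
  have hc1 : α < c := by rw [hc]; linarith [ht0.1]
  have hc2 : c < t0 := by rw [hc]; linarith [ht0.1]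
  have hd1 : t0 < d := by rw [hd]; linarith [ht0.2]
  have hd2 : d < β := by rw [hd]; linarith [ht0.2]
  have hsub : ∀ u ∈ Icc c d, u ∈ Ioo α β := fun u hu =>
    ⟨lt_of_lt_of_le hc1 hu.1, lt_of_le_of_lt hu.2 hd2⟩
  have hLip : LipschitzOnWith (Real.toNNReal (2 * C)) (deriv w) (Ioo α β) := by
    refine LipschitzOnWith.of_dist_le_mul fun x hx y hy => ?_
    rw [dist_eq_norm, Real.dist_eq, Real.coe_toNNReal _ (by positivity)]
    rcases lt_trichotomy x y with h1 | h1 | h1
    · rw [norm_sub_rev, abs_sub_comm, abs_of_pos (sub_pos.2 h1)]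
      exact h.lip hx hy h1
    · rw [h1]
      simp
    · rw [abs_of_pos (sub_pos.2 h1)]
      exact h.lip hy hx h1
  have hLip2 : LipschitzOnWith (Real.toNNReal (2 * C)) (deriv w) (uIcc c d) := by
    refine hLip.mono ?_
    rw [uIcc_of_le (by linarith)]
    exact fun u hu => hsub u hu
  have hAC := hLip2.absolutelyContinuousOnInterval
  have hder0 : ∀ᵐ x : ℝ, x ∈ uIcc c d → HasDerivAt (deriv w) 0 x := by
    filter_upwards [hLip.ae_differentiableWithinAt_of_mem_real, h5] with x hx1 hx2 hx
    rw [uIcc_of_le (by linarith)] at hx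
    have hxi := hsub x hx
    have hdx : DifferentiableAt ℝ (deriv w) x :=
      (hx1 hxi).differentiableAt (isOpen_Ioo.mem_nhds hxi)
    by_cases hxK : x ∈ Kset w
    · have hz : deriv (deriv w) x = 0 := by
        have h6 := hdx.hasDerivAt
        have key : ∀ ε > 0, ‖deriv (deriv w) x‖ ≤ ε := by
          intro ε hε
          rw [hasDerivAt_iff_isLittleO] at h6
          have h7 := (Asymptotics.isLittleO_iff.1 h6) (half_pos hε)
          rw [Metric.eventually_nhds_iff] at h7
          obtain ⟨η, hη, h8⟩ := h7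
          obtain ⟨t', ht'K, ht'i, hne, hlt, h9⟩ := hx2 hxK hxi (ε / 2) (half_pos hε) η hη
          have h10 := h8 (y := t') (by rwa [Real.dist_eq])
          rw [(h.hasDerivAt ht'K ht'i).deriv, (h.hasDerivAt hxK hxi).deriv,
            Real.norm_eq_abs] at h10
          have hpos : 0 < |t' - x| := abs_pos.2 (sub_ne_zero.2 hne)
          have h11 : |t' - x| * ‖deriv (deriv w) x‖ ≤ |t' - x| * ε := by
            have e1 : (t' - x) • deriv (deriv w) x =
                (J t' - J x) - (J t' - J x - (t' - x) • deriv (deriv w) x) := by ring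
            have h12 := congrArg norm e1
            rw [norm_smul, Real.norm_eq_abs] at h12
            rw [h12]
            refine (norm_sub_le _ _).trans ?_
            linarith
          exact le_of_mul_le_mul_left h11 hpos
        have h0 : ‖deriv (deriv w) x‖ ≤ 0 :=
          le_of_forall_pos_le_add fun ε hε => by simpa using key ε hε
        exact norm_le_zero_iff.1 h0
      rw [← hz]
      exact hdx.hasDerivAt
    · obtain ⟨b, hb⟩ := deriv_off hxK
      refine (hasDerivAt_const x b).congr_of_eventuallyEq ?_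
      filter_upwards [hb] with v hv
      exact hv.deriv
  obtain ⟨L, hL⟩ := hAC.const_of_ae_hasDerivAt_zero hder0
  rw [uIcc_of_le (by linarith)] at hL
  apply ht0K
  have haff : ∀ u ∈ Ioo c d, w u - u • L = w t0 - t0 • L := by
    intro u hu
    have hg : ∀ v ∈ Ioo c d, HasDerivAt (fun v : ℝ => w v - v • L) 0 v := by
      intro v hv
      have h1 : HasDerivAt w L v := by
        rw [← hL v ⟨hv.1.le, hv.2.le⟩]
        exact (h.differentiableAt (hsub v ⟨hv.1.le, hv.2.le⟩)).hasDerivAt
      have h2 : HasDerivAt (fun v : ℝ => v • L) L v := by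
        have := (hasDerivAt_id v).smul_const L
        simpa using this
      have h3 := h1.sub h2
      rw [sub_self] at h3
      exact h3
    refine isOpen_Ioo.is_const_of_deriv_eq_zero (𝕜 := ℝ) (f := fun v : ℝ => w v - v • L)
      isPreconnected_Ioo ?_ ?_ hu ⟨hc2, hd1⟩
    · intro v hv
      exact (hg v hv).differentiableAt.differentiableWithinAt
    · intro v hv
      exact (hg v hv).deriv
  refine ⟨min (t0 - c) (d - t0), lt_min (by linarith) (by linarith), w t0 - t0 • L, L,
    fun u hu => ?_⟩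
  have h1 := lt_of_lt_of_le hu (min_le_left _ _)
  have h2 := lt_of_lt_of_le hu (min_le_right _ _)
  rw [abs_lt] at h1 h2
  have h3 := haff u ⟨by linarith, by linarith⟩
  rw [← h3]
  ring

end Pool.Agent.Helper34.Radon.Bd
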