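import Pool.Agent.Helper34.Radon.Bd.Lim

set_option autoImplicit false

open MeasureTheory Real Complex Filter Topology Set
open scoped FourierTransform ContDiff ENNReal Nat

noncomputable section

namespace Pool.Agent.Helper34.Radon.Bd

/-- remainder of a power series with geometric coefficients -/
theorem tail_bound {c : ℕ → ℂ} {C K q : ℝ} {F : ℂ} (hc : ∀ k, ‖c k‖ ≤ C * K ^ k) (hC : 0 ≤ C)
    (hK : 0 ≤ K) (hq : K * |q| ≤ 1 / 2) (hF : HasSum (fun k => c k * (q : ℂ) ^ k) F) (n : ℕ) :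
    ‖F - ∑ k ∈ Finset.range n, c k * (q : ℂ) ^ k‖ ≤ 2 * C * (K * |q|) ^ n := by
  have h1 := (hasSum_nat_add_iff' n).2 hF
  have hr0 : 0 ≤ K * |q| := by positivity
  have h2 : HasSum (fun j : ℕ => C * (K * |q|) ^ n * (K * |q|) ^ j)
      (C * (K * |q|) ^ n * (1 - K * |q|)⁻¹) :=
    (hasSum_geometric_of_lt_one hr0 (by linarith)).mul_left _
  refine (h1.norm_le_of_bounded h2 fun j => ?_).trans ?_
  · rw [norm_mul, norm_pow, Complex.norm_real, Real.norm_eq_abs]
    calc ‖c (j + n)‖ * |q| ^ (j + n) ≤ (C * K ^ (j + n)) * |q| ^ (j + n) := by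
          gcongr
          exact hc _
      _ = C * (K * |q|) ^ n * (K * |q|) ^ j := by
          rw [mul_assoc, ← mul_pow, pow_add]
          ring
  · have h3 : (1 - K * |q|)⁻¹ ≤ 2 := by
      rw [inv_le_comm₀ (by linarith) (by norm_num)]
      linarith
    calc C * (K * |q|) ^ n * (1 - K * |q|)⁻¹ ≤ C * (K * |q|) ^ n * 2 := by gcongr
      _ = _ := by ring

/-- vanishing power series -/
theorem zero_coeff {c : ℕ → ℂ} {C K : ℝ} (hc : ∀ k, ‖c k‖ ≤ C * K ^ k) (hC : 0 ≤ C)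
    (hK : 0 < K) {ε : ℝ} (hε : 0 < ε)
    (hF : ∀ q : ℝ, |q| < ε → HasSum (fun k => c k * (q : ℂ) ^ k) 0) (n : ℕ) : c n = 0 := by
  induction n using Nat.strong_induction_on with
  | _ n ih =>
    have key : ∀ η > 0, ‖c n‖ ≤ η := by
      intro η hη
      set q : ℝ := min (ε / 2) (min (1 / (2 * K)) (η / (2 * C * K ^ (n + 1) + 1))) with hq
      have hD : 0 < 2 * C * K ^ (n + 1) + 1 := by positivity
      have hq0 : 0 < q := lt_min (half_pos hε) (lt_min (by positivity) (by positivity))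
      have h1 : q < ε := lt_of_le_of_lt (min_le_left _ _) (by linarith)
      have h2 : q ≤ 1 / (2 * K) := (min_le_right _ _).trans (min_le_left _ _)
      have h3 : q ≤ η / (2 * C * K ^ (n + 1) + 1) := (min_le_right _ _).trans (min_le_right _ _)
      have habs : |q| = q := abs_of_pos hq0
      have h4 : K * |q| ≤ 1 / 2 := by
        rw [habs]
        calc K * q ≤ K * (1 / (2 * K)) := by gcongr
          _ = 1 / 2 := by field_simp
      have h5 := tail_bound hc hC hK.le h4 (hF q (by rwa [habs])) (n + 1)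
      rw [Finset.sum_range_succ, Finset.sum_eq_zero (fun k hk => by
        rw [ih k (Finset.mem_range.1 hk), zero_mul]), zero_add, zero_sub, norm_neg, norm_mul,
        norm_pow, Complex.norm_real, Real.norm_eq_abs, habs] at h5
      have h6 : ‖c n‖ * q ^ n ≤ (2 * C * K ^ (n + 1) * q) * q ^ n := by
        calc ‖c n‖ * q ^ n ≤ 2 * C * (K * q) ^ (n + 1) := h5
          _ = _ := by rw [mul_pow]; ring
      have h7 : ‖c n‖ ≤ 2 * C * K ^ (n + 1) * q := le_of_mul_le_mul_right h6 (by positivity)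
      rw [le_div_iff₀ hD] at h3
      have h8 : 0 ≤ 2 * C * K ^ (n + 1) := by positivity
      nlinarith
    have h0 : ‖c n‖ ≤ 0 := le_of_forall_pos_le_add fun η hη => by simpa using key η hη
    exact norm_le_zero_iff.1 h0

/-- functions with uniform Taylor expansions -/
def UT (Θ : ℝ → ℂ) (K C ρ : ℝ) : Prop :=
  ∀ q0 : ℝ, ∃ c : ℕ → ℂ, (∀ k, ‖c k‖ ≤ C * K ^ k) ∧
    ∀ q : ℝ, |q| < ρ → HasSum (fun k => c k * (q : ℂ) ^ k) (Θ (q0 + q))

/-- identity theorem -/
theorem UT.zero {Θ : ℝ → ℂ} {K C ρ : ℝ} (h : UT Θ K C ρ) (hC : 0 ≤ C) (hK : 0 < K) (hρ : 0 < ρ)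
    {c0 ε : ℝ} (hε : 0 < ε) (h0 : ∀ q, |q - c0| < ε → Θ q = 0) (q : ℝ) : Θ q = 0 := by
  set Z : Set ℝ := {q0 | ∀ᶠ q in 𝓝 q0, Θ q = 0} with hZ
  have hopen : IsOpen Z := isOpen_setOfPred_eventually_nhds
  have hclosed : IsClosed Z := by
    rw [← closure_subset_iff_isClosed]
    intro q0 hq0
    rw [Metric.mem_closure_iff] at hq0
    obtain ⟨q1, hq1, hd⟩ := hq0 (ρ / 2) (half_pos hρ)
    obtain ⟨c, hc, hs⟩ := h q1
    have h1 : ∀ᶠ q in 𝓝 q1, Θ q = 0 := hq1
    rw [Metric.eventually_nhds_iff] at h1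
    obtain ⟨η, hη, h2⟩ := h1
    have hcz : ∀ n, c n = 0 := zero_coeff hc hC hK (lt_min hη hρ) (fun q hq => by
      have h3 := hs q (lt_of_lt_of_le hq (min_le_right _ _))
      rwa [h2 (y := q1 + q) (by
        rw [Real.dist_eq, add_sub_cancel_left]
        exact lt_of_lt_of_le hq (min_le_left _ _))] at h3)
    show ∀ᶠ q in 𝓝 q0, Θ q = 0
    rw [Metric.eventually_nhds_iff]
    refine ⟨ρ / 2, half_pos hρ, fun q hq => ?_⟩
    rw [Real.dist_eq] at hq hd
    have h4 : |q - q1| < ρ := by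
      have := abs_sub_le q q0 q1
      linarith
    have h5 := hs (q - q1) h4
    rw [add_sub_cancel] at h5
    simp only [hcz, zero_mul] at h5
    exact h5.unique hasSum_zero
  have hne : Z.Nonempty := by
    refine ⟨c0, ?_⟩
    show ∀ᶠ q in 𝓝 c0, Θ q = 0
    rw [Metric.eventually_nhds_iff]
    exact ⟨ε, hε, fun q hq => h0 q (by rwa [Real.dist_eq] at hq)⟩
  have huniv : Z = univ := IsClopen.eq_univ ⟨hclosed, hopen⟩ hne
  have : q ∈ Z := by rw [huniv]; trivial
  exact (show ∀ᶠ q' in 𝓝 q, Θ q' = 0 from this).self_of_nhds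

/-- uniformly analytic in the first variable -/
def UA (g : ℝ × ℝ → ℂ) (ρ C : ℝ) : Prop :=
  ∀ s : ℝ, ∃ G : ℂ → ℂ, DifferentiableOn ℂ G {z | |z.im| < ρ} ∧
    (∀ z : ℂ, |z.im| < ρ → ‖G z‖ ≤ C) ∧ ∀ x : ℝ, G x = g (x, s)

theorem UA.coeffs {g : ℝ × ℝ → ℂ} (hg : Continuous g) {ρ C : ℝ} (h : UA g ρ C) (hρ : 0 < ρ)
    (hC : 0 ≤ C) :
    ∃ a : ℕ → ℝ × ℝ → ℂ, (∀ n, Measurable (a n)) ∧ (∀ n z, ‖a n z‖ ≤ C * (2 / ρ) ^ n) ∧
      ∀ z : ℝ × ℝ, ∀ q : ℝ, |q| < ρ / 2 →
        HasSum (fun n => a n z * (q : ℂ) ^ n) (g (z.1 + q, z.2)) := by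
  choose G hG1 hG2 hG3 using h
  have hball : ∀ x : ℝ, Metric.closedBall (x : ℂ) (ρ / 2) ⊆ {z : ℂ | |z.im| < ρ} := by
    intro x z hz
    rw [Metric.mem_closedBall, Complex.dist_eq] at hz
    have h1 := Complex.abs_im_le_norm (z - x)
    rw [Complex.sub_im, Complex.ofReal_im, sub_zero] at h1
    show |z.im| < ρ
    linarith
  set a : ℕ → ℝ × ℝ → ℂ := fun n z =>
    ((n ! : ℂ))⁻¹ * iteratedDeriv n (G z.2) (z.1 : ℂ) with ha
  have hb : ∀ n z, ‖a n z‖ ≤ C * (2 / ρ) ^ n := by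
    intro n z
    have h1 : DiffContOnCl ℂ (G z.2) (Metric.ball (z.1 : ℂ) (ρ / 2)) := by
      refine DifferentiableOn.diffContOnCl ((hG1 z.2).mono ?_)
      exact Metric.closure_ball_subset_closedBall.trans (hball z.1)
    have h2 := Complex.norm_iteratedDeriv_le_of_forall_mem_sphere_norm_le n (half_pos hρ) h1
      (C := C) (fun w hw => hG2 z.2 w (hball z.1 (Metric.sphere_subset_closedBall hw)))
    rw [ha]
    simp only
    rw [norm_mul, norm_inv, Complex.norm_natCast]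
    have hf : (0 : ℝ) < (n ! : ℝ) := by exact_mod_cast Nat.factorial_pos n
    rw [inv_mul_le_iff₀ hf]
    refine h2.trans (le_of_eq ?_)
    rw [div_pow, div_pow]
    field_simp
  have hs : ∀ z : ℝ × ℝ, ∀ q : ℝ, |q| < ρ / 2 →
      HasSum (fun n => a n z * (q : ℂ) ^ n) (g (z.1 + q, z.2)) := by
    intro z q hq
    have h1 : DifferentiableOn ℂ (G z.2) (Metric.ball (z.1 : ℂ) (ρ / 2)) :=
      (hG1 z.2).mono (Metric.ball_subset_closedBall.trans (hball z.1))
    have h2 : ((z.1 + q : ℝ) : ℂ) ∈ Metric.ball (z.1 : ℂ) (ρ / 2) := by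
      rw [Metric.mem_ball, Complex.dist_eq, ← Complex.ofReal_sub, add_sub_cancel_left,
        Complex.norm_real, Real.norm_eq_abs]
      exact hq
    have h3 := Complex.hasSum_taylorSeries_on_ball h1 h2
    rw [hG3] at h3
    refine h3.congr_fun fun n => ?_
    rw [ha]
    simp only [smul_eq_mul]
    rw [← Complex.ofReal_sub, add_sub_cancel_left]
    ring
  refine ⟨a, ?_, hb, hs⟩
  intro n
  induction n using Nat.strong_induction_on with
  | _ n ih =>
    set Q : ℕ → ℝ := fun m => ρ / (4 * ((m : ℝ) + 1)) with hQ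
    have hQ0 : ∀ m, 0 < Q m := fun m => by rw [hQ]; positivity
    have hQ1 : ∀ m, Q m ≤ ρ / 4 := by
      intro m
      rw [hQ]
      have : (0 : ℝ) ≤ m := Nat.cast_nonneg m
      refine div_le_div_of_nonneg_left hρ.le (by norm_num) (by linarith)
    have hQt : Tendsto Q atTop (𝓝 0) := by
      have h1 : Q = fun m : ℕ => (ρ / 4) * (1 / ((m : ℝ) + 1)) := by
        funext m
        rw [hQ]
        field_simp
      rw [h1]
      have h2 := (tendsto_one_div_add_atTop_nhds_zero_nat (𝕜 := ℝ)).const_mul (ρ / 4)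
      simpa using h2
    refine measurable_of_tendsto_metrizable (f := fun (m : ℕ) (z : ℝ × ℝ) =>
      (g (z.1 + Q m, z.2) - ∑ k ∈ Finset.range n, a k z * (Q m : ℂ) ^ k) * ((Q m : ℂ) ^ n)⁻¹)
      (fun m => ?_) ?_
    · refine Measurable.mul_const ?_ _
      refine Measurable.sub (hg.measurable.comp (by fun_prop)) ?_
      refine Finset.measurable_sum _ fun k hk => ?_
      exact (ih k (Finset.mem_range.1 hk)).mul_const _
    · rw [tendsto_pi_nhds]
      intro z
      have hbd : ∀ m, ‖(g (z.1 + Q m, z.2) - ∑ k ∈ Finset.range n, a k z * (Q m : ℂ) ^ k) *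
          ((Q m : ℂ) ^ n)⁻¹ - a n z‖ ≤ 2 * C * (2 / ρ) ^ (n + 1) * Q m := by
        intro m
        have hab : |Q m| = Q m := abs_of_pos (hQ0 m)
        have h1 : 2 / ρ * |Q m| ≤ 1 / 2 := by
          rw [hab]
          calc 2 / ρ * Q m ≤ 2 / ρ * (ρ / 4) := by
                gcongr
                exact hQ1 m
            _ = 1 / 2 := by field_simp; norm_num
        have h2 := tail_bound (fun k => hb k z) hC (by positivity) h1
          (hs z (Q m) (by rw [hab]; linarith [hQ1 m])) (n + 1)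
        rw [Finset.sum_range_succ, ← sub_sub] at h2
        have hQn : (Q m : ℂ) ^ n ≠ 0 := pow_ne_zero _ (by exact_mod_cast (hQ0 m).ne')
        have e1 : (g (z.1 + Q m, z.2) - ∑ k ∈ Finset.range n, a k z * (Q m : ℂ) ^ k) *
            ((Q m : ℂ) ^ n)⁻¹ - a n z =
            (g (z.1 + Q m, z.2) - ∑ k ∈ Finset.range n, a k z * (Q m : ℂ) ^ k -
              a n z * (Q m : ℂ) ^ n) * ((Q m : ℂ) ^ n)⁻¹ := by
          field_simp
        rw [e1, norm_mul, norm_inv, norm_pow, Complex.norm_real, Real.norm_eq_abs, hab]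
        rw [hab] at h2
        have hp : 0 < Q m ^ n := pow_pos (hQ0 m) n
        rw [mul_inv_le_iff₀ hp]
        refine h2.trans (le_of_eq ?_)
        rw [mul_pow, pow_succ (Q m)]
        ring
      rw [tendsto_iff_norm_sub_tendsto_zero]
      refine squeeze_zero (fun m => norm_nonneg _) hbd ?_
      have := hQt.const_mul (2 * C * (2 / ρ) ^ (n + 1))
      simpa using this

/-- integrals of translates have uniform Taylor expansions -/
theorem UA.integral {g : ℝ × ℝ → ℂ} (hg : Continuous g) {ρ C : ℝ} (h : UA g ρ C) (hρ : 0 < ρ)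
    (hC : 0 ≤ C) {k : ℝ × ℝ → ℂ} (hk : Integrable k) :
    UT (fun q : ℝ => ∫ z : ℝ × ℝ, g (z.1 + q, z.2) * k z) (2 / ρ) (C * ∫ z, ‖k z‖) (ρ / 2) := by
  obtain ⟨a, ha, hb, hs⟩ := h.coeffs hg hρ hC
  have hint : ∀ (q0 : ℝ) (n : ℕ), Integrable (fun z : ℝ × ℝ => a n (z.1 + q0, z.2) * k z) := by
    intro q0 n
    refine (hk.norm.const_mul (C * (2 / ρ) ^ n)).mono' ?_ (Eventually.of_forall fun z => ?_)
    · exact ((ha n).comp (by fun_prop)).aestronglyMeasurable.mul hk.aestronglyMeasurable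
    · rw [norm_mul]
      exact mul_le_mul_of_nonneg_right (hb n _) (norm_nonneg _)
  have hnb : ∀ (q0 : ℝ) (n : ℕ), ∫ z : ℝ × ℝ, ‖a n (z.1 + q0, z.2) * k z‖ ≤
      C * (2 / ρ) ^ n * ∫ z, ‖k z‖ := by
    intro q0 n
    rw [← integral_const_mul]
    refine integral_mono (hint q0 n).norm (hk.norm.const_mul _) fun z => ?_
    simp only
    rw [norm_mul]
    exact mul_le_mul_of_nonneg_right (hb n _) (norm_nonneg _)
  intro q0
  refine ⟨fun n => ∫ z : ℝ × ℝ, a n (z.1 + q0, z.2) * k z, fun n => ?_, fun q hq => ?_⟩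
  · refine (norm_integral_le_integral_norm _).trans ((hnb q0 n).trans (le_of_eq ?_))
    ring
  · have hr : 2 / ρ * |q| < 1 := by
      rw [div_mul_eq_mul_div, div_lt_one hρ]
      linarith
    have h1 : ∀ n : ℕ, Integrable (fun z : ℝ × ℝ => a n (z.1 + q0, z.2) * k z * (q : ℂ) ^ n) :=
      fun n => (hint q0 n).mul_const _
    have h2 : Summable fun n : ℕ => ∫ z : ℝ × ℝ, ‖a n (z.1 + q0, z.2) * k z * (q : ℂ) ^ n‖ := by
      have hgeo : Summable fun n : ℕ => (C * ∫ z, ‖k z‖) * (2 / ρ * |q|) ^ n :=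
        (summable_geometric_of_lt_one (by positivity) hr).mul_left _
      refine hgeo.of_nonneg_of_le (fun n => integral_nonneg fun _ => norm_nonneg _) fun n => ?_
      have e1 : ∫ z : ℝ × ℝ, ‖a n (z.1 + q0, z.2) * k z * (q : ℂ) ^ n‖ =
          (∫ z : ℝ × ℝ, ‖a n (z.1 + q0, z.2) * k z‖) * |q| ^ n := by
        rw [← integral_mul_const]
        refine integral_congr_ae (Eventually.of_forall fun z => ?_)
        simp only
        rw [norm_mul, norm_pow, Complex.norm_real, Real.norm_eq_abs]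
      rw [e1]
      calc (∫ z : ℝ × ℝ, ‖a n (z.1 + q0, z.2) * k z‖) * |q| ^ n
          ≤ (C * (2 / ρ) ^ n * ∫ z, ‖k z‖) * |q| ^ n := by
            gcongr
            exact hnb q0 n
        _ = _ := by rw [mul_pow]; ring
    have h3 := hasSum_integral_of_summable_integral_norm h1 h2
    have h4 : ∀ z : ℝ × ℝ, ∑' n : ℕ, a n (z.1 + q0, z.2) * k z * (q : ℂ) ^ n =
        g (z.1 + (q0 + q), z.2) * k z := by
      intro z
      have h5 := (hs (z.1 + q0, z.2) q hq).mul_right (k z)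
      simp only at h5
      rw [add_assoc] at h5
      rw [← h5.tsum_eq]
      refine tsum_congr fun n => ?_
      ring
    simp_rw [h4] at h3
    refine h3.congr_fun fun n => ?_
    rw [integral_mul_const]

end Pool.Agent.Helper34.Radon.Bd
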