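import Pool.Agent.Helper34.Radon.Bd.Final

/-! Injectivity of the Radon transform in the plane for bounded continuous functions which are
real analytic in one direction, without any condition on the norms on parallel lines. -/

set_option autoImplicit false

open MeasureTheory

namespace Pool.Agent.Helper34.Radon.Bd.AnalyticDirection

theorem result (f : ℝ × ℝ → ℝ) (hf : Continuous f) (hb : ∃ C : ℝ, ∀ x, |f x| ≤ C)
    (hline : ∀ θ : ℝ, ∀ᵐ p : ℝ, Integrable (fun t : ℝ =>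
      f (p * Real.cos θ - t * Real.sin θ, p * Real.sin θ + t * Real.cos θ)))
    (hall : {θ : ℝ | ¬ ∀ p : ℝ, Integrable (fun t : ℝ =>
      f (p * Real.cos θ - t * Real.sin θ, p * Real.sin θ + t * Real.cos θ))}.Countable)
    (hRadon : ∀ᵐ θ : ℝ, ∀ᵐ p : ℝ,
      ∫ t : ℝ, f (p * Real.cos θ - t * Real.sin θ, p * Real.sin θ + t * Real.cos θ) = 0)
    (θ₀ ρ C : ℝ) (hρ : 0 < ρ)
    (hana : ∀ s : ℝ, ∃ G : ℂ → ℂ, DifferentiableOn ℂ G {z : ℂ | |z.im| < ρ} ∧
      (∀ z : ℂ, |z.im| < ρ → ‖G z‖ ≤ C) ∧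
      ∀ x : ℝ, G x =
        (f (x * Real.cos θ₀ - s * Real.sin θ₀, x * Real.sin θ₀ + s * Real.cos θ₀) : ℝ)) :
    f = 0 :=
  Pool.Agent.Helper34.Radon.Bd.angle_ana_rot f hf hb hline hall hRadon θ₀ hρ hana

end Pool.Agent.Helper34.Radon.Bd.AnalyticDirection
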