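import Pool.Agent.Helper34.Radon.Bd.Q

set_option autoImplicit false

open MeasureTheory Real Complex Filter Topology Set
open scoped FourierTransform ContDiff ENNReal

noncomputable section

namespace Pool.Agent.Helper34.Radon.Bd

/-- compactly supported kernels with three bounded derivatives -/
structure Kc (P B : ℝ) (φ φ1 φ2 φ3 : ℝ → ℂ) : Prop extends Kd B φ φ1 φ2 where
  d3 : ∀ u, HasDerivAt φ2 (φ3 u) u
  b3 : ∀ u, ‖φ3 u‖ ≤ B
  s0 : ∀ u, P < |u| → φ u = 0
  s1 : ∀ u, P < |u| → φ1 u = 0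
  s2 : ∀ u, P < |u| → φ2 u = 0

theorem Kd.n0 {B : ℝ} {ψ ψ1 ψ2 : ℝ → ℂ} (h : Kd B ψ ψ1 ψ2) (u : ℝ) : ‖ψ u‖ ≤ B := by
  have h1 := h.b0 u
  nlinarith [sq_nonneg u, norm_nonneg (ψ u), mul_nonneg (sq_nonneg u) (norm_nonneg (ψ u))]

theorem Kd.n1 {B : ℝ} {ψ ψ1 ψ2 : ℝ → ℂ} (h : Kd B ψ ψ1 ψ2) (u : ℝ) : ‖ψ1 u‖ ≤ B := by
  have h1 := h.b1 u
  nlinarith [sq_nonneg u, norm_nonneg (ψ1 u), mul_nonneg (sq_nonneg u) (norm_nonneg (ψ1 u))]

theorem Kd.n2 {B : ℝ} {ψ ψ1 ψ2 : ℝ → ℂ} (h : Kd B ψ ψ1 ψ2) (u : ℝ) : ‖ψ2 u‖ ≤ B := by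
  have h1 := h.b2 u
  nlinarith [sq_nonneg u, norm_nonneg (ψ2 u), mul_nonneg (sq_nonneg u) (norm_nonneg (ψ2 u))]

theorem mvt {ψ1 ψ2 : ℝ → ℂ} (d2 : ∀ u, HasDerivAt ψ1 (ψ2 u) u) {a v C : ℝ}
    (hC : ∀ u, |u - a| ≤ |v| → ‖ψ2 u‖ ≤ C) : ‖ψ1 (a + v) - ψ1 a‖ ≤ C * |v| := by
  have hconv : Convex ℝ (Metric.closedBall a |v|) := convex_closedBall a |v|
  have ha : a ∈ Metric.closedBall a |v| := Metric.mem_closedBall_self (abs_nonneg v)
  have hav : a + v ∈ Metric.closedBall a |v| := by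
    rw [Metric.mem_closedBall, Real.dist_eq]
    simp
  have := hconv.norm_image_sub_le_of_norm_hasDerivWithin_le (f := ψ1) (f' := ψ2) (C := C)
    (fun x _ => (d2 x).hasDerivWithinAt) (fun x hx => hC x (by
      rwa [Metric.mem_closedBall, Real.dist_eq] at hx)) ha hav
  rwa [add_sub_cancel_left, Real.norm_eq_abs] at this

/-- open strip -/
def St (r t : ℝ) : Set (ℝ × ℝ) := {z | |z.1 + t * z.2| < r}

/-- tail of an open strip -/
def Tl (r t R : ℝ) : Set (ℝ × ℝ) := {z | |z.1 + t * z.2| < r ∧ R < |z.2|}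

theorem St_open (r t : ℝ) : IsOpen (St r t) :=
  isOpen_lt (f := fun z : ℝ × ℝ => |z.1 + t * z.2|) (by fun_prop) continuous_const

theorem Tl_open (r t R : ℝ) : IsOpen (Tl r t R) :=
  (St_open r t).inter (isOpen_lt (f := fun _ : ℝ × ℝ => R) (g := fun z : ℝ × ℝ => |z.2|)
    continuous_const (by fun_prop))

theorem Tl_subset (r t R : ℝ) : Tl r t R ⊆ St r t := fun _ hz => hz.1

/-- mass in a strip -/
def Na (g : ℝ × ℝ → ℂ) (r t : ℝ) : ℝ := ∫ z in St r t, ‖g z‖

/-- mass in the tail of a strip -/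
def Ta (g : ℝ × ℝ → ℂ) (r t R : ℝ) : ℝ := ∫ z in Tl r t R, ‖g z‖

/-- derivative of the regularised kernel -/
def dq (φ1 : ℝ → ℂ) (t : ℝ) (z : ℝ × ℝ) : ℂ :=
  (z.2⁻¹ : ℝ) • (φ1 (z.1 + t * z.2) - if |z.2| < 1 then φ1 z.1 else 0)

theorem dq_meas {φ1 : ℝ → ℂ} (h1 : Continuous φ1) (t : ℝ) : Measurable (dq φ1 t) := by
  unfold dq
  have e0 : Measurable (fun z : ℝ × ℝ => (z.2⁻¹ : ℝ)) := by fun_prop
  refine e0.smul ?_
  refine Measurable.sub (Continuous.measurable (by fun_prop)) ?_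
  refine Measurable.ite ?_ ?_ measurable_const
  · exact measurableSet_lt (by fun_prop) measurable_const
  · refine Continuous.measurable ?_
    fun_prop

theorem dq_bound {P B : ℝ} {φ φ1 φ2 φ3 : ℝ → ℂ} (h : Kc P B φ φ1 φ2 φ3) {δ : ℝ} (hδ : 0 < δ)
    (t : ℝ) (z : ℝ × ℝ) :
    ‖dq φ1 t z‖ ≤ 4 * B * |t| * (1 + t ^ 2) * W 0 z + (St (P + δ) t).indicator (fun _ => B) z := by
  obtain ⟨x, s⟩ := z
  have hB := h.B0
  have hi : 0 ≤ (St (P + δ) t).indicator (fun _ => B) (x, s) :=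
    indicator_nonneg (fun _ _ => hB) _
  have hWn := W_nonneg 0 (x, s)
  unfold dq
  simp only
  rcases eq_or_ne s 0 with hs0 | hs0
  · subst hs0
    simp only [inv_zero, zero_smul, norm_zero]
    positivity
  have hsp : 0 < |s| := abs_pos.2 hs0
  rw [norm_smul, norm_inv, Real.norm_eq_abs]
  by_cases hs : |s| < 1
  · rw [if_pos hs]
    have h1 : ‖φ1 (x + t * s) - φ1 x‖ ≤ (B * (2 * (1 + t ^ 2) / (1 + x ^ 2))) * |t * s| := by
      refine mvt h.d2 fun u hu => ?_
      have h2 := h.b2 u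
      have h3 := peetre x (u - x)
      have h4 : (u - x) ^ 2 ≤ t ^ 2 := by
        rw [← sq_abs (u - x), ← sq_abs t]
        refine pow_le_pow_left₀ (abs_nonneg _) (hu.trans ?_) 2
        rw [abs_mul]
        calc |t| * |s| ≤ |t| * 1 := by gcongr
          _ = |t| := mul_one _
      have h5 : x + (u - x) = u := by ring
      rw [h5] at h3
      have h6 : 1 + x ^ 2 ≤ 2 * (1 + t ^ 2) * (1 + u ^ 2) := by
        refine h3.trans ?_
        gcongr
      have h7 : ‖φ2 u‖ ≤ B / (1 + u ^ 2) := by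
        rw [le_div_iff₀ (by positivity)]
        linarith
      refine h7.trans ?_
      rw [div_eq_mul_inv]
      refine mul_le_mul_of_nonneg_left ?_ hB
      rw [le_div_iff₀ (by positivity), inv_mul_le_iff₀ (by positivity)]
      linarith
    have hs1 : s ^ 2 ≤ 1 := by
      rw [← sq_abs]
      exact pow_le_one₀ (abs_nonneg s) hs.le
    have h2 : (1 : ℝ) ≤ 2 * (1 + s ^ 2)⁻¹ := by
      rw [← div_eq_mul_inv, le_div_iff₀ (by positivity)]
      linarith
    calc |s|⁻¹ * ‖φ1 (x + t * s) - φ1 x‖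
        ≤ |s|⁻¹ * ((B * (2 * (1 + t ^ 2) / (1 + x ^ 2))) * |t * s|) := by gcongr
      _ = 2 * B * |t| * (1 + t ^ 2) * (1 + x ^ 2)⁻¹ * 1 := by
          rw [abs_mul]
          field_simp
      _ ≤ 2 * B * |t| * (1 + t ^ 2) * (1 + x ^ 2)⁻¹ * (2 * (1 + s ^ 2)⁻¹) := by gcongr
      _ = 4 * B * |t| * (1 + t ^ 2) * W 0 (x, s) := by
          unfold W
          simp only [zero_mul, add_zero]
          ring
      _ ≤ _ := by linarith
  · rw [if_neg hs, sub_zero]
    push Not at hs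
    have h1 : ‖φ1 (x + t * s)‖ ≤ (St (P + δ) t).indicator (fun _ => B) (x, s) := by
      by_cases hz : (x, s) ∈ St (P + δ) t
      · rw [indicator_of_mem hz]
        exact h.n1 _
      · rw [indicator_of_notMem hz]
        have h2 : P + δ ≤ |x + t * s| := by
          by_contra hlt
          exact hz (not_le.1 hlt)
        rw [h.s1 _ (by linarith), norm_zero]
    have h2 : |s|⁻¹ ≤ 1 := inv_le_one_of_one_le₀ hs
    have h3 : 0 ≤ 4 * B * |t| * (1 + t ^ 2) * W 0 (x, s) := by positivity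
    calc |s|⁻¹ * ‖φ1 (x + t * s)‖ ≤ 1 * (St (P + δ) t).indicator (fun _ => B) (x, s) := by
          gcongr
      _ ≤ _ := by linarith

/-- the candidate for the derivative -/
def J (g : ℝ × ℝ → ℂ) (φ1 : ℝ → ℂ) (t : ℝ) : ℂ := ∫ z : ℝ × ℝ, g z * dq φ1 t z

theorem gdq_int {g : ℝ × ℝ → ℂ} {M : ℝ} (hg : Bdd g M) {P B : ℝ} {φ φ1 φ2 φ3 : ℝ → ℂ}
    (h : Kc P B φ φ1 φ2 φ3) {δ : ℝ} (hδ : 0 < δ) {t : ℝ}
    (ht : IntegrableOn g (St (P + δ) t)) : Integrable (fun z => g z * dq φ1 t z) := by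
  have hB := h.B0
  have hi : Integrable ((St (P + δ) t).indicator (fun z => ‖g z‖)) :=
    (IntegrableOn.integrable_indicator ht.norm (St_open _ _).measurableSet)
  refine (((W_int 0).const_mul (M * (4 * B * |t| * (1 + t ^ 2)))).add (hi.const_mul B)).mono' ?_
    (Eventually.of_forall fun z => ?_)
  · exact (hg.cont.measurable.mul (dq_meas h.c1 t)).aestronglyMeasurable
  · rw [norm_mul]
    have h1 := dq_bound h hδ t z
    have h2 := hg.bd z
    have h3 := W_nonneg 0 z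
    calc ‖g z‖ * ‖dq φ1 t z‖
        ≤ ‖g z‖ * (4 * B * |t| * (1 + t ^ 2) * W 0 z +
          (St (P + δ) t).indicator (fun _ => B) z) := by gcongr
      _ = ‖g z‖ * (4 * B * |t| * (1 + t ^ 2) * W 0 z) +
          B * (St (P + δ) t).indicator (fun z => ‖g z‖) z := by
          rw [mul_add]
          congr 1
          by_cases hz : z ∈ St (P + δ) t
          · rw [indicator_of_mem hz, indicator_of_mem hz]
            ring
          · rw [indicator_of_notMem hz, indicator_of_notMem hz]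
            ring
      _ ≤ M * (4 * B * |t| * (1 + t ^ 2) * W 0 z) +
          B * (St (P + δ) t).indicator (fun z => ‖g z‖) z := by gcongr
      _ = _ := by
          simp only [Pi.add_apply]
          ring

/-- the Taylor remainder -/
theorem rem_bound {P B : ℝ} {φ φ1 φ2 φ3 : ℝ → ℂ} (h : Kc P B φ φ1 φ2 φ3) {δ : ℝ} (hδ : 0 < δ)
    (t t' : ℝ) (z : ℝ × ℝ) :
    ‖q φ φ1 t' z - q φ φ1 t z - (t' - t) • dq φ1 t z‖ ≤
      B * (1 + δ⁻¹ + (δ⁻¹) ^ 2) * (t' - t) ^ 2 *
        ((St (P + δ) t).indicator (fun _ => 1) z + (St (P + δ) t').indicator (fun _ => 1) z) := by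
  obtain ⟨x, s⟩ := z
  have hB := h.B0
  have hi : ∀ r : ℝ, 0 ≤ (St (P + δ) r).indicator (fun _ => (1 : ℝ)) (x, s) := fun r =>
    indicator_nonneg (fun _ _ => zero_le_one) _
  set I1 : ℝ := (St (P + δ) t).indicator (fun _ => 1) (x, s) with hI1
  set I2 : ℝ := (St (P + δ) t').indicator (fun _ => 1) (x, s) with hI2
  have hI10 : 0 ≤ I1 := hi t
  have hI20 : 0 ≤ I2 := hi t'
  rcases eq_or_ne s 0 with hs0 | hs0
  · subst hs0
    unfold q dq
    simp only [ne_eq, OfNat.ofNat_ne_zero, not_false_eq_true, zero_pow, inv_zero, zero_smul,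
      smul_zero, sub_zero, norm_zero]
    positivity
  have hs2 : 0 < s ^ 2 := by positivity
  have hsp : 0 < |s| := abs_pos.2 hs0
  have hsC : (s : ℂ) ≠ 0 := by exact_mod_cast hs0
  have e1 : q φ φ1 t' (x, s) - q φ φ1 t (x, s) - (t' - t) • dq φ1 t (x, s) =
      ((s ^ 2)⁻¹ : ℝ) • (φ (x + t' * s) - φ (x + t * s) - ((t' - t) * s) • φ1 (x + t * s)) := by
    unfold q dq
    simp only [Complex.real_smul]
    push_cast
    by_cases hs : |s| < 1
    · simp only [if_pos hs]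
      field_simp
      ring
    · simp only [if_neg hs]
      field_simp
      ring
  rw [e1, norm_smul, Real.norm_of_nonneg (by positivity)]
  have hx' : x + t' * s = (x + t * s) + (t' - t) * s := by ring
  rcases lt_or_ge |(t' - t) * s| δ with hc | hc
  · by_cases hz : (x, s) ∈ St (P + δ) t
    · have h1 : ‖φ (x + t * s + (t' - t) * s) - φ (x + t * s) - ((t' - t) * s) • φ1 (x + t * s)‖ ≤
          B * ((t' - t) * s) ^ 2 := taylor h.d1 h.d2 fun u _ => h.n2 u
      rw [hx']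
      have hI : I1 = 1 := indicator_of_mem hz _
      have h2 : 0 ≤ δ⁻¹ := by positivity
      calc (s ^ 2)⁻¹ *
            ‖φ (x + t * s + (t' - t) * s) - φ (x + t * s) - ((t' - t) * s) • φ1 (x + t * s)‖
          ≤ (s ^ 2)⁻¹ * (B * ((t' - t) * s) ^ 2) := by gcongr
        _ = B * 1 * (t' - t) ^ 2 * (1 + 0) := by
            field_simp
            ring
        _ ≤ B * (1 + δ⁻¹ + (δ⁻¹) ^ 2) * (t' - t) ^ 2 * (I1 + I2) := by
            rw [hI]
            have h3 : 0 ≤ δ⁻¹ + (δ⁻¹) ^ 2 := by positivity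
            gcongr
            linarith
    · have h2 : P + δ ≤ |x + t * s| := by
        by_contra hlt
        exact hz (not_le.1 hlt)
      have h3 : P < |x + t' * s| := by
        have h4 := abs_sub_abs_le_abs_sub (x + t * s) (x + t' * s)
        have h5 : |x + t * s - (x + t' * s)| = |(t' - t) * s| := by
          rw [← abs_neg]
          congr 1
          ring
        rw [h5] at h4
        linarith
      rw [h.s0 _ h3, h.s0 (x + t * s) (by linarith), h.s1 (x + t * s) (by linarith)]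
      simp only [sub_zero, smul_zero, norm_zero, mul_zero]
      positivity
  · have hn0 : ∀ r : ℝ, ∀ ψ : ℝ → ℂ, (∀ u, ‖ψ u‖ ≤ B) → (∀ u, P < |u| → ψ u = 0) →
        ‖ψ (x + r * s)‖ ≤ B * (St (P + δ) r).indicator (fun _ => (1 : ℝ)) (x, s) := by
      intro r ψ hψ hs
      by_cases hz : (x, s) ∈ St (P + δ) r
      · rw [indicator_of_mem hz, mul_one]
        exact hψ _
      · rw [indicator_of_notMem hz]
        have h2 : P + δ ≤ |x + r * s| := by
          by_contra hlt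
          exact hz (not_le.1 hlt)
        rw [hs _ (by linarith), norm_zero, mul_zero]
    have a1 := hn0 t' φ h.n0 h.s0
    have a2 := hn0 t φ h.n0 h.s0
    have a3 := hn0 t φ1 h.n1 h.s1
    rw [← hI1] at a2 a3
    rw [← hI2] at a1
    rw [abs_mul] at hc
    have hr : |s|⁻¹ ≤ |t' - t| * δ⁻¹ := by
      rw [← div_eq_mul_inv, inv_le_iff_one_le_mul₀ hsp, div_mul_eq_mul_div,
        one_le_div hδ]
      exact hc
    have hr2 : (s ^ 2)⁻¹ ≤ (t' - t) ^ 2 * (δ⁻¹) ^ 2 := by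
      have h3 : (s ^ 2)⁻¹ = (|s|⁻¹) ^ 2 := by rw [inv_pow, sq_abs]
      have h4 : (t' - t) ^ 2 * (δ⁻¹) ^ 2 = (|t' - t| * δ⁻¹) ^ 2 := by rw [mul_pow, sq_abs]
      rw [h3, h4]
      exact pow_le_pow_left₀ (by positivity) hr 2
    have h5 : ‖φ (x + t' * s) - φ (x + t * s) - ((t' - t) * s) • φ1 (x + t * s)‖ ≤
        B * I2 + B * I1 + |t' - t| * |s| * (B * I1) := by
      refine (norm_sub_le _ _).trans (add_le_add ((norm_sub_le _ _).trans (add_le_add a1 a2)) ?_)
      rw [norm_smul, Real.norm_eq_abs, abs_mul]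
      gcongr
    calc (s ^ 2)⁻¹ * ‖φ (x + t' * s) - φ (x + t * s) - ((t' - t) * s) • φ1 (x + t * s)‖
        ≤ (s ^ 2)⁻¹ * (B * I2 + B * I1 + |t' - t| * |s| * (B * I1)) := by gcongr
      _ = (s ^ 2)⁻¹ * (B * I2 + B * I1) + |s|⁻¹ * (|t' - t| * (B * I1)) := by
          rw [← sq_abs s]
          field_simp
      _ ≤ ((t' - t) ^ 2 * (δ⁻¹) ^ 2) * (B * I2 + B * I1) +
          (|t' - t| * δ⁻¹) * (|t' - t| * (B * I1)) := by gcongr
      _ = B * (δ⁻¹) ^ 2 * (t' - t) ^ 2 * (I1 + I2) + B * δ⁻¹ * (t' - t) ^ 2 * I1 := by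
          rw [← sq_abs (t' - t)]
          ring
      _ ≤ B * (δ⁻¹) ^ 2 * (t' - t) ^ 2 * (I1 + I2) + B * δ⁻¹ * (t' - t) ^ 2 * (I1 + I2) +
          B * 1 * (t' - t) ^ 2 * (I1 + I2) := by
          have h6 : B * δ⁻¹ * (t' - t) ^ 2 * I1 ≤ B * δ⁻¹ * (t' - t) ^ 2 * (I1 + I2) := by
            gcongr
            linarith
          have h7 : 0 ≤ B * 1 * (t' - t) ^ 2 * (I1 + I2) := by positivity
          linarith
      _ = _ := by ring

theorem ind_int {g : ℝ × ℝ → ℂ} {r t : ℝ} (ht : IntegrableOn g (St r t)) :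
    Integrable (fun z => ‖g z‖ * (St r t).indicator (fun _ => (1 : ℝ)) z) ∧
      ∫ z, ‖g z‖ * (St r t).indicator (fun _ => (1 : ℝ)) z = Na g r t := by
  have e1 : (fun z => ‖g z‖ * (St r t).indicator (fun _ => (1 : ℝ)) z) =
      (St r t).indicator (fun z => ‖g z‖) := by
    funext z
    by_cases hz : z ∈ St r t
    · rw [indicator_of_mem hz, indicator_of_mem hz, mul_one]
    · rw [indicator_of_notMem hz, indicator_of_notMem hz, mul_zero]
  constructor
  · rw [e1]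
    exact IntegrableOn.integrable_indicator ht.norm (St_open _ _).measurableSet
  · rw [e1, integral_indicator (St_open _ _).measurableSet]
    rfl

theorem tail_int {g : ℝ × ℝ → ℂ} {r t : ℝ} (R : ℝ) (ht : IntegrableOn g (St r t)) :
    Integrable (fun z => ‖g z‖ * (Tl r t R).indicator (fun _ => (1 : ℝ)) z) ∧
      ∫ z, ‖g z‖ * (Tl r t R).indicator (fun _ => (1 : ℝ)) z = Ta g r t R := by
  have e1 : (fun z => ‖g z‖ * (Tl r t R).indicator (fun _ => (1 : ℝ)) z) =
      (Tl r t R).indicator (fun z => ‖g z‖) := by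
    funext z
    by_cases hz : z ∈ Tl r t R
    · rw [indicator_of_mem hz, indicator_of_mem hz, mul_one]
    · rw [indicator_of_notMem hz, indicator_of_notMem hz, mul_zero]
  constructor
  · rw [e1]
    exact IntegrableOn.integrable_indicator (IntegrableOn.mono_set ht.norm (Tl_subset _ _ _))
      (Tl_open _ _ _).measurableSet
  · rw [e1, integral_indicator (Tl_open _ _ _).measurableSet]
    rfl

/-- quadratic estimate between good directions -/
theorem quad {g : ℝ × ℝ → ℂ} {M : ℝ} (hg : Bdd g M) {P B : ℝ} {φ φ1 φ2 φ3 : ℝ → ℂ}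
    (h : Kc P B φ φ1 φ2 φ3) {δ : ℝ} (hδ : 0 < δ) {t t' : ℝ}
    (ht : IntegrableOn g (St (P + δ) t)) (ht' : IntegrableOn g (St (P + δ) t')) :
    ‖w g φ φ1 t' - w g φ φ1 t - (t' - t) • J g φ1 t‖ ≤
      B * (1 + δ⁻¹ + (δ⁻¹) ^ 2) * (t' - t) ^ 2 * (Na g (P + δ) t + Na g (P + δ) t') := by
  have i1 := gq_int hg h.toKd t'
  have i2 := gq_int hg h.toKd t
  have i3 : Integrable (fun z => (t' - t) • (g z * dq φ1 t z)) :=
    (gdq_int hg h hδ ht).smul (t' - t)
  have i12 : Integrable (fun z => g z * q φ φ1 t' z - g z * q φ φ1 t z) := i1.sub i2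
  have e1 : w g φ φ1 t' - w g φ φ1 t - (t' - t) • J g φ1 t =
      ∫ z, g z * (q φ φ1 t' z - q φ φ1 t z - (t' - t) • dq φ1 t z) := by
    unfold w J
    rw [← integral_sub i1 i2, ← integral_smul, ← integral_sub i12 i3]
    refine integral_congr_ae (Eventually.of_forall fun z => ?_)
    simp only [Complex.real_smul]
    ring
  rw [e1]
  obtain ⟨j1, k1⟩ := ind_int ht
  obtain ⟨j2, k2⟩ := ind_int ht'
  set C : ℝ := B * (1 + δ⁻¹ + (δ⁻¹) ^ 2) * (t' - t) ^ 2 with hC
  have h1 : ∫ z, C * (‖g z‖ * (St (P + δ) t).indicator (fun _ => (1 : ℝ)) z +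
      ‖g z‖ * (St (P + δ) t').indicator (fun _ => (1 : ℝ)) z) =
      C * (Na g (P + δ) t + Na g (P + δ) t') := by
    rw [integral_const_mul, integral_add j1 j2, k1, k2]
  have j12 : Integrable (fun z => C * (‖g z‖ * (St (P + δ) t).indicator (fun _ => (1 : ℝ)) z +
      ‖g z‖ * (St (P + δ) t').indicator (fun _ => (1 : ℝ)) z)) := (j1.add j2).const_mul C
  rw [← h1]
  refine norm_integral_le_of_norm_le j12 (Eventually.of_forall fun z => ?_)
  rw [norm_mul]
  have h2 := rem_bound h hδ t t' z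
  rw [← hC] at h2
  calc ‖g z‖ * ‖q φ φ1 t' z - q φ φ1 t z - (t' - t) • dq φ1 t z‖
      ≤ ‖g z‖ * (C * ((St (P + δ) t).indicator (fun _ => 1) z +
        (St (P + δ) t').indicator (fun _ => 1) z)) := by gcongr
    _ = _ := by ring

/-- remainder of the derivative -/
theorem rem2_bound {P B : ℝ} {φ φ1 φ2 φ3 : ℝ → ℂ} (h : Kc P B φ φ1 φ2 φ3) {δ : ℝ} (hδ : 0 < δ)
    {R : ℝ} (hR : 0 ≤ R) {t t' : ℝ} (hRt : |t' - t| * R < δ) (z : ℝ × ℝ) (hz0 : z.2 ≠ 0) :
    ‖dq φ1 t' z - dq φ1 t z - (t' - t) • φ2 (z.1 + t * z.2)‖ ≤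
      (B * R * (t' - t) ^ 2) * (St (P + δ) t).indicator (fun _ => 1) z +
      (B * (2 + δ⁻¹) * |t' - t|) * ((Tl (P + δ) t R).indicator (fun _ => 1) z +
        (Tl (P + δ) t' R).indicator (fun _ => 1) z) := by
  obtain ⟨x, s⟩ := z
  have hB := h.B0
  simp only at hz0
  have hsp : 0 < |s| := abs_pos.2 hz0
  have hsC : (s : ℂ) ≠ 0 := by exact_mod_cast hz0
  set I0 : ℝ := (St (P + δ) t).indicator (fun _ => 1) (x, s) with hI0
  set I1 : ℝ := (Tl (P + δ) t R).indicator (fun _ => 1) (x, s) with hI1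
  set I2 : ℝ := (Tl (P + δ) t' R).indicator (fun _ => 1) (x, s) with hI2
  have hI00 : 0 ≤ I0 := indicator_nonneg (fun _ _ => zero_le_one) _
  have hI10 : 0 ≤ I1 := indicator_nonneg (fun _ _ => zero_le_one) _
  have hI20 : 0 ≤ I2 := indicator_nonneg (fun _ _ => zero_le_one) _
  have e1 : dq φ1 t' (x, s) - dq φ1 t (x, s) - (t' - t) • φ2 (x + t * s) =
      (s⁻¹ : ℝ) • (φ1 (x + t' * s) - φ1 (x + t * s)) - (t' - t) • φ2 (x + t * s) := by
    unfold dq
    simp only [Complex.real_smul]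
    ring
  have e2 : (s⁻¹ : ℝ) • (φ1 (x + t' * s) - φ1 (x + t * s)) - (t' - t) • φ2 (x + t * s) =
      (s⁻¹ : ℝ) • (φ1 (x + t' * s) - φ1 (x + t * s) - ((t' - t) * s) • φ2 (x + t * s)) := by
    simp only [Complex.real_smul]
    push_cast
    field_simp
  simp only
  rw [e1]
  have hx' : x + t' * s = (x + t * s) + (t' - t) * s := by ring
  have hout : |(t' - t) * s| < δ → (x, s) ∉ St (P + δ) t →
      (s⁻¹ : ℝ) • (φ1 (x + t' * s) - φ1 (x + t * s)) - (t' - t) • φ2 (x + t * s) = 0 := by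
    intro hc hz
    have h2 : P + δ ≤ |x + t * s| := by
      by_contra hlt
      exact hz (not_le.1 hlt)
    have h3 : P < |x + t' * s| := by
      have h4 := abs_sub_abs_le_abs_sub (x + t * s) (x + t' * s)
      have h5 : |x + t * s - (x + t' * s)| = |(t' - t) * s| := by
        rw [← abs_neg]
        congr 1
        ring
      rw [h5] at h4
      linarith
    rw [h.s1 _ h3, h.s1 (x + t * s) (by linarith), h.s2 (x + t * s) (by linarith)]
    simp
  rcases le_or_gt |s| R with hsR | hsR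
  · have hc : |(t' - t) * s| < δ := by
      rw [abs_mul]
      exact lt_of_le_of_lt (mul_le_mul_of_nonneg_left hsR (abs_nonneg _)) hRt
    by_cases hz : (x, s) ∈ St (P + δ) t
    · have hI : I0 = 1 := indicator_of_mem hz _
      have h1 : ‖φ1 (x + t * s + (t' - t) * s) - φ1 (x + t * s) -
          ((t' - t) * s) • φ2 (x + t * s)‖ ≤ B * ((t' - t) * s) ^ 2 :=
        taylor h.d2 h.d3 fun u _ => h.b3 u
      rw [e2, hx', norm_smul, norm_inv, Real.norm_eq_abs]
      calc |s|⁻¹ * ‖φ1 (x + t * s + (t' - t) * s) - φ1 (x + t * s) -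
            ((t' - t) * s) • φ2 (x + t * s)‖
          ≤ |s|⁻¹ * (B * ((t' - t) * s) ^ 2) := by gcongr
        _ = B * |s| * (t' - t) ^ 2 := by
            rw [mul_pow, ← sq_abs s]
            field_simp
        _ ≤ B * R * (t' - t) ^ 2 := by gcongr
        _ ≤ _ := by
            rw [hI, mul_one]
            have : 0 ≤ B * (2 + δ⁻¹) * |t' - t| * (I1 + I2) := by positivity
            linarith
    · rw [hout hc hz, norm_zero]
      positivity
  · have hIeq1 : (x, s) ∈ St (P + δ) t → I1 = 1 := fun hz =>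
      indicator_of_mem (show (x, s) ∈ Tl (P + δ) t R from ⟨hz, hsR⟩) _
    have hfirst : 0 ≤ B * R * (t' - t) ^ 2 * I0 := by positivity
    rcases lt_or_ge |(t' - t) * s| δ with hc | hc
    · by_cases hz : (x, s) ∈ St (P + δ) t
      · have h1 : ‖φ1 (x + t * s + (t' - t) * s) - φ1 (x + t * s)‖ ≤ B * |(t' - t) * s| :=
          mvt h.d2 fun u _ => h.n2 u
        rw [hx']
        refine (norm_sub_le _ _).trans ?_
        rw [norm_smul, norm_smul, norm_inv, Real.norm_eq_abs, Real.norm_eq_abs, hIeq1 hz]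
        have h2 := h.n2 (x + t * s)
        have h3 : 0 ≤ δ⁻¹ := by positivity
        calc |s|⁻¹ * ‖φ1 (x + t * s + (t' - t) * s) - φ1 (x + t * s)‖ +
              |t' - t| * ‖φ2 (x + t * s)‖
            ≤ |s|⁻¹ * (B * |(t' - t) * s|) + |t' - t| * B := by gcongr
          _ = B * (2 + 0) * |t' - t| * (1 + 0) := by
              rw [abs_mul]
              field_simp
              ring
          _ ≤ B * (2 + δ⁻¹) * |t' - t| * (1 + I2) := by gcongr
          _ ≤ _ := by linarith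
      · rw [hout hc hz, norm_zero]
        positivity
    · have hn0 : ∀ r : ℝ, ∀ ψ : ℝ → ℂ, (∀ u, ‖ψ u‖ ≤ B) → (∀ u, P < |u| → ψ u = 0) →
          ‖ψ (x + r * s)‖ ≤ B * (Tl (P + δ) r R).indicator (fun _ => (1 : ℝ)) (x, s) := by
        intro r ψ hψ hs
        by_cases hz : (x, s) ∈ St (P + δ) r
        · rw [indicator_of_mem (show (x, s) ∈ Tl (P + δ) r R from ⟨hz, hsR⟩), mul_one]
          exact hψ _
        · have h2 : P + δ ≤ |x + r * s| := by
            by_contra hlt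
            exact hz (not_le.1 hlt)
          rw [hs _ (by linarith), norm_zero]
          have : 0 ≤ (Tl (P + δ) r R).indicator (fun _ => (1 : ℝ)) (x, s) :=
            indicator_nonneg (fun _ _ => zero_le_one) _
          positivity
      have a1 := hn0 t' φ1 h.n1 h.s1
      have a2 := hn0 t φ1 h.n1 h.s1
      have a3 := hn0 t φ2 h.n2 h.s2
      rw [← hI1] at a2 a3
      rw [← hI2] at a1
      rw [abs_mul] at hc
      have hr : |s|⁻¹ ≤ |t' - t| * δ⁻¹ := by
        rw [← div_eq_mul_inv, inv_le_iff_one_le_mul₀ hsp, div_mul_eq_mul_div,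
          one_le_div hδ]
        exact hc
      refine (norm_sub_le _ _).trans ?_
      rw [norm_smul, norm_smul, norm_inv, Real.norm_eq_abs, Real.norm_eq_abs]
      have h5 : ‖φ1 (x + t' * s) - φ1 (x + t * s)‖ ≤ B * I2 + B * I1 :=
        (norm_sub_le _ _).trans (add_le_add a1 a2)
      calc |s|⁻¹ * ‖φ1 (x + t' * s) - φ1 (x + t * s)‖ + |t' - t| * ‖φ2 (x + t * s)‖
          ≤ (|t' - t| * δ⁻¹) * (B * I2 + B * I1) + |t' - t| * (B * I1) := by gcongr
        _ ≤ B * (2 + δ⁻¹) * |t' - t| * (I1 + I2) := by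
            have h6 : 0 ≤ B * |t' - t| * I1 := by positivity
            have h7 : 0 ≤ B * |t' - t| * I2 := by positivity
            nlinarith
        _ ≤ _ := by linarith

/-- the derivative along good directions -/
theorem lin {g : ℝ × ℝ → ℂ} {M : ℝ} (hg : Bdd g M) {P B : ℝ} {φ φ1 φ2 φ3 : ℝ → ℂ}
    (h : Kc P B φ φ1 φ2 φ3) {δ : ℝ} (hδ : 0 < δ) {R : ℝ} (hR : 0 ≤ R) {t t' : ℝ}
    (hRt : |t' - t| * R < δ)
    (ht : IntegrableOn g (St (P + δ) t)) (ht' : IntegrableOn g (St (P + δ) t'))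
    (hz : ∫ z : ℝ × ℝ, g z * φ2 (z.1 + t * z.2) = 0) :
    ‖J g φ1 t' - J g φ1 t‖ ≤ (B * R * (t' - t) ^ 2) * Na g (P + δ) t +
      (B * (2 + δ⁻¹) * |t' - t|) * (Ta g (P + δ) t R + Ta g (P + δ) t' R) := by
  have hB := h.B0
  have i1 := gdq_int hg h hδ ht'
  have i2 := gdq_int hg h hδ ht
  obtain ⟨j0, k0⟩ := ind_int ht
  obtain ⟨j1, k1⟩ := tail_int R ht
  obtain ⟨j2, k2⟩ := tail_int R ht'
  have i3 : Integrable (fun z : ℝ × ℝ => g z * φ2 (z.1 + t * z.2)) := by
    refine (j0.const_mul B).mono' ?_ (Eventually.of_forall fun z => ?_)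
    · refine (hg.cont.mul (h.c2.comp (by fun_prop))).aestronglyMeasurable
    · rw [norm_mul]
      by_cases hz : z ∈ St (P + δ) t
      · rw [indicator_of_mem hz, mul_one, mul_comm B]
        exact mul_le_mul_of_nonneg_left (h.n2 _) (norm_nonneg _)
      · have h2 : P + δ ≤ |z.1 + t * z.2| := by
          by_contra hlt
          exact hz (not_le.1 hlt)
        rw [h.s2 _ (by linarith), norm_zero, mul_zero, indicator_of_notMem hz]
        simp
  have e1 : J g φ1 t' - J g φ1 t =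
      ∫ z, g z * (dq φ1 t' z - dq φ1 t z - (t' - t) • φ2 (z.1 + t * z.2)) := by
    have i12 : Integrable (fun z => g z * dq φ1 t' z - g z * dq φ1 t z) := i1.sub i2
    have i4 : Integrable (fun z : ℝ × ℝ => (t' - t) • (g z * φ2 (z.1 + t * z.2))) :=
      i3.smul (t' - t)
    have e2 : ∫ z, g z * (dq φ1 t' z - dq φ1 t z - (t' - t) • φ2 (z.1 + t * z.2)) =
        (∫ z, (g z * dq φ1 t' z - g z * dq φ1 t z)) -
          ∫ z, (t' - t) • (g z * φ2 (z.1 + t * z.2)) := by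
      rw [← integral_sub i12 i4]
      refine integral_congr_ae (Eventually.of_forall fun z => ?_)
      simp only [Complex.real_smul]
      ring
    rw [e2, integral_smul, hz, smul_zero, sub_zero, integral_sub i1 i2]
    rfl
  rw [e1]
  set C0 : ℝ := B * R * (t' - t) ^ 2 with hC0
  set C1 : ℝ := B * (2 + δ⁻¹) * |t' - t| with hC1
  have j12 : Integrable (fun z => ‖g z‖ * (Tl (P + δ) t R).indicator (fun _ => (1 : ℝ)) z +
        ‖g z‖ * (Tl (P + δ) t' R).indicator (fun _ => (1 : ℝ)) z) := j1.add j2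
  have j012 : Integrable (fun z => (C0 * (‖g z‖ * (St (P + δ) t).indicator (fun _ => (1 : ℝ)) z) +
      C1 * (‖g z‖ * (Tl (P + δ) t R).indicator (fun _ => (1 : ℝ)) z +
        ‖g z‖ * (Tl (P + δ) t' R).indicator (fun _ => (1 : ℝ)) z))) :=
    (j0.const_mul C0).add (j12.const_mul C1)
  have h1 : ∫ z, (C0 * (‖g z‖ * (St (P + δ) t).indicator (fun _ => (1 : ℝ)) z) +
      C1 * (‖g z‖ * (Tl (P + δ) t R).indicator (fun _ => (1 : ℝ)) z +
        ‖g z‖ * (Tl (P + δ) t' R).indicator (fun _ => (1 : ℝ)) z)) =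
      C0 * Na g (P + δ) t + C1 * (Ta g (P + δ) t R + Ta g (P + δ) t' R) := by
    rw [integral_add (j0.const_mul C0) (j12.const_mul C1), integral_const_mul,
      integral_const_mul, integral_add j1 j2, k0, k1, k2]
  rw [← h1]
  refine norm_integral_le_of_norm_le j012 ?_
  have hne : ∀ᵐ z : ℝ × ℝ, z.2 ≠ 0 := by
    rw [Measure.volume_eq_prod]
    exact Measure.quasiMeasurePreserving_snd.ae (Measure.ae_ne volume (0 : ℝ))
  filter_upwards [hne] with z hz0
  rw [norm_mul]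
  have h2 := rem2_bound h hδ hR hRt z hz0
  rw [← hC0, ← hC1] at h2
  calc ‖g z‖ * ‖dq φ1 t' z - dq φ1 t z - (t' - t) • φ2 (z.1 + t * z.2)‖
      ≤ ‖g z‖ * (C0 * (St (P + δ) t).indicator (fun _ => 1) z +
        C1 * ((Tl (P + δ) t R).indicator (fun _ => 1) z +
          (Tl (P + δ) t' R).indicator (fun _ => 1) z)) := by gcongr
    _ = _ := by ring

end Pool.Agent.Helper34.Radon.Bd
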