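import Pool.Agent.Helper34.Radon.Bd.Uniq
import Pool.Agent.Helper34.Radon.Axis

set_option autoImplicit false

open MeasureTheory Real Complex Filter Topology Set
open scoped FourierTransform ContDiff ENNReal

noncomputable section

namespace Pool.Agent.Helper34.Radon.Bd

/-- strips around arbitrary lines -/
def Sc (c r t : ℝ) : Set (ℝ × ℝ) := {z | |z.1 + t * z.2 - c| < r}

theorem Sc_open (c r t : ℝ) : IsOpen (Sc c r t) :=
  isOpen_lt (f := fun z : ℝ × ℝ => |z.1 + t * z.2 - c|) (by fun_prop) continuous_const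

theorem tr_bdd {g : ℝ × ℝ → ℂ} {M : ℝ} (hg : Bdd g M) (q : ℝ) : Bdd (tr q g) M :=
  ⟨hg.cont.comp (by fun_prop), fun z => hg.bd _⟩

theorem tr_line {g : ℝ × ℝ → ℂ} {t : ℝ}
    (hl : ∀ᵐ p : ℝ, Integrable (fun s : ℝ => g (p - t * s, s))) (q : ℝ) :
    ∀ᵐ p : ℝ, Integrable (fun s : ℝ => tr q g (p - t * s, s)) := by
  have h1 : Measure.QuasiMeasurePreserving (fun p : ℝ => p + q) volume volume :=
    (measurePreserving_add_right (volume : Measure ℝ) _).quasiMeasurePreserving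
  filter_upwards [h1.ae hl] with p hp
  refine hp.congr (Eventually.of_forall fun s => ?_)
  unfold tr
  simp only
  congr 1
  refine Prod.ext ?_ rfl
  simp only
  ring

theorem tr_zero {g : ℝ × ℝ → ℂ} {t : ℝ}
    (hz : ∀ᵐ p : ℝ, ∫ s : ℝ, g (p - t * s, s) = 0) (q : ℝ) :
    ∀ᵐ p : ℝ, ∫ s : ℝ, tr q g (p - t * s, s) = 0 := by
  have h1 : Measure.QuasiMeasurePreserving (fun p : ℝ => p + q) volume volume :=
    (measurePreserving_add_right (volume : Measure ℝ) _).quasiMeasurePreserving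
  filter_upwards [h1.ae hz] with p hp
  rw [← hp]
  refine integral_congr_ae (Eventually.of_forall fun s => ?_)
  unfold tr
  simp only
  congr 1
  refine Prod.ext ?_ rfl
  simp only
  ring

theorem tr_strip {g : ℝ × ℝ → ℂ} (q ρ t : ℝ) :
    ∫⁻ z : ℝ × ℝ, (St ρ t).indicator (fun z => ‖tr q g z‖ₑ) z =
      ∫⁻ z : ℝ × ℝ, (Sc q ρ t).indicator (fun z => ‖g z‖ₑ) z := by
  rw [← lintegral_add_right_eq_self
    (fun z : ℝ × ℝ => (Sc q ρ t).indicator (fun z => ‖g z‖ₑ) z) ((q, 0) : ℝ × ℝ)]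
  refine lintegral_congr fun z => ?_
  have e0 : z + ((q, 0) : ℝ × ℝ) = (z.1 + q, z.2) := by
    refine Prod.ext ?_ ?_
    · simp
    · simp
  rw [e0]
  by_cases hz : z ∈ St ρ t
  · have h2 : ((z.1 + q, z.2) : ℝ × ℝ) ∈ Sc q ρ t := by
      have hz' : |z.1 + t * z.2| < ρ := hz
      show |z.1 + q + t * z.2 - q| < ρ
      have e1 : z.1 + q + t * z.2 - q = z.1 + t * z.2 := by ring
      rwa [e1]
    rw [indicator_of_mem hz, indicator_of_mem h2]
    rfl
  · have h2 : ((z.1 + q, z.2) : ℝ × ℝ) ∉ Sc q ρ t := by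
      intro h3
      apply hz
      have h4 : |z.1 + q + t * z.2 - q| < ρ := h3
      have e1 : z.1 + q + t * z.2 - q = z.1 + t * z.2 := by ring
      rw [e1] at h4
      exact h4
    rw [indicator_of_notMem hz, indicator_of_notMem h2]

/-- local theorem for small kernels and small translations -/
theorem local_small {g : ℝ × ℝ → ℂ} {M : ℝ} (hg : Bdd g M)
    (hl : ∀ t : ℝ, ∀ᵐ p : ℝ, Integrable (fun s : ℝ => g (p - t * s, s)))
    (hz : ∀ᵐ t : ℝ, ∀ᵐ p : ℝ, ∫ s : ℝ, g (p - t * s, s) = 0)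
    {t0 η c r : ℝ} (hη : 0 < η) (hr : 0 < r) {n : ℕ}
    (hn : ∀ t ∈ Kall g, |t - t0| < η →
      ∫⁻ z : ℝ × ℝ, (Sc c r t).indicator (fun z => ‖g z‖ₑ) z ≤ n)
    {q : ℝ} (hq : |q - c| < r / 4) {φ : ℝ → ℂ} (hφ : Win (r / 4) φ) :
    AffOn (w (tr q g) φ (deriv φ)) (t0 - η / 2) (t0 + η / 2) := by
  obtain ⟨B, hk⟩ := win_kc hφ
  have hgq := tr_bdd hg q
  have hsub : Kset (w (tr q g) φ (deriv φ)) ⊆ Kall g := by
    rw [w_tr']
    exact Kset_subset (Win.shift hφ q)
  have hloc := local_empty hgq hk (δ := r / 4) (by positivity) (α := t0 - η) (β := t0 + η)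
    (A := n) (Nat.cast_nonneg n) (fun t => tr_line (hl t) q) (fun t ht hti => by
      refine strip_mem hgq.cont n ?_
      rw [tr_strip]
      refine le_trans (lintegral_mono fun z => ?_) (hn t (hsub ht) (by
        rw [abs_lt]
        constructor <;> linarith [hti.1, hti.2]))
      refine indicator_le_indicator_of_subset ?_ (fun _ => zero_le) z
      intro y hy
      have hy' : |y.1 + t * y.2 - q| < r / 4 + r / 4 := hy
      show |y.1 + t * y.2 - c| < r
      have := abs_sub_le (y.1 + t * y.2) q c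
      linarith) (by
      filter_upwards [hz] with t ht
      exact tr_zero ht q)
  refine affOn_of_gap (w_continuous hgq hk.toKd) (by linarith) fun u hu => ?_
  exact hloc u ⟨by linarith [hu.1], by linarith [hu.2]⟩

/-- all translations -/
theorem local_trans {g : ℝ × ℝ → ℂ} {M : ℝ} (hg : Bdd g M) {ρ C : ℝ} (hρ : 0 < ρ) (hC : 0 ≤ C)
    (hua : UA g ρ C) {P : ℝ} {φ : ℝ → ℂ} (hφ : Win P φ) {a b c ε : ℝ} (hε : 0 < ε)
    (h0 : ∀ v, |v - c| < ε → AffOn (w (tr v g) φ (deriv φ)) a b) (v : ℝ) :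
    AffOn (w (tr v g) φ (deriv φ)) a b := by
  obtain ⟨B, hk⟩ := win_kc hφ
  have hkd := hk.toKd
  intro x hx
  set l : ℝ := (x - a) / (b - a) with hl
  have hqi : ∀ t : ℝ, Integrable (q φ (deriv φ) t) := fun t => q_int hkd t
  set k : ℝ × ℝ → ℂ := fun z => q φ (deriv φ) x z - q φ (deriv φ) a z -
    (l : ℂ) * (q φ (deriv φ) b z - q φ (deriv φ) a z) with hkdef
  have hki : Integrable k :=
    ((hqi x).sub (hqi a)).sub (((hqi b).sub (hqi a)).const_mul (l : ℂ))
  have hw : ∀ v t : ℝ, w (tr v g) φ (deriv φ) t =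
      ∫ z : ℝ × ℝ, g (z.1 + v, z.2) * q φ (deriv φ) t z := fun v t => rfl
  have hgi : ∀ v t : ℝ, Integrable (fun z : ℝ × ℝ => g (z.1 + v, z.2) * q φ (deriv φ) t z) :=
    fun v t => gq_int (tr_bdd hg v) hkd t
  have hΘ : ∀ v : ℝ, ∫ z : ℝ × ℝ, g (z.1 + v, z.2) * k z =
      w (tr v g) φ (deriv φ) x - w (tr v g) φ (deriv φ) a -
        (l : ℂ) * (w (tr v g) φ (deriv φ) b - w (tr v g) φ (deriv φ) a) := by
    intro v
    have j1 : Integrable (fun z : ℝ × ℝ => g (z.1 + v, z.2) * q φ (deriv φ) x z -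
        g (z.1 + v, z.2) * q φ (deriv φ) a z) := (hgi v x).sub (hgi v a)
    have j2 : Integrable (fun z : ℝ × ℝ => (l : ℂ) * (g (z.1 + v, z.2) * q φ (deriv φ) b z -
        g (z.1 + v, z.2) * q φ (deriv φ) a z)) := ((hgi v b).sub (hgi v a)).const_mul (l : ℂ)
    rw [hw, hw, hw, ← integral_sub (hgi v x) (hgi v a), ← integral_sub (hgi v b) (hgi v a),
      ← integral_const_mul, ← integral_sub j1 j2]
    refine integral_congr_ae (Eventually.of_forall fun z => ?_)
    simp only [hkdef]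
    ring
  have hz0 : ∀ v, |v - c| < ε → ∫ z : ℝ × ℝ, g (z.1 + v, z.2) * k z = 0 := by
    intro v hv
    have h1 := h0 v hv x hx
    rw [hΘ, h1, Complex.real_smul]
    ring
  have hall := (UA.integral hg.cont hua hρ hC hki).zero
    (mul_nonneg hC (integral_nonneg fun _ => norm_nonneg _)) (by positivity) (half_pos hρ) hε
    hz0 v
  rw [hΘ] at hall
  rw [Complex.real_smul]
  linear_combination hall

/-- the uniform exceptional set is empty -/
theorem Kall_empty {g : ℝ × ℝ → ℂ} {M : ℝ} (hg : Bdd g M)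
    (hl : ∀ t : ℝ, ∀ᵐ p : ℝ, Integrable (fun s : ℝ => g (p - t * s, s)))
    (hz : ∀ᵐ t : ℝ, ∀ᵐ p : ℝ, ∫ s : ℝ, g (p - t * s, s) = 0)
    (hs : {t : ℝ | ¬ ∃ c r : ℝ, 0 < r ∧ IntegrableOn g (Sc c r t)}.Countable)
    {ρ C : ℝ} (hρ : 0 < ρ) (hC : 0 ≤ C) (hua : UA g ρ C) (t : ℝ) : t ∉ Kall g := by
  intro ht
  obtain ⟨⟨c, k, n⟩, t0, ht0, η, hη, hn⟩ := portion (Kall_closed g) ⟨t, ht⟩
    (fun t ht => Kall_perf hg hl ht) hs
    (F := fun i : ℚ × ℕ × ℕ => {t : ℝ | ∫⁻ z : ℝ × ℝ,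
      (Sc (i.1 : ℝ) (1 / ((i.2.1 : ℝ) + 1)) t).indicator (fun z => ‖g z‖ₑ) z ≤ i.2.2})
    (fun i => strip_closed hg.cont _ _ _)
    (fun t _ htD => by
      have h1 : ∃ c r : ℝ, 0 < r ∧ IntegrableOn g (Sc c r t) := by
        by_contra hcon
        exact htD hcon
      obtain ⟨c, r, hr, hi⟩ := h1
      obtain ⟨k, hk⟩ := exists_nat_one_div_lt (half_pos hr)
      obtain ⟨c', hc1, hc2⟩ := exists_rat_btwn (show c - r / 2 < c + r / 2 by linarith)
      have hsub : Sc (c' : ℝ) (1 / ((k : ℝ) + 1)) t ⊆ Sc c r t := by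
        intro z hz
        have hz' : |z.1 + t * z.2 - c'| < 1 / ((k : ℝ) + 1) := hz
        show |z.1 + t * z.2 - c| < r
        have h2 : |(c' : ℝ) - c| < r / 2 := by
          rw [abs_lt]
          constructor <;> linarith
        have := abs_sub_le (z.1 + t * z.2) c' c
        linarith
      have h3 : ∫⁻ z in Sc (c' : ℝ) (1 / ((k : ℝ) + 1)) t, ‖g z‖ₑ < ⊤ := (hi.mono_set hsub).2
      obtain ⟨n, hn⟩ := ENNReal.exists_nat_gt h3.ne
      refine ⟨⟨c', k, n⟩, ?_⟩
      show ∫⁻ z : ℝ × ℝ, (Sc (c' : ℝ) (1 / ((k : ℝ) + 1)) t).indicator (fun z => ‖g z‖ₑ) z ≤ n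
      rw [lintegral_indicator (Sc_open _ _ _).measurableSet]
      exact hn.le)
  set r : ℝ := 1 / ((k : ℝ) + 1) with hr
  have hr0 : 0 < r := by positivity
  apply ht0
  refine ⟨η / 2, half_pos hη, fun P φ hφ => ?_⟩
  refine split hg (show 0 < r / 4 by positivity) (fun v φ' hφ' => ?_) hφ
  refine local_trans hg hρ hC hua hφ' (c := (c : ℝ)) (ε := r / 4) (by positivity) ?_ v
  intro v' hv'
  exact local_small hg hl hz hη hr0 (n := n) (fun t ht htt => hn t ht htt) hv' hφ'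

/-- hypotheses in slope form -/
structure HSlope (f : ℝ × ℝ → ℝ) : Prop where
  cont : Continuous f
  bdd : ∃ M : ℝ, ∀ z, |f z| ≤ M
  line : ∀ t : ℝ, ∀ᵐ p : ℝ, Integrable (fun s : ℝ => f (p - t * s, s))
  strip : {t : ℝ | ¬ ∃ c r : ℝ, 0 < r ∧ IntegrableOn f (Sc c r t)}.Countable
  zero : ∀ᵐ t : ℝ, ∀ᵐ p : ℝ, ∫ s : ℝ, f (p - t * s, s) = 0
  hor : ∀ᵐ s : ℝ, Integrable (fun x : ℝ => f (x, s))
  ana : ∃ ρ C : ℝ, 0 < ρ ∧ 0 ≤ C ∧ UA (fun z => ((f z : ℝ) : ℂ)) ρ C

theorem HSlope.T_zero {f : ℝ × ℝ → ℝ} (h : HSlope f) {R : ℝ} {m κ : ℝ → ℂ} (hm : Win R m)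
    (hκ : Dens κ) : T (fun z => ((f z : ℝ) : ℂ)) m κ = 0 := by
  obtain ⟨M, hM⟩ := h.bdd
  have hg : Bdd (fun z => ((f z : ℝ) : ℂ)) M := by
    refine ⟨Complex.continuous_ofReal.comp h.cont, fun z => ?_⟩
    rw [Complex.norm_real, Real.norm_eq_abs]
    exact hM z
  obtain ⟨ρ, C, hρ, hC, hua⟩ := h.ana
  have hK : ∀ t, t ∉ Kall (fun z => ((f z : ℝ) : ℂ)) := by
    intro t
    refine Kall_empty hg ?_ ?_ ?_ hρ hC hua t
    · intro t
      filter_upwards [h.line t] with p hp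
      exact hp.ofReal
    · filter_upwards [h.zero] with t ht
      filter_upwards [ht] with p hp
      have h2 : ∫ s : ℝ, ((f (p - t * s, s) : ℝ) : ℂ) =
          ((∫ s : ℝ, f (p - t * s, s) : ℝ) : ℂ) := integral_ofReal
      rw [h2, hp]
      simp
    · refine h.strip.mono fun t ht => ?_
      intro hall
      apply ht
      obtain ⟨c, r, hr, hi⟩ := hall
      exact ⟨c, r, hr, hi.ofReal⟩
  refine T_of_aff0 hg ?_ hm hκ
  intro P B φ φ1 φ2 φ3 hk hφ
  have hwin : Win P φ := by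
    refine ⟨hφ, fun u hu => ?_⟩
    by_contra hlt
    exact hu (hk.s0 u (not_le.1 hlt))
  have h1 : φ1 = deriv φ := by
    funext u
    exact (hk.d1 u).deriv.symm
  refine aff_of_empty (w_continuous hg hk.toKd) fun t ht => ?_
  rw [h1] at ht
  exact hK t (Kset_subset hwin ht)

theorem HSlope.axis {f : ℝ × ℝ → ℝ} (h : HSlope f) (hi : Integrable (fun x : ℝ => f (x, 0)))
    (x : ℝ) : f (x, 0) = 0 := by
  obtain ⟨M, hM⟩ := h.bdd
  have hc : Continuous (fun z => ((f z : ℝ) : ℂ)) := Complex.continuous_ofReal.comp h.cont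
  have haxis : ∀ κ : ℝ → ℂ, Dens κ → ∫ x : ℝ, ((f (x, 0) : ℝ) : ℂ) * 𝓕 κ x = 0 := by
    intro κ hκ
    refine axis_zero (F := fun z => ((f z : ℝ) : ℂ)) (C0 := M) (k := 0) hc ?_ ?_ hκ
    · intro y
      rw [Complex.norm_real, Real.norm_eq_abs, pow_zero, mul_one]
      exact hM y
    · intro R m κ' hm hκ'
      exact h.T_zero hm hκ'
  have h0 := zero_of_freq (F := fun x : ℝ => ((f (x, 0) : ℝ) : ℂ))
    (hc.comp (by fun_prop)) hi.ofReal (fun x => Complex.conj_ofReal _) haxis x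
  exact_mod_cast h0

theorem HSlope.translate {f : ℝ × ℝ → ℝ} (h : HSlope f) (s0 : ℝ) :
    HSlope (fun z => f (z.1, z.2 + s0)) := by
  have key : ∀ t p s : ℝ, f (p - t * s, s + s0) =
      (fun s => f (p + t * s0 - t * s, s)) (s + s0) := by
    intro t p s
    simp only
    congr 1
    refine Prod.ext ?_ rfl
    simp only
    ring
  refine ⟨h.cont.comp (by fun_prop), ?_, fun t => ?_, ?_, ?_, ?_, ?_⟩
  · obtain ⟨M, hM⟩ := h.bdd
    exact ⟨M, fun z => hM _⟩
  · have h1 : Measure.QuasiMeasurePreserving (fun p : ℝ => p + t * s0) volume volume :=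
      (measurePreserving_add_right (volume : Measure ℝ) _).quasiMeasurePreserving
    filter_upwards [h1.ae (h.line t)] with p hp
    have h2 := hp.comp_add_right s0
    refine h2.congr (Eventually.of_forall fun s => ?_)
    exact (key t p s).symm
  · refine h.strip.mono fun t ht => ?_
    intro hall
    apply ht
    obtain ⟨c, r, hr, h1⟩ := hall
    refine ⟨c - t * s0, r, hr, ?_⟩
    have hemb : MeasurableEmbedding (fun z : ℝ × ℝ => z + (0, s0)) :=
      measurableEmbedding_addRight _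
    have hmp : MeasurePreserving (fun z : ℝ × ℝ => z + (0, s0))
        (volume : Measure (ℝ × ℝ)) volume := measurePreserving_add_right _ _
    have h2 : IntegrableOn (f ∘ fun z : ℝ × ℝ => z + (0, s0))
        ((fun z : ℝ × ℝ => z + (0, s0)) ⁻¹' (Sc c r t)) volume :=
      (hmp.integrableOn_comp_preimage hemb).2 h1
    have h3 : IntegrableOn (fun z : ℝ × ℝ => f (z.1, z.2 + s0))
        ((fun z : ℝ × ℝ => z + (0, s0)) ⁻¹' (Sc c r t)) volume := by
      refine h2.congr_fun (fun z _ => ?_) (hemb.measurable (Sc_open _ _ _).measurableSet)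
      simp only [Function.comp_apply]
      congr 1
      refine Prod.ext ?_ ?_
      · simp
      · simp
    refine h3.mono_set fun z hz => ?_
    show |(z + (0, s0)).1 + t * (z + (0, s0)).2 - c| < r
    have hz' : |z.1 + t * z.2 - (c - t * s0)| < r := hz
    have e1 : (z + (0, s0)).1 + t * (z + (0, s0)).2 - c = z.1 + t * z.2 - (c - t * s0) := by
      simp only [Prod.fst_add, Prod.snd_add, add_zero]
      ring
    rw [e1]
    exact hz'
  · filter_upwards [h.zero] with t ht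
    have h1 : Measure.QuasiMeasurePreserving (fun p : ℝ => p + t * s0) volume volume :=
      (measurePreserving_add_right (volume : Measure ℝ) _).quasiMeasurePreserving
    filter_upwards [h1.ae ht] with p hp
    simp_rw [key t p]
    rw [integral_add_right_eq_self (fun s => f (p + t * s0 - t * s, s)) s0]
    exact hp
  · have h1 : Measure.QuasiMeasurePreserving (fun s : ℝ => s + s0) volume volume :=
      (measurePreserving_add_right (volume : Measure ℝ) _).quasiMeasurePreserving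
    exact h1.ae h.hor
  · obtain ⟨ρ, C, hρ, hC, hua⟩ := h.ana
    exact ⟨ρ, C, hρ, hC, fun s => hua (s + s0)⟩

theorem HSlope.main {f : ℝ × ℝ → ℝ} (h : HSlope f) : f = 0 := by
  have h1 : ∀ᵐ s : ℝ, ∀ x : ℝ, f (x, s) = 0 := by
    filter_upwards [h.hor] with s hs x
    have h2 := (h.translate s).axis (by simpa using hs) x
    simpa using h2
  funext z
  obtain ⟨x, s⟩ := z
  have h2 : (fun s : ℝ => f (x, s)) =ᵐ[volume] fun _ => 0 := by
    filter_upwards [h1] with s hs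
    exact hs x
  have hc : Continuous (fun s : ℝ => f (x, s)) := h.cont.comp (by fun_prop)
  have h3 := (Continuous.ae_eq_iff_eq volume hc continuous_const).1 h2
  exact congrFun h3 s

end Pool.Agent.Helper34.Radon.Bd
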