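import Pool.Agent.Helper34.Radon.Bd.Local
import Pool.Agent.Helper34.Radon.Scale

set_option autoImplicit false

open MeasureTheory Real Complex Filter Topology Set
open scoped FourierTransform ContDiff ENNReal

noncomputable section

namespace Pool.Agent.Helper34.Radon.Bd

theorem win_bdd {R : ℝ} {m : ℝ → ℂ} (h : Win R m) : ∃ C : ℝ, 0 ≤ C ∧ ∀ u, ‖m u‖ ≤ C := by
  obtain ⟨C, hC⟩ := h.cpt.exists_bound_of_continuous h.smooth.continuous
  exact ⟨C, (norm_nonneg _).trans (hC 0), hC⟩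

theorem win_hasDerivAt {R : ℝ} {m : ℝ → ℂ} (h : Win R m) (u : ℝ) :
    HasDerivAt m (deriv m u) u :=
  ((h.smooth.differentiable (by simp)) u).hasDerivAt

/-- a cutoff function -/
theorem exists_cutoff : ∃ m : ℝ → ℂ, Win 2 m ∧ ∀ u, |u| ≤ 1 → m u = 1 := by
  let b : ContDiffBump (0 : ℝ) := ⟨1, 2, by norm_num, by norm_num⟩
  refine ⟨fun x => ((b x : ℝ) : ℂ), ⟨?_, ?_⟩, ?_⟩
  · exact Complex.ofRealCLM.contDiff.comp b.contDiff
  · intro τ hτ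
    have h1 : b τ ≠ 0 := fun h0 => hτ (by simp [h0])
    have h2 : τ ∈ Function.support b := h1
    rw [b.support_eq, Metric.mem_ball, Real.dist_eq, sub_zero] at h2
    exact h2.le
  · intro u hu
    have h1 : b u = 1 := b.one_of_mem_closedBall (by
      rw [Metric.mem_closedBall, Real.dist_eq, sub_zero]
      exact hu)
    simp [h1]

theorem win_scale_deriv {R : ℝ} {m : ℝ → ℂ} (h : Win R m) (N : ℝ) (i : ℕ) (u : ℝ) :
    HasDerivAt (fun u : ℝ => ((N : ℂ)⁻¹) ^ i * m (u / N))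
      (((N : ℂ)⁻¹) ^ (i + 1) * deriv m (u / N)) u := by
  have h1 := win_hasDerivAt h (u / N)
  have h2 : HasDerivAt (fun u : ℝ => u / N) N⁻¹ u := by
    have := (hasDerivAt_id u).div_const N
    simpa using this
  have h3 := (HasDerivAt.scomp u h1 h2).const_mul (((N : ℂ)⁻¹) ^ i)
  refine h3.congr_deriv ?_
  rw [Complex.real_smul, Complex.ofReal_inv, pow_succ]
  ring

theorem kd_sum {B C : ℝ} {a b : ℂ} {u : ℝ} {X : ℂ} (hC : ‖a‖ ≤ C) (hC0 : 0 ≤ C)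
    (hX : (1 + u ^ 2) * ‖X‖ ≤ B) (hb : b = a * X) : (1 + u ^ 2) * ‖b‖ ≤ C * B := by
  rw [hb, norm_mul]
  calc (1 + u ^ 2) * (‖a‖ * ‖X‖) = ‖a‖ * ((1 + u ^ 2) * ‖X‖) := by ring
    _ ≤ C * B := mul_le_mul hC hX (by positivity) hC0

/-- truncated kernels -/
theorem trunc {B : ℝ} {ψ ψ1 ψ2 ψ3 : ℝ → ℂ} (hk : Kd B ψ ψ1 ψ2)
    (d3 : ∀ u, HasDerivAt ψ2 (ψ3 u) u) (hb3 : ∀ u, ‖ψ3 u‖ ≤ B) :
    ∃ B' : ℝ, ∃ Φ Φ1 Φ2 Φ3 : ℕ → ℝ → ℂ,
      (∀ n : ℕ, Kc (2 * ((n : ℝ) + 1)) B' (Φ n) (Φ1 n) (Φ2 n) (Φ3 n)) ∧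
      (∀ n : ℕ, ∀ u : ℝ, |u| < (n : ℝ) + 1 → Φ n u = ψ u ∧ Φ1 n u = ψ1 u) ∧
      (ContDiff ℝ ∞ ψ → ∀ n : ℕ, ContDiff ℝ ∞ (Φ n)) := by
  obtain ⟨m, hm, hm1⟩ := exists_cutoff
  have hm' := hm.deriv
  have hm'' := hm'.deriv
  have hm''' := hm''.deriv
  obtain ⟨C0, c0, hC0⟩ := win_bdd hm
  obtain ⟨C1, c1, hC1⟩ := win_bdd hm'
  obtain ⟨C2, c2, hC2⟩ := win_bdd hm''
  obtain ⟨C3, c3, hC3⟩ := win_bdd hm'''
  have hB := hk.B0
  set C : ℝ := C0 + C1 + C2 + C3 with hC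
  have hCn : 0 ≤ C := by positivity
  let a : ℕ → ℝ → ℝ → ℂ := fun i N u => match i with
    | 0 => ((N : ℂ)⁻¹) ^ 0 * m (u / N)
    | 1 => ((N : ℂ)⁻¹) ^ 1 * deriv m (u / N)
    | 2 => ((N : ℂ)⁻¹) ^ 2 * deriv (deriv m) (u / N)
    | _ => ((N : ℂ)⁻¹) ^ 3 * deriv (deriv (deriv m)) (u / N)
  have hd0 : ∀ N u, HasDerivAt (a 0 N) (a 1 N u) u := fun N u => win_scale_deriv hm N 0 u
  have hd1 : ∀ N u, HasDerivAt (a 1 N) (a 2 N u) u := fun N u => win_scale_deriv hm' N 1 u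
  have hd2 : ∀ N u, HasDerivAt (a 2 N) (a 3 N u) u := fun N u => win_scale_deriv hm'' N 2 u
  have hNn : ∀ n : ℕ, ∀ i : ℕ, ‖((((n : ℝ) + 1 : ℝ) : ℂ)⁻¹) ^ i‖ ≤ 1 := by
    intro n i
    rw [norm_pow, norm_inv, Complex.norm_real, Real.norm_of_nonneg (by positivity)]
    refine pow_le_one₀ (by positivity) (inv_le_one_of_one_le₀ ?_)
    have : (0 : ℝ) ≤ n := Nat.cast_nonneg n
    linarith
  have hab : ∀ (n : ℕ) (i : ℕ) (μ : ℝ → ℂ) (D : ℝ) (u : ℝ), (∀ u, ‖μ u‖ ≤ D) → D ≤ C →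
      ‖((((n : ℝ) + 1 : ℝ) : ℂ)⁻¹) ^ i * μ (u / ((n : ℝ) + 1))‖ ≤ C := by
    intro n i μ D u hμ hD
    rw [norm_mul]
    calc ‖((((n : ℝ) + 1 : ℝ) : ℂ)⁻¹) ^ i‖ * ‖μ (u / ((n : ℝ) + 1))‖ ≤ 1 * D :=
          mul_le_mul (hNn n i) (hμ _) (norm_nonneg _) zero_le_one
      _ ≤ C := by linarith
  have A0 : ∀ (n : ℕ) u, ‖a 0 ((n : ℝ) + 1) u‖ ≤ C := fun n u =>
    hab n 0 m C0 u hC0 (by rw [hC]; linarith)
  have A1 : ∀ (n : ℕ) u, ‖a 1 ((n : ℝ) + 1) u‖ ≤ C := fun n u =>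
    hab n 1 _ C1 u hC1 (by rw [hC]; linarith)
  have A2 : ∀ (n : ℕ) u, ‖a 2 ((n : ℝ) + 1) u‖ ≤ C := fun n u =>
    hab n 2 _ C2 u hC2 (by rw [hC]; linarith)
  have A3 : ∀ (n : ℕ) u, ‖a 3 ((n : ℝ) + 1) u‖ ≤ C := fun n u =>
    hab n 3 _ C3 u hC3 (by rw [hC]; linarith)
  have hsupp : ∀ (n : ℕ) (μ : ℝ → ℂ) (u : ℝ), Win 2 μ → 2 * ((n : ℝ) + 1) < |u| →
      μ (u / ((n : ℝ) + 1)) = 0 := by
    intro n μ u hμ hu
    by_contra hne
    have h1 := hμ.supp _ hne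
    have hpos : (0 : ℝ) < (n : ℝ) + 1 := by positivity
    rw [abs_div, abs_of_pos hpos, div_le_iff₀ hpos] at h1
    linarith
  have Z0 : ∀ (n : ℕ) u, 2 * ((n : ℝ) + 1) < |u| → a 0 ((n : ℝ) + 1) u = 0 := fun n u hu => by
    show _ * m _ = 0
    rw [hsupp n m u hm hu, mul_zero]
  have Z1 : ∀ (n : ℕ) u, 2 * ((n : ℝ) + 1) < |u| → a 1 ((n : ℝ) + 1) u = 0 := fun n u hu => by
    show _ * deriv m _ = 0
    rw [hsupp n _ u hm' hu, mul_zero]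
  have Z2 : ∀ (n : ℕ) u, 2 * ((n : ℝ) + 1) < |u| → a 2 ((n : ℝ) + 1) u = 0 := fun n u hu => by
    show _ * deriv (deriv m) _ = 0
    rw [hsupp n _ u hm'' hu, mul_zero]
  refine ⟨8 * (C * B), fun (n : ℕ) u => a 0 ((n : ℝ) + 1) u * ψ u,
    fun (n : ℕ) u => a 1 ((n : ℝ) + 1) u * ψ u + a 0 ((n : ℝ) + 1) u * ψ1 u,
    fun (n : ℕ) u => (a 2 ((n : ℝ) + 1) u * ψ u + a 1 ((n : ℝ) + 1) u * ψ1 u) +
      (a 1 ((n : ℝ) + 1) u * ψ1 u + a 0 ((n : ℝ) + 1) u * ψ2 u),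
    fun (n : ℕ) u => ((a 3 ((n : ℝ) + 1) u * ψ u + a 2 ((n : ℝ) + 1) u * ψ1 u) +
      (a 2 ((n : ℝ) + 1) u * ψ1 u + a 1 ((n : ℝ) + 1) u * ψ2 u)) +
      ((a 2 ((n : ℝ) + 1) u * ψ1 u + a 1 ((n : ℝ) + 1) u * ψ2 u) +
      (a 1 ((n : ℝ) + 1) u * ψ2 u + a 0 ((n : ℝ) + 1) u * ψ3 u)), ?_, ?_, ?_⟩
  · intro n
    set N : ℝ := (n : ℝ) + 1 with hN
    have hCB : 0 ≤ C * B := by positivity
    have e0 : ∀ u, HasDerivAt (fun u => a 0 N u * ψ u) (a 1 N u * ψ u + a 0 N u * ψ1 u) u :=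
      fun u => (hd0 N u).mul (hk.d1 u)
    have e1 : ∀ u, HasDerivAt (fun u => a 1 N u * ψ u + a 0 N u * ψ1 u)
        ((a 2 N u * ψ u + a 1 N u * ψ1 u) + (a 1 N u * ψ1 u + a 0 N u * ψ2 u)) u :=
      fun u => ((hd1 N u).mul (hk.d1 u)).add ((hd0 N u).mul (hk.d2 u))
    have e2 : ∀ u, HasDerivAt (fun u => (a 2 N u * ψ u + a 1 N u * ψ1 u) +
        (a 1 N u * ψ1 u + a 0 N u * ψ2 u))
        (((a 3 N u * ψ u + a 2 N u * ψ1 u) + (a 2 N u * ψ1 u + a 1 N u * ψ2 u)) +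
        ((a 2 N u * ψ1 u + a 1 N u * ψ2 u) + (a 1 N u * ψ2 u + a 0 N u * ψ3 u))) u :=
      fun u => (((hd2 N u).mul (hk.d1 u)).add ((hd1 N u).mul (hk.d2 u))).add
        (((hd1 N u).mul (hk.d2 u)).add ((hd0 N u).mul (d3 u)))
    have t0 : ∀ u (x : ℂ), ‖x‖ ≤ C → (1 + u ^ 2) * ‖x * ψ u‖ ≤ C * B := fun u x hx =>
      kd_sum hx hCn (hk.b0 u) rfl
    have t1 : ∀ u (x : ℂ), ‖x‖ ≤ C → (1 + u ^ 2) * ‖x * ψ1 u‖ ≤ C * B := fun u x hx =>
      kd_sum hx hCn (hk.b1 u) rfl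
    have t2 : ∀ u (x : ℂ), ‖x‖ ≤ C → (1 + u ^ 2) * ‖x * ψ2 u‖ ≤ C * B := fun u x hx =>
      kd_sum hx hCn (hk.b2 u) rfl
    have r0 : ∀ u (x : ℂ), ‖x‖ ≤ C → ‖x * ψ u‖ ≤ C * B := fun u x hx => by
      rw [norm_mul]; exact mul_le_mul hx (hk.n0 u) (norm_nonneg _) hCn
    have r1 : ∀ u (x : ℂ), ‖x‖ ≤ C → ‖x * ψ1 u‖ ≤ C * B := fun u x hx => by
      rw [norm_mul]; exact mul_le_mul hx (hk.n1 u) (norm_nonneg _) hCn
    have r2 : ∀ u (x : ℂ), ‖x‖ ≤ C → ‖x * ψ2 u‖ ≤ C * B := fun u x hx => by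
      rw [norm_mul]; exact mul_le_mul hx (hk.n2 u) (norm_nonneg _) hCn
    have r3 : ∀ u (x : ℂ), ‖x‖ ≤ C → ‖x * ψ3 u‖ ≤ C * B := fun u x hx => by
      rw [norm_mul]; exact mul_le_mul hx (hb3 u) (norm_nonneg _) hCn
    refine ⟨⟨e0, e1, ?_, by positivity, ?_, ?_, ?_⟩, e2, ?_, ?_, ?_, ?_⟩
    · exact continuous_iff_continuousAt.2 fun u => (e2 u).continuousAt
    · intro u
      have := t0 u _ (A0 n u)
      linarith
    · intro u
      have h1 := t0 u _ (A1 n u)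
      have h2 := t1 u _ (A0 n u)
      calc (1 + u ^ 2) * ‖a 1 N u * ψ u + a 0 N u * ψ1 u‖
          ≤ (1 + u ^ 2) * (‖a 1 N u * ψ u‖ + ‖a 0 N u * ψ1 u‖) := by
            gcongr
            exact norm_add_le _ _
        _ = (1 + u ^ 2) * ‖a 1 N u * ψ u‖ + (1 + u ^ 2) * ‖a 0 N u * ψ1 u‖ := by ring
        _ ≤ 8 * (C * B) := by linarith
    · intro u
      have h1 := t0 u _ (A2 n u)
      have h2 := t1 u _ (A1 n u)
      have h3 := t2 u _ (A0 n u)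
      calc (1 + u ^ 2) * ‖(a 2 N u * ψ u + a 1 N u * ψ1 u) + (a 1 N u * ψ1 u + a 0 N u * ψ2 u)‖
          ≤ (1 + u ^ 2) * ((‖a 2 N u * ψ u‖ + ‖a 1 N u * ψ1 u‖) +
            (‖a 1 N u * ψ1 u‖ + ‖a 0 N u * ψ2 u‖)) := by
            gcongr
            exact (norm_add_le _ _).trans (add_le_add (norm_add_le _ _) (norm_add_le _ _))
        _ = (1 + u ^ 2) * ‖a 2 N u * ψ u‖ + (1 + u ^ 2) * ‖a 1 N u * ψ1 u‖ +
            (1 + u ^ 2) * ‖a 1 N u * ψ1 u‖ + (1 + u ^ 2) * ‖a 0 N u * ψ2 u‖ := by ring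
        _ ≤ 8 * (C * B) := by linarith
    · intro u
      have h1 := r0 u _ (A3 n u)
      have h2 := r1 u _ (A2 n u)
      have h3 := r2 u _ (A1 n u)
      have h4 := r3 u _ (A0 n u)
      refine ((norm_add_le _ _).trans (add_le_add ((norm_add_le _ _).trans (add_le_add
        (norm_add_le _ _) (norm_add_le _ _))) ((norm_add_le _ _).trans (add_le_add
        (norm_add_le _ _) (norm_add_le _ _))))).trans ?_
      linarith
    · intro u hu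
      simp only [Z0 n u hu, zero_mul]
    · intro u hu
      simp only [Z0 n u hu, Z1 n u hu, zero_mul, add_zero]
    · intro u hu
      simp only [Z0 n u hu, Z1 n u hu, Z2 n u hu, zero_mul, add_zero]
  · intro n u hu
    have hpos : (0 : ℝ) < (n : ℝ) + 1 := by positivity
    have hlt : |u / ((n : ℝ) + 1)| < 1 := by
      rw [abs_div, abs_of_pos hpos, div_lt_one hpos]
      exact hu
    have h0 : a 0 ((n : ℝ) + 1) u = 1 := by
      show _ * m _ = 1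
      rw [hm1 _ hlt.le, pow_zero, mul_one]
    have h1 : a 1 ((n : ℝ) + 1) u = 0 := by
      show _ * deriv m _ = 0
      have h2 : m =ᶠ[𝓝 (u / ((n : ℝ) + 1))] fun _ => 1 := by
        have h3 : {v : ℝ | |v| < 1} ∈ 𝓝 (u / ((n : ℝ) + 1)) :=
          (isOpen_lt continuous_abs continuous_const).mem_nhds hlt
        filter_upwards [h3] with v hv
        exact hm1 v (le_of_lt hv)
      rw [h2.deriv_eq, deriv_const, mul_zero]
    simp only [h0, h1, one_mul, zero_mul, zero_add, and_self]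
  · intro hψ n
    have h1 : ContDiff ℝ ∞ (a 0 ((n : ℝ) + 1)) := by
      show ContDiff ℝ ∞ (fun u : ℝ => (((((n : ℝ) + 1 : ℝ) : ℂ)⁻¹) ^ 0) * m (u / ((n : ℝ) + 1)))
      exact contDiff_const.mul (hm.smooth.comp (by fun_prop))
    exact h1.mul hψ

/-- the double primitive is affine for decaying kernels -/
theorem aff_limit0 {g : ℝ × ℝ → ℂ} {M : ℝ} (hg : Bdd g M) {B : ℝ} {ψ ψ1 ψ2 ψ3 : ℝ → ℂ}
    (hk : Kd B ψ ψ1 ψ2) (d3 : ∀ u, HasDerivAt ψ2 (ψ3 u) u) (hb3 : ∀ u, ‖ψ3 u‖ ≤ B)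
    (hψ : ContDiff ℝ ∞ ψ)
    (hall : ∀ (P B : ℝ) (φ φ1 φ2 φ3 : ℝ → ℂ), Kc P B φ φ1 φ2 φ3 → ContDiff ℝ ∞ φ →
      Aff (w g φ φ1)) :
    Aff (w g ψ ψ1) := by
  obtain ⟨B', Φ, Φ1, Φ2, Φ3, hΦ, heq, hsm⟩ := trunc hk d3 hb3
  have hlim : ∀ t : ℝ, Tendsto (fun n : ℕ => w g (Φ n) (Φ1 n) t) atTop (𝓝 (w g ψ ψ1 t)) := by
    intro t
    unfold w
    refine tendsto_integral_of_dominated_convergence
      (fun z => M * (2 * B' * (4 * t ^ 2 * (1 + t ^ 2) ^ 2 + 1)) * W t z) ?_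
      ((W_int t).const_mul _) ?_ ?_
    · intro n
      exact (gq_int hg (hΦ n).toKd t).aestronglyMeasurable
    · intro n
      exact Eventually.of_forall fun z => gq_bound hg (hΦ n).toKd t z
    · refine Eventually.of_forall fun z => ?_
      refine tendsto_const_nhds.congr' ?_
      obtain ⟨k, hk1⟩ := exists_nat_gt (max |z.1| |z.1 + t * z.2|)
      filter_upwards [eventually_ge_atTop k] with n hn
      have hn1 : (k : ℝ) ≤ n := by exact_mod_cast hn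
      have a1 := heq n z.1 (by
        have := le_max_left |z.1| |z.1 + t * z.2|
        linarith)
      have a2 := heq n (z.1 + t * z.2) (by
        have := le_max_right |z.1| |z.1 + t * z.2|
        linarith)
      unfold q
      rw [a1.1, a1.2, a2.1]
  intro t
  have h1 := hlim t
  have h2 : Tendsto (fun n : ℕ => w g (Φ n) (Φ1 n) t) atTop
      (𝓝 (w g ψ ψ1 0 + t • (w g ψ ψ1 1 - w g ψ ψ1 0))) := by
    have h3 := (hlim 0).add (((hlim 1).sub (hlim 0)).const_smul t)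
    refine h3.congr fun n => ?_
    exact (hall _ _ _ _ _ _ (hΦ n) (hsm hψ n) t).symm
  exact tendsto_nhds_unique h1 h2

theorem win_moment0 {R : ℝ} {m : ℝ → ℂ} (h : Win R m) : ∫ t, deriv m t = 0 :=
  integral_eq_zero_of_hasDerivAt_of_integrable (fun t => win_hasDerivAt h t) h.deriv.integrable
    h.integrable

theorem win_moment1 {R : ℝ} {m : ℝ → ℂ} (h : Win R m) :
    Integrable (fun t : ℝ => (t : ℂ) * deriv (deriv m) t) ∧
      ∫ t : ℝ, (t : ℂ) * deriv (deriv m) t = 0 := by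
  have hi : ∀ μ : ℝ → ℂ, Win R μ → Integrable (fun t : ℝ => (t : ℂ) * μ t) := by
    intro μ hμ
    have hc : Continuous (fun t : ℝ => (t : ℂ) * μ t) :=
      Complex.continuous_ofReal.mul hμ.smooth.continuous
    refine hc.integrable_of_hasCompactSupport ?_
    exact hμ.cpt.mul_left (f := fun t : ℝ => (t : ℂ))
  refine ⟨hi _ h.deriv.deriv, ?_⟩
  have hd : ∀ t : ℝ, HasDerivAt (fun t : ℝ => (t : ℂ) * deriv m t - m t)
      ((t : ℂ) * deriv (deriv m) t) t := by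
    intro t
    have h1 : HasDerivAt (fun t : ℝ => (t : ℂ)) 1 t := by
      simpa using (hasDerivAt_id t).ofReal_comp
    have h2 := (h1.mul (win_hasDerivAt h.deriv t)).sub (win_hasDerivAt h t)
    refine h2.congr_deriv ?_
    ring
  exact integral_eq_zero_of_hasDerivAt_of_integrable hd (hi _ h.deriv.deriv)
    ((hi _ h.deriv).sub h.integrable)

theorem dens_smooth {κ : ℝ → ℂ} (hκ : Dens κ) : ContDiff ℝ ∞ (𝓕 κ : ℝ → ℂ) := by
  let G : SchwartzMap ℝ ℂ := 𝓕 (hκ.cpt.toSchwartzMap hκ.smooth)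
  have hG : (fun z => G z) = (𝓕 κ : ℝ → ℂ) := by
    funext z
    show (𝓕 (hκ.cpt.toSchwartzMap hκ.smooth) : SchwartzMap ℝ ℂ) z = _
    rw [SchwartzMap.fourier_coe]
    rfl
  rw [← hG]
  exact G.smooth _

/-- kernels from densities -/
theorem dens_kd {κ : ℝ → ℂ} (hκ : Dens κ) : ∃ κ' κ2 : ℝ → ℂ, Dens κ' ∧ Dens κ2 ∧
    (κ = fun u : ℝ => (-2 * π * I * u) * κ' u) ∧ (κ' = fun u : ℝ => (-2 * π * I * u) * κ2 u) ∧
    ∃ B : ℝ, Kd B (𝓕 κ2 : ℝ → ℂ) (𝓕 κ') (𝓕 κ) ∧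
      (∀ u, HasDerivAt (𝓕 κ : ℝ → ℂ) (𝓕 (fun u : ℝ => (-2 * π * I * u) * κ u) u) u) ∧
      ∀ u, ‖𝓕 (fun u : ℝ => (-2 * π * I * u) * κ u) u‖ ≤ B := by
  obtain ⟨κ', hκ', he⟩ := hκ.anti
  obtain ⟨κ2, hκ2, he2⟩ := hκ'.anti
  have hκ3 : Dens (fun u : ℝ => (-2 * π * I * u) * κ u) := by
    refine hκ.mul (g := fun u : ℝ => (-2 * π * I * u)) ?_
    exact contDiff_const.mul Complex.ofRealCLM.contDiff
  refine ⟨κ', κ2, hκ', hκ2, he, he2, ?_⟩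
  obtain ⟨C0, c0, hC0⟩ := hκ2.decay 2
  obtain ⟨C1, c1, hC1⟩ := hκ'.decay 2
  obtain ⟨C2, c2, hC2⟩ := hκ.decay 2
  obtain ⟨C3, c3, hC3⟩ := hκ3.decay 0
  have hw : ∀ (X : ℂ) (C : ℝ) (u : ℝ), ‖X‖ * (1 + |u|) ^ 2 ≤ C → (1 + u ^ 2) * ‖X‖ ≤ C := by
    intro X C u h
    refine le_trans ?_ h
    rw [mul_comm]
    refine mul_le_mul_of_nonneg_left ?_ (norm_nonneg _)
    nlinarith [abs_nonneg u, sq_abs u]
  refine ⟨C0 + C1 + C2 + C3, ?_, fun u => hκ.hasDerivAt u, fun u => ?_⟩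
  · refine ⟨fun u => ?_, fun u => ?_, hκ.continuous, by positivity, fun u => ?_, fun u => ?_,
      fun u => ?_⟩
    · have := hκ2.hasDerivAt u
      rwa [← he2] at this
    · have := hκ'.hasDerivAt u
      rwa [← he] at this
    · have := hw _ _ u (hC0 u)
      linarith
    · have := hw _ _ u (hC1 u)
      linarith
    · have := hw _ _ u (hC2 u)
      linarith
  · have := hC3 u
    rw [pow_zero, mul_one] at this
    linarith

/-- the pairing vanishes -/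
theorem T_of_aff0 {g : ℝ × ℝ → ℂ} {M : ℝ} (hg : Bdd g M)
    (hall : ∀ (P B : ℝ) (φ φ1 φ2 φ3 : ℝ → ℂ), Kc P B φ φ1 φ2 φ3 → ContDiff ℝ ∞ φ →
      Aff (w g φ φ1))
    {R : ℝ} {m κ : ℝ → ℂ} (hm : Win R m) (hκ : Dens κ) : T g m κ = 0 := by
  obtain ⟨κ', κ2, hκ', hκ2, he, he2, B, hk, d3, hb3⟩ := dens_kd hκ
  have haff := aff_limit0 hg hk d3 hb3 (dens_smooth hκ2) hall
  have hB := hk.B0
  have hM := hg.M0
  have hm2 := hm.deriv.deriv
  obtain ⟨hi1, hz1⟩ := win_moment1 hm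
  have hz0 := win_moment0 hm.deriv
  set μ : ℝ → ℂ := deriv (deriv m) with hμ
  set ψ : ℝ → ℂ := 𝓕 κ2 with hψ
  set ψ1 : ℝ → ℂ := 𝓕 κ' with hψ1
  -- the kernel
  have hker : ∀ y : ℝ × ℝ, y.2 ≠ 0 → H m κ y.1 y.2 = ∫ t : ℝ, μ t * q ψ ψ1 t y := by
    intro y hy
    have hyC : (y.2 : ℂ) ≠ 0 := by exact_mod_cast hy
    have p1 := H_parts hm hκ hκ' he y.1 y.2
    have p2 := H_parts hm.deriv hκ' hκ2 he2 y.1 y.2
    have p3 : H m κ y.1 y.2 = ((y.2 : ℂ) ^ 2)⁻¹ * H μ κ2 y.1 y.2 := by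
      have : (y.2 : ℂ) ^ 2 * H m κ y.1 y.2 = H μ κ2 y.1 y.2 := by
        rw [sq, mul_assoc, p1, mul_neg, p2, neg_neg]
      rw [← this]
      field_simp
    have i1 : Integrable (fun τ : ℝ => μ τ * ψ (y.1 + τ * y.2)) := H_integrable hm2 hκ2 y.1 y.2
    have i2 := hm2.integrable
    by_cases hs : |y.2| < 1
    · have e1 : ∀ t : ℝ, μ t * q ψ ψ1 t y = ((y.2 : ℂ) ^ 2)⁻¹ * (μ t * ψ (y.1 + t * y.2) -
          (ψ y.1 * μ t + (y.2 * ψ1 y.1) * ((t : ℂ) * μ t))) := by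
        intro t
        unfold q
        rw [if_pos hs]
        simp only [Complex.real_smul]
        push_cast
        ring
      simp_rw [e1]
      have i3 : Integrable (fun t : ℝ => ψ y.1 * μ t + (y.2 * ψ1 y.1) * ((t : ℂ) * μ t)) :=
        (i2.const_mul _).add (hi1.const_mul _)
      rw [integral_const_mul, integral_sub i1 i3,
        integral_add (i2.const_mul _) (hi1.const_mul _), integral_const_mul, integral_const_mul,
        hz0, hz1, mul_zero, mul_zero, add_zero, sub_zero, p3]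
      rfl
    · have e1 : ∀ t : ℝ, μ t * q ψ ψ1 t y =
          ((y.2 : ℂ) ^ 2)⁻¹ * (μ t * ψ (y.1 + t * y.2)) := by
        intro t
        unfold q
        rw [if_neg hs]
        simp only [Complex.real_smul]
        push_cast
        ring
      simp_rw [e1]
      rw [integral_const_mul, p3]
      rfl
  have hne : ∀ᵐ z : ℝ × ℝ, z.2 ≠ 0 := by
    rw [Measure.volume_eq_prod]
    exact Measure.quasiMeasurePreserving_snd.ae (Measure.ae_ne volume (0 : ℝ))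
  have h1 : T g m κ = ∫ y : ℝ × ℝ, ∫ t : ℝ, μ t * (g y * q ψ ψ1 t y) := by
    unfold T
    refine integral_congr_ae ?_
    filter_upwards [hne] with y hy
    rw [hker y hy, ← integral_const_mul]
    refine integral_congr_ae (Eventually.of_forall fun t => ?_)
    simp only
    ring
  have hmeas : Measurable (fun x : ℝ × (ℝ × ℝ) => μ x.1 * (g x.2 * q ψ ψ1 x.1 x.2)) := by
    refine Measurable.mul ?_ (Measurable.mul ?_ (q_meas hk.c0 hk.c1))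
    · exact (hm2.smooth.continuous.comp continuous_fst).measurable
    · exact (hg.cont.comp continuous_snd).measurable
  have hint : Integrable (fun x : ℝ × (ℝ × ℝ) => μ x.1 * (g x.2 * q ψ ψ1 x.1 x.2))
      ((volume : Measure ℝ).prod (volume : Measure (ℝ × ℝ))) := by
    rw [integrable_prod_iff hmeas.aestronglyMeasurable]
    refine ⟨Eventually.of_forall fun t => (gq_int hg hk t).const_mul (μ t), ?_⟩
    have hdom : Integrable (fun t : ℝ => ‖μ t‖ *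
        (M * (2 * B * (4 * t ^ 2 * (1 + t ^ 2) ^ 2 + 1)) * (π * π))) := by
      have hc : Continuous (fun t : ℝ => ‖μ t‖ *
          (M * (2 * B * (4 * t ^ 2 * (1 + t ^ 2) ^ 2 + 1)) * (π * π))) := by
        have := hm2.smooth.continuous
        fun_prop
      refine hc.integrable_of_hasCompactSupport ?_
      exact (hm2.cpt.norm).mul_right
    refine hdom.mono' hmeas.aestronglyMeasurable.norm.integral_prod_right'
      (Eventually.of_forall fun t => ?_)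
    rw [Real.norm_of_nonneg (integral_nonneg fun _ => norm_nonneg _)]
    have h2 : ∀ y : ℝ × ℝ, ‖μ t * (g y * q ψ ψ1 t y)‖ ≤
        ‖μ t‖ * (M * (2 * B * (4 * t ^ 2 * (1 + t ^ 2) ^ 2 + 1)) * W t y) := by
      intro y
      rw [norm_mul]
      exact mul_le_mul_of_nonneg_left (gq_bound hg hk t y) (norm_nonneg _)
    refine (integral_mono ((gq_int hg hk t).const_mul _).norm
      (((W_int t).const_mul _).const_mul _) h2).trans (le_of_eq ?_)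
    rw [integral_const_mul, integral_const_mul, W_integral]
  rw [h1, ← integral_integral_swap (f := fun (t : ℝ) (y : ℝ × ℝ) => μ t * (g y * q ψ ψ1 t y)) hint]
  have h3 : ∀ t : ℝ, ∫ y : ℝ × ℝ, μ t * (g y * q ψ ψ1 t y) =
      (w g ψ ψ1 0) * μ t + (w g ψ ψ1 1 - w g ψ ψ1 0) * ((t : ℂ) * μ t) := by
    intro t
    rw [integral_const_mul]
    have h4 := haff t
    have h5 : w g ψ ψ1 t = ∫ y : ℝ × ℝ, g y * q ψ ψ1 t y := rfl
    rw [← h5, h4, Complex.real_smul]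
    ring
  simp_rw [h3]
  rw [integral_add (hm2.integrable.const_mul _) (hi1.const_mul _), integral_const_mul,
    integral_const_mul, hz0, hz1, mul_zero, mul_zero, add_zero]

theorem T_of_aff {g : ℝ × ℝ → ℂ} {M : ℝ} (hg : Bdd g M)
    (hall : ∀ (P B : ℝ) (φ φ1 φ2 φ3 : ℝ → ℂ), Kc P B φ φ1 φ2 φ3 → Aff (w g φ φ1))
    {R : ℝ} {m κ : ℝ → ℂ} (hm : Win R m) (hκ : Dens κ) : T g m κ = 0 :=
  T_of_aff0 hg (fun P B φ φ1 φ2 φ3 h _ => hall P B φ φ1 φ2 φ3 h) hm hκ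

end Pool.Agent.Helper34.Radon.Bd
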