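import Pool.Agent.Helper34.Radon.Bd.Q

set_option autoImplicit false

open MeasureTheory Real Complex Filter Topology Set
open scoped FourierTransform ContDiff ENNReal

noncomputable section

namespace Pool.Agent.Helper34.Radon.Bd

/-- kernel of the second difference -/
def kh (φ : ℝ → ℂ) (h : ℝ) (z : ℝ × ℝ) : ℝ :=
  (z.2 ^ 2)⁻¹ * ‖φ (z.1 + h * z.2) + φ (z.1 - h * z.2) - 2 * φ z.1‖

/-- majorant of the second difference kernel -/
def V (z : ℝ × ℝ) : ℝ := W 0 z + W 1 z + W (-1) z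

theorem V_nonneg (z : ℝ × ℝ) : 0 ≤ V z := by
  unfold V
  have := W_nonneg 0 z
  have := W_nonneg 1 z
  have := W_nonneg (-1) z
  linarith

theorem V_int : Integrable V := ((W_int 0).add (W_int 1)).add (W_int (-1))

theorem kh_nonneg (φ : ℝ → ℂ) (h : ℝ) (z : ℝ × ℝ) : 0 ≤ kh φ h z := by
  unfold kh
  positivity

theorem kh_bound {B : ℝ} {ψ ψ1 ψ2 : ℝ → ℂ} (hk : Kd B ψ ψ1 ψ2) (h p s : ℝ) :
    kh ψ h (p, s) ≤ 16 * B * h ^ 2 * V (p, h * s) := by
  have hB := hk.B0
  have hV := V_nonneg (p, h * s)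
  unfold kh
  simp only
  rcases eq_or_ne s 0 with hs0 | hs0
  · subst hs0
    simp only [ne_eq, OfNat.ofNat_ne_zero, not_false_eq_true, zero_pow, inv_zero, zero_mul]
    positivity
  have hs2 : 0 < s ^ 2 := by positivity
  set σ : ℝ := h * s with hσ
  have W0 := W_nonneg 0 (p, σ)
  have W1 := W_nonneg 1 (p, σ)
  have W2 := W_nonneg (-1) (p, σ)
  rcases le_or_gt |σ| 1 with hc | hc
  · have hC : ∀ u, |u - p| ≤ |σ| → ‖ψ2 u‖ ≤ B * (4 / (1 + p ^ 2)) := by
      intro u hu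
      have h2 := hk.b2 u
      have h3 := peetre p (u - p)
      have h4 : (u - p) ^ 2 ≤ 1 := by
        rw [← sq_abs (u - p)]
        exact pow_le_one₀ (abs_nonneg _) (hu.trans hc)
      have h5 : p + (u - p) = u := by ring
      rw [h5] at h3
      have h6 : 1 + p ^ 2 ≤ 4 * (1 + u ^ 2) := by
        refine h3.trans ?_
        nlinarith [sq_nonneg u]
      have h7 : ‖ψ2 u‖ ≤ B / (1 + u ^ 2) := by
        rw [le_div_iff₀ (by positivity)]
        linarith
      refine h7.trans ?_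
      rw [div_eq_mul_inv]
      refine mul_le_mul_of_nonneg_left ?_ hB
      rw [le_div_iff₀ (by positivity), inv_mul_le_iff₀ (by positivity)]
      linarith
    have a1 := taylor hk.d1 hk.d2 hC
    have a2 := taylor hk.d1 hk.d2 (a := p) (v := -σ) (C := B * (4 / (1 + p ^ 2))) (fun u hu =>
      hC u (by rwa [abs_neg] at hu))
    have e1 : ψ (p + σ) + ψ (p - σ) - 2 * ψ p =
        (ψ (p + σ) - ψ p - σ • ψ1 p) + (ψ (p + -σ) - ψ p - (-σ) • ψ1 p) := by
      rw [neg_smul, ← sub_eq_add_neg p σ]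
      ring
    have h8 : ‖ψ (p + σ) + ψ (p - σ) - 2 * ψ p‖ ≤ 8 * B * σ ^ 2 * (1 + p ^ 2)⁻¹ := by
      rw [e1]
      refine (norm_add_le _ _).trans ((add_le_add a1 a2).trans (le_of_eq ?_))
      field_simp
      ring
    have h9 : σ ^ 2 ≤ 1 := by
      rw [← sq_abs]
      exact pow_le_one₀ (abs_nonneg _) hc
    have h10 : (1 : ℝ) ≤ 2 * (1 + σ ^ 2)⁻¹ := by
      rw [← div_eq_mul_inv, le_div_iff₀ (by positivity)]
      linarith
    calc (s ^ 2)⁻¹ * ‖ψ (p + σ) + ψ (p - σ) - 2 * ψ p‖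
        ≤ (s ^ 2)⁻¹ * (8 * B * σ ^ 2 * (1 + p ^ 2)⁻¹) := by gcongr
      _ = 8 * B * h ^ 2 * (1 + p ^ 2)⁻¹ * 1 := by
          rw [hσ]
          field_simp
      _ ≤ 8 * B * h ^ 2 * (1 + p ^ 2)⁻¹ * (2 * (1 + σ ^ 2)⁻¹) := by gcongr
      _ = 16 * B * h ^ 2 * W 0 (p, σ) := by
          unfold W
          simp only [zero_mul, add_zero]
          ring
      _ ≤ 16 * B * h ^ 2 * V (p, σ) := by
          unfold V
          gcongr
          linarith
  · have h0 : h ≠ 0 := by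
      intro h0
      rw [hσ, h0, zero_mul, abs_zero] at hc
      linarith
    have hσ1 : 1 ≤ σ ^ 2 := by
      rw [← sq_abs]
      exact one_le_pow₀ hc.le
    have hr : (s ^ 2)⁻¹ ≤ h ^ 2 * (2 * (1 + σ ^ 2)⁻¹) := by
      have h3 : (s ^ 2)⁻¹ = h ^ 2 * (σ ^ 2)⁻¹ := by
        rw [hσ]
        field_simp
      rw [h3]
      refine mul_le_mul_of_nonneg_left ?_ (sq_nonneg h)
      rw [inv_le_iff_one_le_mul₀ (by positivity)]
      have h6 : 2 * (1 + σ ^ 2)⁻¹ * σ ^ 2 = 2 * σ ^ 2 / (1 + σ ^ 2) := by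
        field_simp
      rw [h6, one_le_div (by positivity)]
      linarith
    have hn : ∀ u, ‖ψ u‖ ≤ B * (1 + u ^ 2)⁻¹ := by
      intro u
      rw [← div_eq_mul_inv, le_div_iff₀ (by positivity)]
      have := hk.b0 u
      linarith
    have h4 : ‖ψ (p + σ) + ψ (p - σ) - 2 * ψ p‖ ≤
        B * (1 + (p + σ) ^ 2)⁻¹ + B * (1 + (p - σ) ^ 2)⁻¹ + 2 * (B * (1 + p ^ 2)⁻¹) := by
      refine (norm_sub_le _ _).trans (add_le_add ((norm_add_le _ _).trans
        (add_le_add (hn _) (hn _))) ?_)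
      rw [norm_mul]
      have : ‖(2 : ℂ)‖ = 2 := by simp
      rw [this]
      gcongr
      exact hn p
    calc (s ^ 2)⁻¹ * ‖ψ (p + σ) + ψ (p - σ) - 2 * ψ p‖
        ≤ (h ^ 2 * (2 * (1 + σ ^ 2)⁻¹)) *
          (B * (1 + (p + σ) ^ 2)⁻¹ + B * (1 + (p - σ) ^ 2)⁻¹ + 2 * (B * (1 + p ^ 2)⁻¹)) := by
            gcongr
      _ = 2 * B * h ^ 2 * W 1 (p, σ) + 2 * B * h ^ 2 * W (-1) (p, σ) +
          4 * B * h ^ 2 * W 0 (p, σ) := by
          unfold W
          simp only [zero_mul, add_zero, one_mul, neg_mul, ← sub_eq_add_neg]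
          ring
      _ ≤ 16 * B * h ^ 2 * W 1 (p, σ) + 16 * B * h ^ 2 * W (-1) (p, σ) +
          16 * B * h ^ 2 * W 0 (p, σ) := by
          gcongr <;> norm_num
      _ = _ := by
          unfold V
          ring

theorem W_scale (r : ℝ) {h : ℝ} (hh : 0 < h) (z : ℝ × ℝ) :
    W r (z.1, h * z.2) ≤ (1 + (h ^ 2)⁻¹) * W (r * h) z := by
  unfold W
  simp only
  have e1 : z.1 + r * (h * z.2) = z.1 + r * h * z.2 := by ring
  rw [e1, ← mul_assoc]
  refine mul_le_mul_of_nonneg_right ?_ (by positivity)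
  rw [inv_le_iff_one_le_mul₀ (by positivity)]
  have h1 : (1 + (h ^ 2)⁻¹) * (1 + z.2 ^ 2)⁻¹ * (1 + (h * z.2) ^ 2) =
      ((1 + (h ^ 2)⁻¹) * (1 + (h * z.2) ^ 2)) / (1 + z.2 ^ 2) := by
    field_simp
  rw [h1, one_le_div (by positivity)]
  have h2 : (1 + (h ^ 2)⁻¹) * (1 + (h * z.2) ^ 2) =
      1 + z.2 ^ 2 + (h ^ 2)⁻¹ + h ^ 2 * z.2 ^ 2 := by
    field_simp
    ring
  rw [h2]
  have h3 : 0 ≤ (h ^ 2)⁻¹ := by positivity
  have h4 : 0 ≤ h ^ 2 * z.2 ^ 2 := by positivity
  linarith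

theorem W_cont (t : ℝ) : Continuous (W t) := by
  unfold W
  refine Continuous.mul (Continuous.inv₀ (by fun_prop) fun z => by positivity)
    (Continuous.inv₀ (by fun_prop) fun z => by positivity)

theorem V_cont : Continuous V := ((W_cont 0).add (W_cont 1)).add (W_cont (-1))

theorem V_scale_int {h : ℝ} (hh : 0 < h) : Integrable (fun z : ℝ × ℝ => V (z.1, h * z.2)) := by
  have h1 : Integrable (fun z : ℝ × ℝ => (1 + (h ^ 2)⁻¹) * (W (0 * h) z + W (1 * h) z +
      W (-1 * h) z)) := (((W_int _).add (W_int _)).add (W_int _)).const_mul _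
  refine h1.mono' ?_ (Eventually.of_forall fun z => ?_)
  · exact (V_cont.comp (by fun_prop)).aestronglyMeasurable
  · rw [Real.norm_of_nonneg (V_nonneg _)]
    have a0 := W_scale 0 hh z
    have a1 := W_scale 1 hh z
    have a2 := W_scale (-1) hh z
    unfold V
    linarith

theorem V_le (p σ : ℝ) : V (p, σ) ≤ 3 * (1 + σ ^ 2)⁻¹ := by
  have h1 : ∀ r, W r (p, σ) ≤ (1 + σ ^ 2)⁻¹ := by
    intro r
    unfold W
    simp only
    have h2 : (1 + (p + r * σ) ^ 2)⁻¹ ≤ 1 := inv_le_one_of_one_le₀ (by nlinarith [sq_nonneg (p + r * σ)])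
    have h3 : 0 ≤ (1 + σ ^ 2)⁻¹ := by positivity
    nlinarith
  unfold V
  linarith [h1 0, h1 1, h1 (-1)]

theorem V_sec_int (p : ℝ) : Integrable (fun σ : ℝ => V (p, σ)) := by
  have h1 : Integrable (fun σ : ℝ => 3 * (1 + σ ^ 2)⁻¹) := integrable_inv_one_add_sq.const_mul 3
  refine h1.mono' ?_ (Eventually.of_forall fun z => ?_)
  · exact (V_cont.comp (by fun_prop)).aestronglyMeasurable
  · rw [Real.norm_of_nonneg (V_nonneg _)]
    exact V_le p z

/-- smoothness in the sense of Zygmund -/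
theorem smooth {g : ℝ × ℝ → ℂ} {M : ℝ} (hg : Bdd g M) {B : ℝ} {ψ ψ1 ψ2 : ℝ → ℂ}
    (hk : Kd B ψ ψ1 ψ2) {t : ℝ} (hl : ∀ᵐ p : ℝ, Integrable (fun s : ℝ => g (p - t * s, s))) :
    ∀ ε > 0, ∃ η > 0, ∀ h : ℝ, 0 < h → h < η →
      ‖w g ψ ψ1 (t + h) + w g ψ ψ1 (t - h) - 2 * w g ψ ψ1 t‖ ≤ ε * h := by
  have hB := hk.B0
  have hM := hg.M0
  have hc0 := hk.c0
  have hgc := hg.cont
  -- the sheared kernel
  set Kf : ℝ → ℝ × ℝ → ℝ := fun h z => ‖g (z.1 - t * z.2, z.2)‖ * kh ψ h z with hKf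
  have hKm : ∀ h, Measurable (Kf h) := by
    intro h
    rw [hKf]
    unfold kh
    simp only
    refine Measurable.mul ?_ (Measurable.mul ?_ ?_)
    · refine Continuous.measurable ?_
      fun_prop
    · fun_prop
    · refine Continuous.measurable ?_
      fun_prop
  have hKb : ∀ h, ∀ z, Kf h z ≤ M * (16 * B * h ^ 2) * V (z.1, h * z.2) := by
    intro h z
    have h1 := kh_bound hk h z.1 z.2
    have h2 := hg.bd (z.1 - t * z.2, z.2)
    calc Kf h z ≤ M * (16 * B * h ^ 2 * V (z.1, h * z.2)) :=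
          mul_le_mul h2 h1 (kh_nonneg _ _ _) hM
      _ = _ := by ring
  have hK0 : ∀ h z, 0 ≤ Kf h z := fun h z => mul_nonneg (norm_nonneg _) (kh_nonneg _ _ _)
  have hKi : ∀ h, 0 < h → Integrable (Kf h) := by
    intro h hh
    refine ((V_scale_int hh).const_mul (M * (16 * B * h ^ 2))).mono'
      (hKm h).aestronglyMeasurable (Eventually.of_forall fun z => ?_)
    rw [Real.norm_of_nonneg (hK0 h z)]
    exact hKb h z
  -- first step
  have hstep : ∀ h, 0 < h → ‖w g ψ ψ1 (t + h) + w g ψ ψ1 (t - h) - 2 * w g ψ ψ1 t‖ ≤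
      ∫ p : ℝ, ∫ s : ℝ, Kf h (p, s) := by
    intro h hh
    have i1 := gq_int hg hk (t + h)
    have i2 := gq_int hg hk (t - h)
    have i3 := (gq_int hg hk t).const_mul 2
    have i12 : Integrable (fun z => g z * q ψ ψ1 (t + h) z + g z * q ψ ψ1 (t - h) z) := i1.add i2
    have e1 : w g ψ ψ1 (t + h) + w g ψ ψ1 (t - h) - 2 * w g ψ ψ1 t =
        ∫ z, g z * (q ψ ψ1 (t + h) z + q ψ ψ1 (t - h) z - 2 * q ψ ψ1 t z) := by
      unfold w
      rw [← integral_add i1 i2, ← integral_const_mul, ← integral_sub i12 i3]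
      refine integral_congr_ae (Eventually.of_forall fun z => ?_)
      simp only
      ring
    rw [e1, ← (shear_mp t).integral_comp (shear_emb t)]
    have e2 : ∫ p : ℝ, ∫ s : ℝ, Kf h (p, s) = ∫ z : ℝ × ℝ, Kf h z := by
      rw [Measure.volume_eq_prod, integral_prod]
      have := hKi h hh
      rwa [Measure.volume_eq_prod] at this
    rw [e2]
    refine norm_integral_le_of_norm_le (hKi h hh) (Eventually.of_forall fun z => ?_)
    rw [norm_mul]
    refine mul_le_mul_of_nonneg_left (le_of_eq ?_) (norm_nonneg _)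
    unfold q kh
    simp only
    have a1 : z.1 - t * z.2 + (t + h) * z.2 = z.1 + h * z.2 := by ring
    have a2 : z.1 - t * z.2 + (t - h) * z.2 = z.1 - h * z.2 := by ring
    have a3 : z.1 - t * z.2 + t * z.2 = z.1 := by ring
    rw [a1, a2, a3]
    have e3 : ((z.2 ^ 2)⁻¹ : ℝ) • (ψ (z.1 + h * z.2) - (if |z.2| < 1 then
          ψ (z.1 - t * z.2) + ((t + h) * z.2) • ψ1 (z.1 - t * z.2) else 0)) +
        ((z.2 ^ 2)⁻¹ : ℝ) • (ψ (z.1 - h * z.2) - (if |z.2| < 1 then
          ψ (z.1 - t * z.2) + ((t - h) * z.2) • ψ1 (z.1 - t * z.2) else 0)) -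
        2 * (((z.2 ^ 2)⁻¹ : ℝ) • (ψ z.1 - (if |z.2| < 1 then
          ψ (z.1 - t * z.2) + (t * z.2) • ψ1 (z.1 - t * z.2) else 0))) =
        ((z.2 ^ 2)⁻¹ : ℝ) • (ψ (z.1 + h * z.2) + ψ (z.1 - h * z.2) - 2 * ψ z.1) := by
      simp only [Complex.real_smul]
      push_cast
      by_cases hz : |z.2| < 1
      · simp only [if_pos hz]
        ring
      · simp only [if_neg hz]
        ring
    rw [e3, norm_smul, Real.norm_of_nonneg (by positivity)]
  -- dominated convergence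
  have hlim : Tendsto (fun h : ℝ => ∫ p : ℝ, h⁻¹ * ∫ s : ℝ, Kf h (p, s)) (𝓝[>] 0) (𝓝 0) := by
    suffices hsuf : Tendsto (fun h : ℝ => ∫ p : ℝ, h⁻¹ * ∫ s : ℝ, Kf h (p, s)) (𝓝[>] 0)
        (𝓝 (∫ _ : ℝ, (0 : ℝ))) by
      simpa using hsuf
    have hVp : Integrable (fun p : ℝ => ∫ σ : ℝ, V (p, σ)) := by
      have := V_int
      rw [Measure.volume_eq_prod] at this
      exact this.integral_prod_left
    refine tendsto_integral_filter_of_dominated_convergence
      (fun p => (M * (16 * B)) * ∫ σ : ℝ, V (p, σ)) ?_ ?_ (hVp.const_mul _) ?_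
    · filter_upwards [self_mem_nhdsWithin] with h hh
      have := hKi h hh
      rw [Measure.volume_eq_prod] at this
      exact (this.integral_prod_left.const_mul _).aestronglyMeasurable
    · filter_upwards [self_mem_nhdsWithin] with h hh
      refine Eventually.of_forall fun p => ?_
      have hh0 : (0 : ℝ) < h := hh
      have hn : 0 ≤ ∫ s : ℝ, Kf h (p, s) := integral_nonneg fun s => hK0 h _
      rw [Real.norm_of_nonneg (by positivity)]
      have h1 : ∫ s : ℝ, Kf h (p, s) ≤ ∫ s : ℝ, M * (16 * B * h ^ 2) * V (p, h * s) := by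
        refine integral_mono_of_nonneg (Eventually.of_forall fun s => hK0 h _) ?_
          (Eventually.of_forall fun s => hKb h (p, s))
        exact ((V_sec_int p).comp_mul_left' hh0.ne').const_mul _
      have h2 := Measure.integral_comp_mul_left (fun σ : ℝ => V (p, σ)) h
      rw [abs_of_pos (inv_pos.2 hh0), smul_eq_mul] at h2
      rw [integral_const_mul, h2] at h1
      calc h⁻¹ * ∫ s : ℝ, Kf h (p, s)
          ≤ h⁻¹ * (M * (16 * B * h ^ 2) * (h⁻¹ * ∫ σ : ℝ, V (p, σ))) := by gcongr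
        _ = M * (16 * B) * ∫ σ : ℝ, V (p, σ) := by
            field_simp
    · filter_upwards [hl] with p hp
      have hup : ∀ h : ℝ, 0 < h → h⁻¹ * ∫ s : ℝ, Kf h (p, s) ≤
          h * (48 * B * ∫ s : ℝ, ‖g (p - t * s, s)‖) := by
        intro h hh0
        have h1 : ∫ s : ℝ, Kf h (p, s) ≤ ∫ s : ℝ, (48 * B * h ^ 2) * ‖g (p - t * s, s)‖ := by
          refine integral_mono_of_nonneg (Eventually.of_forall fun s => hK0 h _)
            (hp.norm.const_mul _) (Eventually.of_forall fun s => ?_)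
          have h2 := kh_bound hk h p s
          have h3 := V_le p (h * s)
          have h4 : (1 + (h * s) ^ 2)⁻¹ ≤ 1 :=
            inv_le_one_of_one_le₀ (by nlinarith [sq_nonneg (h * s)])
          have h5 : kh ψ h (p, s) ≤ 48 * B * h ^ 2 := by
            refine h2.trans ?_
            calc 16 * B * h ^ 2 * V (p, h * s) ≤ 16 * B * h ^ 2 * (3 * 1) := by
                  gcongr
                  exact h3.trans (by gcongr)
              _ = 48 * B * h ^ 2 := by ring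
          simp only
          rw [mul_comm (48 * B * h ^ 2)]
          exact mul_le_mul_of_nonneg_left h5 (norm_nonneg _)
        rw [integral_const_mul] at h1
        calc h⁻¹ * ∫ s : ℝ, Kf h (p, s)
            ≤ h⁻¹ * (48 * B * h ^ 2 * ∫ s : ℝ, ‖g (p - t * s, s)‖) := by gcongr
          _ = _ := by
              field_simp
      have hsq : Tendsto (fun h : ℝ => h * (48 * B * ∫ s : ℝ, ‖g (p - t * s, s)‖))
          (𝓝[>] 0) (𝓝 0) := by
        have h1 : Continuous (fun h : ℝ => h * (48 * B * ∫ s : ℝ, ‖g (p - t * s, s)‖)) := by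
          fun_prop
        have h2 := h1.tendsto 0
        rw [zero_mul] at h2
        exact h2.mono_left nhdsWithin_le_nhds
      refine tendsto_of_tendsto_of_tendsto_of_le_of_le' tendsto_const_nhds hsq ?_ ?_
      · filter_upwards [self_mem_nhdsWithin] with h hh
        have hh0 : (0 : ℝ) < h := hh
        have hn : 0 ≤ ∫ s : ℝ, Kf h (p, s) := integral_nonneg fun s => hK0 h _
        positivity
      · filter_upwards [self_mem_nhdsWithin] with h hh
        exact hup h hh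
  intro ε hε
  have h1 := hlim.eventually (gt_mem_nhds hε)
  rw [eventually_nhdsWithin_iff, Metric.eventually_nhds_iff] at h1
  obtain ⟨η, hη, h2⟩ := h1
  refine ⟨η, hη, fun h hh hlt => ?_⟩
  have h3 := h2 (y := h) (by rwa [Real.dist_eq, sub_zero, abs_of_pos hh]) hh
  rw [integral_const_mul] at h3
  refine (hstep h hh).trans ?_
  rw [inv_mul_lt_iff₀ hh] at h3
  linarith

end Pool.Agent.Helper34.Radon.Bd
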