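import Pool.Agent.Helper34.Radon.Bd.Abs
import Pool.Agent.Helper34.Radon.Bd.Est
import Pool.Agent.Helper34.Radon.Bd.Smooth

set_option autoImplicit false

open MeasureTheory Real Complex Filter Topology Set
open scoped FourierTransform ContDiff ENNReal

noncomputable section

namespace Pool.Agent.Helper34.Radon.Bd

/-- the exceptional set has no isolated points -/
theorem perf {w : ℝ → ℂ} (hw : Continuous w) {t : ℝ}
    (h2 : ∀ ε > 0, ∃ η > 0, ∀ h : ℝ, 0 < h → h < η →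
      ‖w (t + h) + w (t - h) - 2 * w t‖ ≤ ε * h) (ht : t ∈ Kset w) :
    ∀ η > 0, ∃ t' ∈ Kset w, t' ≠ t ∧ |t' - t| < η := by
  intro η hη
  by_contra hne
  push Not at hne
  have hn : ∀ u, |u - t| < η → u ≠ t → u ∉ Kset w := by
    intro u hu hut huK
    exact absurd hu (not_lt.2 (hne u huK hut))
  obtain ⟨b1, hb1⟩ := gap hw (show t - η < t by linarith) (fun u hu => hn u (by
    rw [abs_lt]; constructor <;> linarith [hu.1, hu.2]) hu.2.ne)
  obtain ⟨b, hb⟩ := gap hw (show t < t + η by linarith) (fun u hu => hn u (by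
    rw [abs_lt]; constructor <;> linarith [hu.1, hu.2]) hu.1.ne')
  have hb2 : ∀ u ∈ Icc (t - η) t, w u = w t + (u - t) • b1 := by
    intro u hu
    rw [hb1 u hu, hb1 t ⟨by linarith, le_rfl⟩, add_assoc, ← add_smul]
    congr 2
    ring
  have hbb : b = b1 := by
    by_contra hne
    have hpos : 0 < ‖b - b1‖ := norm_pos_iff.2 (sub_ne_zero.2 hne)
    obtain ⟨η', hη', hs⟩ := h2 (‖b - b1‖ / 2) (half_pos hpos)
    set u : ℝ := min (η' / 2) η with hu
    have hu0 : 0 < u := lt_min (half_pos hη') hη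
    have hu1 : u < η' := lt_of_le_of_lt (min_le_left _ _) (by linarith)
    have hu2 : u ≤ η := min_le_right _ _
    have h1 := hs u hu0 hu1
    rw [hb (t + u) ⟨by linarith, by linarith⟩, hb2 (t - u) ⟨by linarith, by linarith⟩] at h1
    have e1 : w t + (t + u - t) • b + (w t + (t - u - t) • b1) - 2 * w t = u • (b - b1) := by
      have a1 : t + u - t = u := by ring
      have a2 : t - u - t = -u := by ring
      rw [a1, a2, neg_smul, smul_sub]
      ring
    rw [e1, norm_smul, Real.norm_of_nonneg hu0.le] at h1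
    nlinarith
  subst hbb
  apply ht
  refine ⟨η, hη, w t - t • b, b, fun u hu => ?_⟩
  rw [abs_lt] at hu
  have h3 : w u = w t + (u - t) • b := by
    rcases le_total t u with h4 | h4
    · exact hb u ⟨h4, by linarith⟩
    · exact hb2 u ⟨by linarith, h4⟩
  rw [h3, sub_smul]
  ring

/-- Baire category in a perfect set -/
theorem portion {K : Set ℝ} (hK : IsClosed K) (hne : K.Nonempty)
    (hperf : ∀ t ∈ K, ∀ η > 0, ∃ t' ∈ K, t' ≠ t ∧ |t' - t| < η)
    {D : Set ℝ} (hD : D.Countable) {ι : Type} [Countable ι] {F : ι → Set ℝ}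
    (hF : ∀ n, IsClosed (F n))
    (hcov : ∀ t ∈ K, t ∉ D → ∃ n, t ∈ F n) :
    ∃ n, ∃ t0 ∈ K, ∃ η > 0, ∀ t ∈ K, |t - t0| < η → t ∈ F n := by
  have : CompleteSpace K := hK.completeSpace_coe
  obtain ⟨tb, htb⟩ := hne
  have : Nonempty K := ⟨⟨tb, htb⟩⟩
  have : Countable D := hD.to_subtype
  have hB := nonempty_interior_of_iUnion_of_closed (X := K)
    (f := fun i : ι ⊕ D => Sum.elim (fun n : ι => (Subtype.val ⁻¹' (F n) : Set K))
      (fun d : D => (Subtype.val ⁻¹' ({(d : ℝ)} : Set ℝ) : Set K)) i)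
    (by
      rintro (n | d)
      · exact (hF n).preimage continuous_subtype_val
      · exact isClosed_singleton.preimage continuous_subtype_val) (by
      rw [eq_univ_iff_forall]
      intro x
      rw [mem_iUnion]
      by_cases hx : (x : ℝ) ∈ D
      · exact ⟨Sum.inr ⟨x, hx⟩, rfl⟩
      · obtain ⟨n, hn⟩ := hcov x x.2 hx
        exact ⟨Sum.inl n, hn⟩)
  obtain ⟨i, x, hx⟩ := hB
  rw [mem_interior_iff_mem_nhds, Metric.mem_nhds_iff] at hx
  obtain ⟨ε, hε, hball⟩ := hx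
  have hmem : ∀ t ∈ K, |t - x| < ε → ∃ y : K, (y : ℝ) = t ∧ y ∈ Metric.ball x ε := by
    intro t ht hd
    refine ⟨⟨t, ht⟩, rfl, ?_⟩
    rw [Metric.mem_ball, Subtype.dist_eq, Real.dist_eq]
    exact hd
  rcases i with n | d
  · refine ⟨n, x, x.2, ε, hε, fun t ht hd => ?_⟩
    obtain ⟨y, hy, hyb⟩ := hmem t ht hd
    have := hball hyb
    rw [← hy]
    exact this
  · exfalso
    obtain ⟨t', ht', hne', hlt⟩ := hperf x x.2 ε hε
    obtain ⟨y, hy, hyb⟩ := hmem t' ht' hlt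
    have h1 : (y : ℝ) = d := hball hyb
    have h2 : (x : ℝ) = d := hball (Metric.mem_ball_self hε)
    apply hne'
    rw [← hy, h1, h2]

theorem tail_tendsto {g : ℝ × ℝ → ℂ} {r t : ℝ} (ht : IntegrableOn g (St r t)) :
    Tendsto (fun k : ℕ => Ta g r t k) atTop (𝓝 0) := by
  have h1 := tendsto_setIntegral_of_antitone (μ := (volume : Measure (ℝ × ℝ)))
    (f := fun z => ‖g z‖) (s := fun k : ℕ => Tl r t (k : ℝ))
    (fun k => (Tl_open _ _ _).measurableSet) (by
      intro a b hab z hz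
      have h2 : (a : ℝ) ≤ b := by exact_mod_cast hab
      exact ⟨hz.1, lt_of_le_of_lt h2 hz.2⟩)
    ⟨0, IntegrableOn.mono_set ht.norm (Tl_subset _ _ _)⟩
  have h2 : (⋂ k : ℕ, Tl r t (k : ℝ)) = ∅ := by
    rw [eq_empty_iff_forall_notMem]
    intro z hz
    obtain ⟨n, hn⟩ := exists_nat_ge |z.2|
    rw [mem_iInter] at hz
    exact absurd (hz n).2 (not_lt.2 hn)
  rw [h2] at h1
  simpa [Ta] using h1

/-- pairing of a good direction with a kernel -/
theorem pair_zero {g : ℝ × ℝ → ℂ} {M : ℝ} (hg : Bdd g M) {P B : ℝ} {φ φ1 φ2 φ3 : ℝ → ℂ}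
    (h : Kc P B φ φ1 φ2 φ3) {δ : ℝ} (hδ : 0 < δ) {t : ℝ}
    (ht : IntegrableOn g (St (P + δ) t))
    (hz : ∀ᵐ p : ℝ, ∫ s : ℝ, g (p - t * s, s) = 0) :
    ∫ z : ℝ × ℝ, g z * φ2 (z.1 + t * z.2) = 0 := by
  obtain ⟨j0, k0⟩ := ind_int ht
  have i3 : Integrable (fun z : ℝ × ℝ => g z * φ2 (z.1 + t * z.2)) := by
    refine (j0.const_mul B).mono' ?_ (Eventually.of_forall fun z => ?_)
    · refine (hg.cont.mul (h.c2.comp (by fun_prop))).aestronglyMeasurable
    · rw [norm_mul]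
      by_cases hz : z ∈ St (P + δ) t
      · rw [indicator_of_mem hz, mul_one, mul_comm B]
        exact mul_le_mul_of_nonneg_left (h.n2 _) (norm_nonneg _)
      · have h2 : P + δ ≤ |z.1 + t * z.2| := by
          by_contra hlt
          exact hz (not_le.1 hlt)
        rw [h.s2 _ (by linarith), norm_zero, mul_zero, indicator_of_notMem hz]
        simp
  have h1 : ∫ z : ℝ × ℝ, g z * φ2 (z.1 + t * z.2) =
      ∫ z : ℝ × ℝ, g (z.1 - t * z.2, z.2) * φ2 z.1 := by
    rw [← (shear_mp t).integral_comp (shear_emb t)]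
    refine integral_congr_ae (Eventually.of_forall fun z => ?_)
    have h2 : z.1 - t * z.2 + t * z.2 = z.1 := by ring
    simp only [h2]
  have hint2 : Integrable (fun z : ℝ × ℝ => g (z.1 - t * z.2, z.2) * φ2 z.1)
      ((volume : Measure ℝ).prod volume) := by
    have := ((shear_mp t).integrable_comp_emb (shear_emb t)).2 i3
    refine this.congr (Eventually.of_forall fun z => ?_)
    have h2 : z.1 - t * z.2 + t * z.2 = z.1 := by ring
    simp only [Function.comp_apply, h2]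
  rw [h1, Measure.volume_eq_prod, integral_prod _ hint2]
  have h3 : (fun p : ℝ => ∫ s : ℝ, g (p - t * s, s) * φ2 p) =ᵐ[volume] fun _ => 0 := by
    filter_upwards [hz] with p hp
    rw [integral_mul_const, hp, zero_mul]
  rw [integral_congr_ae h3]
  simp

/-- the local lemma -/
theorem local_empty {g : ℝ × ℝ → ℂ} {M : ℝ} (hg : Bdd g M) {P B : ℝ} {φ φ1 φ2 φ3 : ℝ → ℂ}
    (h : Kc P B φ φ1 φ2 φ3) {δ : ℝ} (hδ : 0 < δ) {α β A : ℝ} (hA : 0 ≤ A)
    (hl : ∀ t : ℝ, ∀ᵐ p : ℝ, Integrable (fun s : ℝ => g (p - t * s, s)))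
    (hE : ∀ t ∈ Kset (w g φ φ1), t ∈ Ioo α β →
      IntegrableOn g (St (P + δ) t) ∧ Na g (P + δ) t ≤ A)
    (hz : ∀ᵐ t : ℝ, ∀ᵐ p : ℝ, ∫ s : ℝ, g (p - t * s, s) = 0) :
    ∀ t ∈ Ioo α β, t ∉ Kset (w g φ φ1) := by
  have hB := h.B0
  set C : ℝ := B * (1 + δ⁻¹ + (δ⁻¹) ^ 2) * (2 * A) with hC
  have hH : Hyp (w g φ φ1) (J g φ1) α β C := by
    refine ⟨w_continuous hg h.toKd, by positivity, ?_, fun t => smooth hg h.toKd (hl t)⟩
    intro t ht hti t' ht' hti'
    obtain ⟨a1, a2⟩ := hE t ht hti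
    obtain ⟨b1, b2⟩ := hE t' ht' hti'
    refine (quad hg h hδ a1 b1).trans ?_
    rw [hC]
    calc B * (1 + δ⁻¹ + (δ⁻¹) ^ 2) * (t' - t) ^ 2 * (Na g (P + δ) t + Na g (P + δ) t')
        ≤ B * (1 + δ⁻¹ + (δ⁻¹) ^ 2) * (t' - t) ^ 2 * (A + A) := by gcongr
      _ = _ := by ring
  refine hH.empty ?_
  -- the exceptional countable set
  set F : ℕ → ℕ → Set ℝ := fun n k =>
    {t | t ∈ Kset (w g φ φ1) ∧ t ∈ Ioo α β ∧ Ta g (P + δ) t k ≤ 1 / ((n : ℝ) + 1)} with hF
  set D : Set ℝ := ⋃ n, ⋃ k, {t ∈ F n k | 𝓝[F n k ∩ Ioi t] t = ⊥} with hD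
  have hDc : D.Countable := by
    rw [hD]
    refine countable_iUnion fun n => countable_iUnion fun k => ?_
    exact countable_setOfPred_isolated_right_within
  have hDn : ∀ᵐ t : ℝ, t ∉ D := by
    have := hDc.measure_zero (volume : Measure ℝ)
    exact measure_eq_zero_iff_ae_notMem.1 this
  filter_upwards [hDn, hz] with t htD htz htK hti ε hε η hη
  obtain ⟨a1, a2⟩ := hE t htK hti
  set C' : ℝ := B * (2 + δ⁻¹) with hC'
  have hC'0 : 0 ≤ C' := by positivity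
  obtain ⟨n, hn⟩ := exists_nat_gt (4 * C' / ε)
  have hn1 : C' * (2 * (1 / ((n : ℝ) + 1))) ≤ ε / 2 := by
    have hn0 : (0 : ℝ) < (n : ℝ) + 1 := by positivity
    rw [div_lt_iff₀ hε] at hn
    have : C' * (2 * (1 / ((n : ℝ) + 1))) = 2 * C' / ((n : ℝ) + 1) := by ring
    rw [this, div_le_iff₀ hn0]
    nlinarith
  have htail := tail_tendsto a1
  have hpos : (0 : ℝ) < 1 / ((n : ℝ) + 1) := by positivity
  obtain ⟨k, hk⟩ := (htail.eventually (gt_mem_nhds hpos)).exists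
  have htF : t ∈ F n k := ⟨htK, hti, hk.le⟩
  have hnb : 𝓝[F n k ∩ Ioi t] t ≠ ⊥ := by
    intro hbot
    apply htD
    rw [hD, mem_iUnion]
    refine ⟨n, ?_⟩
    rw [mem_iUnion]
    exact ⟨k, htF, hbot⟩
  set η' : ℝ := min η (min (δ / ((k : ℝ) + 1)) (ε / (2 * (B * k * A + 1)))) with hη'
  have hη'0 : 0 < η' := lt_min hη (lt_min (by positivity) (by positivity))
  have hclose : ∃ t' ∈ F n k ∩ Ioi t, |t' - t| < η' := by
    by_contra hne
    push Not at hne
    apply hnb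
    rw [← empty_mem_iff_bot, mem_nhdsWithin_iff_exists_mem_nhds_inter]
    refine ⟨Metric.ball t η', Metric.ball_mem_nhds t hη'0, ?_⟩
    rintro u ⟨hu1, hu2⟩
    rw [Metric.mem_ball, Real.dist_eq] at hu1
    exact absurd hu1 (not_lt.2 (hne u hu2))
  obtain ⟨t', ⟨⟨ht'K, ht'i, ht'T⟩, ht'gt⟩, hlt⟩ := hclose
  obtain ⟨b1, b2⟩ := hE t' ht'K ht'i
  refine ⟨t', ht'K, ht'i, (ne_of_gt ht'gt), lt_of_lt_of_le hlt (min_le_left _ _), ?_⟩
  have hk0 : (0 : ℝ) ≤ k := Nat.cast_nonneg k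
  have g1 : |t' - t| < δ / ((k : ℝ) + 1) :=
    lt_of_lt_of_le hlt ((min_le_right _ _).trans (min_le_left _ _))
  have g2 : |t' - t| < ε / (2 * (B * k * A + 1)) :=
    lt_of_lt_of_le hlt ((min_le_right _ _).trans (min_le_right _ _))
  have g3 : |t' - t| * k < δ := by
    rw [lt_div_iff₀ (by positivity)] at g1
    have := abs_nonneg (t' - t)
    nlinarith
  have hzero := pair_zero hg h hδ a1 htz
  refine (lin hg h hδ hk0 g3 a1 b1 hzero).trans ?_
  have g4 : B * k * A * |t' - t| ≤ ε / 2 := by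
    rw [lt_div_iff₀ (by positivity)] at g2
    have := abs_nonneg (t' - t)
    nlinarith
  have g5 : Ta g (P + δ) t k + Ta g (P + δ) t' k ≤ 2 * (1 / ((n : ℝ) + 1)) := by
    linarith [hk.le]
  calc B * k * (t' - t) ^ 2 * Na g (P + δ) t +
        B * (2 + δ⁻¹) * |t' - t| * (Ta g (P + δ) t k + Ta g (P + δ) t' k)
      ≤ B * k * (t' - t) ^ 2 * A + B * (2 + δ⁻¹) * |t' - t| * (2 * (1 / ((n : ℝ) + 1))) := by
        gcongr
    _ = (B * k * A * |t' - t|) * |t' - t| + (C' * (2 * (1 / ((n : ℝ) + 1)))) * |t' - t| := by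
        rw [← sq_abs (t' - t), hC']
        ring
    _ ≤ (ε / 2) * |t' - t| + (ε / 2) * |t' - t| := by gcongr
    _ = ε * |t' - t| := by ring

/-- directions with bounded mass in a strip form a closed set -/
theorem strip_closed {g : ℝ × ℝ → ℂ} (hg : Continuous g) (c r : ℝ) (n : ℕ) :
    IsClosed {t : ℝ | ∫⁻ z : ℝ × ℝ, ({z : ℝ × ℝ | |z.1 + t * z.2 - c| < r}).indicator
      (fun z => ‖g z‖ₑ) z ≤ n} := by
  refine IsSeqClosed.isClosed ?_
  intro u t hu ht
  have hopen : ∀ s : ℝ, IsOpen {z : ℝ × ℝ | |z.1 + s * z.2 - c| < r} := fun s =>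
    isOpen_lt (f := fun z : ℝ × ℝ => |z.1 + s * z.2 - c|) (by fun_prop) continuous_const
  have hmeas : ∀ s : ℝ, Measurable
      (({z : ℝ × ℝ | |z.1 + s * z.2 - c| < r}).indicator (fun z => ‖g z‖ₑ)) := by
    intro s
    exact hg.enorm.measurable.indicator (hopen s).measurableSet
  have h1 := lintegral_liminf_le (μ := (volume : Measure (ℝ × ℝ))) (u := atTop)
    (fun i => hmeas (u i))
  have h2 : ∫⁻ z : ℝ × ℝ, ({z : ℝ × ℝ | |z.1 + t * z.2 - c| < r}).indicator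
      (fun z => ‖g z‖ₑ) z ≤ ∫⁻ z : ℝ × ℝ, liminf (fun i =>
        ({z : ℝ × ℝ | |z.1 + u i * z.2 - c| < r}).indicator (fun z => ‖g z‖ₑ) z) atTop := by
    refine lintegral_mono fun z => ?_
    by_cases hz : z ∈ {z : ℝ × ℝ | |z.1 + t * z.2 - c| < r}
    · have h3 : ∀ᶠ i in atTop, z ∈ {z : ℝ × ℝ | |z.1 + u i * z.2 - c| < r} := by
        have h4 : Continuous (fun s : ℝ => |z.1 + s * z.2 - c|) := by fun_prop
        have h5 := (h4.tendsto t).comp ht
        exact h5.eventually (gt_mem_nhds hz)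
      have h6 : Tendsto (fun i => ({z : ℝ × ℝ | |z.1 + u i * z.2 - c| < r}).indicator
          (fun z => ‖g z‖ₑ) z) atTop (𝓝 ‖g z‖ₑ) := by
        refine tendsto_const_nhds.congr' ?_
        filter_upwards [h3] with i hi
        exact (indicator_of_mem (show z ∈ {z : ℝ × ℝ | |z.1 + u i * z.2 - c| < r} from hi)
          (fun z => ‖g z‖ₑ)).symm
      rw [h6.liminf_eq, indicator_of_mem hz]
    · rw [indicator_of_notMem hz]
      exact zero_le
  refine (h2.trans h1).trans ?_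
  exact liminf_le_of_frequently_le' (Frequently.of_forall fun i => hu i)

theorem St_eq (r t : ℝ) : St r t = {z : ℝ × ℝ | |z.1 + t * z.2 - 0| < r} := by
  unfold St
  simp only [sub_zero]

theorem strip_mem {g : ℝ × ℝ → ℂ} (hg : Continuous g) {r t : ℝ}
    (n : ℕ) : (∫⁻ z : ℝ × ℝ, (St r t).indicator (fun z => ‖g z‖ₑ) z ≤ n) →
      IntegrableOn g (St r t) ∧ Na g r t ≤ n := by
  intro h
  rw [lintegral_indicator (St_open _ _).measurableSet] at h
  have hi : IntegrableOn g (St r t) :=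
    ⟨hg.aestronglyMeasurable, lt_of_le_of_lt h (ENNReal.natCast_lt_top n)⟩
  refine ⟨hi, ?_⟩
  unfold Na
  rw [integral_norm_eq_lintegral_enorm hi.aestronglyMeasurable]
  refine ENNReal.toReal_le_of_le_ofReal (by positivity) ?_
  rw [ENNReal.ofReal_natCast]
  exact h

theorem strip_cover {g : ℝ × ℝ → ℂ} {r t : ℝ} (h : IntegrableOn g (St r t)) :
    ∃ n : ℕ, ∫⁻ z : ℝ × ℝ, (St r t).indicator (fun z => ‖g z‖ₑ) z ≤ n := by
  rw [lintegral_indicator (St_open _ _).measurableSet]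
  have h1 : ∫⁻ z in St r t, ‖g z‖ₑ < ⊤ := h.2
  obtain ⟨n, hn⟩ := ENNReal.exists_nat_gt h1.ne
  exact ⟨n, hn.le⟩

/-- affine functions -/
def Aff (w : ℝ → ℂ) : Prop := ∀ t : ℝ, w t = w 0 + t • (w 1 - w 0)

theorem aff_of_empty {w : ℝ → ℂ} (hw : Continuous w) (h : ∀ t, t ∉ Kset w) : Aff w := by
  intro t
  have hcd : -|t| - 1 < |t| + 2 := by linarith [abs_nonneg t]
  obtain ⟨b, hb⟩ := gap hw hcd (fun u _ => h u)
  have h0 := hb 0 ⟨by linarith [abs_nonneg t], by linarith [abs_nonneg t]⟩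
  have h1 := hb 1 ⟨by linarith [abs_nonneg t], by linarith [abs_nonneg t]⟩
  have ht := hb t ⟨by linarith [neg_abs_le t], by linarith [le_abs_self t]⟩
  rw [h0, h1, ht]
  simp only [Complex.real_smul]
  push_cast
  ring

/-- the double primitive is affine -/
theorem w_aff {g : ℝ × ℝ → ℂ} {M : ℝ} (hg : Bdd g M) {P B : ℝ} {φ φ1 φ2 φ3 : ℝ → ℂ}
    (h : Kc P B φ φ1 φ2 φ3)
    (hl : ∀ t : ℝ, ∀ᵐ p : ℝ, Integrable (fun s : ℝ => g (p - t * s, s)))
    (hs : {t : ℝ | ¬ IntegrableOn g (St (P + 1) t)}.Countable)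
    (hz : ∀ᵐ t : ℝ, ∀ᵐ p : ℝ, ∫ s : ℝ, g (p - t * s, s) = 0) : Aff (w g φ φ1) := by
  have hwc := w_continuous hg h.toKd
  refine aff_of_empty hwc ?_
  by_contra hne
  push Not at hne
  have hne' : (Kset (w g φ φ1)).Nonempty := by
    obtain ⟨t, ht⟩ := hne
    exact ⟨t, ht⟩
  obtain ⟨n, t0, ht0, η, hη, hn⟩ := portion (Kset_closed _) hne'
    (fun t ht => perf hwc (smooth hg h.toKd (hl t)) ht) hs
    (F := fun n : ℕ => {t : ℝ | ∫⁻ z : ℝ × ℝ, (St (P + 1) t).indicator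
      (fun z => ‖g z‖ₑ) z ≤ n})
    (fun n => by
      have := strip_closed hg.cont 0 (P + 1) n
      simp_rw [← St_eq] at this
      exact this)
    (fun t _ htD => by
      have : IntegrableOn g (St (P + 1) t) := by
        by_contra hcon
        exact htD hcon
      exact strip_cover this)
  refine local_empty hg h one_pos (α := t0 - η) (β := t0 + η) (A := n) (Nat.cast_nonneg n) hl
    ?_ hz t0 ⟨by linarith, by linarith⟩ ht0
  intro t ht hti
  refine strip_mem hg.cont n (hn t ht ?_)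
  rw [abs_lt]
  constructor <;> linarith [hti.1, hti.2]

end Pool.Agent.Helper34.Radon.Bd
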