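import Pool.Agent.Helper34.Radon.Limit

set_option autoImplicit false

open MeasureTheory Real Complex Filter Topology Set
open scoped FourierTransform ContDiff ENNReal

noncomputable section

namespace Pool.Agent.Helper34.Radon.Bd

/-- kernels with two decaying derivatives -/
structure Kd (B : ℝ) (ψ ψ1 ψ2 : ℝ → ℂ) : Prop where
  d1 : ∀ u, HasDerivAt ψ (ψ1 u) u
  d2 : ∀ u, HasDerivAt ψ1 (ψ2 u) u
  c2 : Continuous ψ2
  B0 : 0 ≤ B
  b0 : ∀ u, (1 + u ^ 2) * ‖ψ u‖ ≤ B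
  b1 : ∀ u, (1 + u ^ 2) * ‖ψ1 u‖ ≤ B
  b2 : ∀ u, (1 + u ^ 2) * ‖ψ2 u‖ ≤ B

theorem Kd.c0 {B : ℝ} {ψ ψ1 ψ2 : ℝ → ℂ} (h : Kd B ψ ψ1 ψ2) : Continuous ψ :=
  continuous_iff_continuousAt.2 fun u => (h.d1 u).continuousAt

theorem Kd.c1 {B : ℝ} {ψ ψ1 ψ2 : ℝ → ℂ} (h : Kd B ψ ψ1 ψ2) : Continuous ψ1 :=
  continuous_iff_continuousAt.2 fun u => (h.d2 u).continuousAt

theorem taylor {ψ ψ1 ψ2 : ℝ → ℂ} (d1 : ∀ u, HasDerivAt ψ (ψ1 u) u)
    (d2 : ∀ u, HasDerivAt ψ1 (ψ2 u) u) {a v C : ℝ}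
    (hC : ∀ u, |u - a| ≤ |v| → ‖ψ2 u‖ ≤ C) : ‖ψ (a + v) - ψ a - v • ψ1 a‖ ≤ C * v ^ 2 := by
  have hconv : Convex ℝ (Metric.closedBall a |v|) := convex_closedBall a |v|
  have hmem : ∀ u, u ∈ Metric.closedBall a |v| → |u - a| ≤ |v| := by
    intro u hu
    rwa [Metric.mem_closedBall, Real.dist_eq] at hu
  have ha : a ∈ Metric.closedBall a |v| := Metric.mem_closedBall_self (abs_nonneg v)
  have hav : a + v ∈ Metric.closedBall a |v| := by
    rw [Metric.mem_closedBall, Real.dist_eq]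
    simp
  have hC0 : 0 ≤ C := (norm_nonneg _).trans (hC a (by simp))
  have h1 : ∀ u ∈ Metric.closedBall a |v|, ‖ψ1 u - ψ1 a‖ ≤ C * |v| := by
    intro u hu
    have := hconv.norm_image_sub_le_of_norm_hasDerivWithin_le (f := ψ1) (f' := ψ2) (C := C)
      (fun x _ => (d2 x).hasDerivWithinAt) (fun x hx => hC x (hmem x hx)) ha hu
    rw [Real.norm_eq_abs] at this
    exact this.trans (mul_le_mul_of_nonneg_left (hmem u hu) hC0)
  have h2 : ∀ u ∈ Metric.closedBall a |v|,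
      HasDerivWithinAt (fun u : ℝ => ψ u - u • ψ1 a) (ψ1 u - ψ1 a) (Metric.closedBall a |v|) u := by
    intro u _
    have h3 : HasDerivAt (fun u : ℝ => u • ψ1 a) (ψ1 a) u := by
      have := (hasDerivAt_id u).smul_const (ψ1 a)
      simpa using this
    exact ((d1 u).sub h3).hasDerivWithinAt
  have h3 := hconv.norm_image_sub_le_of_norm_hasDerivWithin_le h2 h1 ha hav
  have e1 : ψ (a + v) - (a + v) • ψ1 a - (ψ a - a • ψ1 a) = ψ (a + v) - ψ a - v • ψ1 a := by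
    rw [add_smul]
    ring
  rw [e1, add_sub_cancel_left, Real.norm_eq_abs, mul_assoc, ← sq, sq_abs] at h3
  exact h3

/-- the regularised kernel -/
def q (ψ ψ1 : ℝ → ℂ) (t : ℝ) (z : ℝ × ℝ) : ℂ :=
  ((z.2 ^ 2)⁻¹ : ℝ) • (ψ (z.1 + t * z.2) -
    if |z.2| < 1 then ψ z.1 + (t * z.2) • ψ1 z.1 else 0)

/-- integrable majorant -/
def W (t : ℝ) (z : ℝ × ℝ) : ℝ := (1 + z.2 ^ 2)⁻¹ * (1 + (z.1 + t * z.2) ^ 2)⁻¹

theorem W_nonneg (t : ℝ) (z : ℝ × ℝ) : 0 ≤ W t z := by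
  unfold W
  positivity

theorem W_comp (t : ℝ) (z : ℝ × ℝ) :
    W t (z.1 - t * z.2, z.2) = (1 + z.2 ^ 2)⁻¹ * (1 + z.1 ^ 2)⁻¹ := by
  unfold W
  simp only [sub_add_cancel]

theorem W_base : Integrable (fun z : ℝ × ℝ => (1 + z.2 ^ 2)⁻¹ * (1 + z.1 ^ 2)⁻¹) := by
  have hi : Integrable (fun x : ℝ => (1 + x ^ 2)⁻¹) := integrable_inv_one_add_sq
  have h1 : Integrable (fun y : ℝ × ℝ => (1 + y.1 ^ 2)⁻¹ * (1 + y.2 ^ 2)⁻¹)
      ((volume : Measure ℝ).prod volume) := hi.mul_prod hi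
  rw [Measure.volume_eq_prod]
  refine h1.congr (Eventually.of_forall fun z => ?_)
  simp only
  ring

theorem W_int (t : ℝ) : Integrable (W t) := by
  rw [← (shear_mp t).integrable_comp_emb (shear_emb t)]
  refine W_base.congr (Eventually.of_forall fun z => ?_)
  simp only [Function.comp_apply]
  rw [W_comp]

theorem W_integral (t : ℝ) : ∫ z, W t z = π * π := by
  rw [← (shear_mp t).integral_comp (shear_emb t)]
  simp_rw [W_comp]
  have h1 := integral_prod_mul (μ := (volume : Measure ℝ)) (ν := (volume : Measure ℝ))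
    (fun x : ℝ => (1 + x ^ 2)⁻¹) (fun x : ℝ => (1 + x ^ 2)⁻¹)
  rw [integral_univ_inv_one_add_sq] at h1
  rw [← h1, Measure.volume_eq_prod]
  refine integral_congr_ae (Eventually.of_forall fun z => ?_)
  simp only
  ring

theorem peetre (x v : ℝ) : 1 + x ^ 2 ≤ 2 * (1 + v ^ 2) * (1 + (x + v) ^ 2) := by
  nlinarith [sq_nonneg (x + 2 * v), sq_nonneg (v * (x + v)), sq_nonneg v, sq_nonneg (x + v)]

theorem q_bound {B : ℝ} {ψ ψ1 ψ2 : ℝ → ℂ} (h : Kd B ψ ψ1 ψ2) (t : ℝ) (z : ℝ × ℝ) :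
    ‖q ψ ψ1 t z‖ ≤ 2 * B * (4 * t ^ 2 * (1 + t ^ 2) ^ 2 + 1) * W t z := by
  obtain ⟨x, s⟩ := z
  unfold q W
  simp only
  have hB := h.B0
  rcases eq_or_ne s 0 with hs0 | hs0
  · subst hs0
    simp only [ne_eq, OfNat.ofNat_ne_zero, not_false_eq_true, zero_pow, inv_zero, zero_smul,
      norm_zero]
    positivity
  have hs2 : 0 < s ^ 2 := by positivity
  rw [norm_smul, Real.norm_of_nonneg (by positivity)]
  by_cases hs : |s| < 1
  · rw [if_pos hs]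
    have hs1 : s ^ 2 ≤ 1 := by
      rw [← sq_abs]
      exact pow_le_one₀ (abs_nonneg s) hs.le
    have h1 : ‖ψ (x + t * s) - ψ x - (t * s) • ψ1 x‖ ≤
        (B * (2 * (1 + t ^ 2) / (1 + x ^ 2))) * (t * s) ^ 2 := by
      refine taylor h.d1 h.d2 fun u hu => ?_
      have h2 := h.b2 u
      have h3 := peetre x (u - x)
      have h4 : (u - x) ^ 2 ≤ t ^ 2 := by
        rw [← sq_abs (u - x), ← sq_abs t]
        refine pow_le_pow_left₀ (abs_nonneg _) (hu.trans ?_) 2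
        rw [abs_mul]
        calc |t| * |s| ≤ |t| * 1 := by gcongr
          _ = |t| := mul_one _
      have h5 : x + (u - x) = u := by ring
      rw [h5] at h3
      have h6 : 1 + x ^ 2 ≤ 2 * (1 + t ^ 2) * (1 + u ^ 2) := by
        refine h3.trans ?_
        gcongr
      have h7 : ‖ψ2 u‖ ≤ B / (1 + u ^ 2) := by
        rw [le_div_iff₀ (by positivity)]
        linarith
      refine h7.trans ?_
      rw [div_eq_mul_inv]
      refine mul_le_mul_of_nonneg_left ?_ hB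
      rw [le_div_iff₀ (by positivity), inv_mul_le_iff₀ (by positivity)]
      linarith
    rw [← sub_sub]
    have h2 := peetre (x + t * s) (-(t * s))
    have h3 : x + t * s + -(t * s) = x := by ring
    rw [h3, neg_sq] at h2
    have h4 : (t * s) ^ 2 ≤ t ^ 2 := by
      rw [mul_pow]
      nlinarith [sq_nonneg t]
    have h5 : 1 + (x + t * s) ^ 2 ≤ 2 * (1 + t ^ 2) * (1 + x ^ 2) := by
      refine h2.trans ?_
      gcongr
    calc (s ^ 2)⁻¹ * ‖ψ (x + t * s) - ψ x - (t * s) • ψ1 x‖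
        ≤ (s ^ 2)⁻¹ * ((B * (2 * (1 + t ^ 2) / (1 + x ^ 2))) * (t * s) ^ 2) := by gcongr
      _ = 2 * B * t ^ 2 * (1 + t ^ 2) * (1 + x ^ 2)⁻¹ := by
          field_simp
      _ ≤ 2 * B * t ^ 2 * (1 + t ^ 2) * (2 * (1 + t ^ 2) * (1 + (x + t * s) ^ 2)⁻¹) := by
          refine mul_le_mul_of_nonneg_left ?_ (by positivity)
          rw [inv_le_iff_one_le_mul₀ (by positivity)]
          have h6 : 2 * (1 + t ^ 2) * (1 + (x + t * s) ^ 2)⁻¹ * (1 + x ^ 2) =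
              2 * (1 + t ^ 2) * (1 + x ^ 2) / (1 + (x + t * s) ^ 2) := by
            field_simp
          rw [h6, one_le_div (by positivity)]
          exact h5
      _ = 2 * B * (4 * t ^ 2 * (1 + t ^ 2) ^ 2) * (2⁻¹ * (1 + (x + t * s) ^ 2)⁻¹) := by ring
      _ ≤ 2 * B * (4 * t ^ 2 * (1 + t ^ 2) ^ 2 + 1) * ((1 + s ^ 2)⁻¹ *
          (1 + (x + t * s) ^ 2)⁻¹) := by
          gcongr
          · linarith
          · linarith
  · rw [if_neg hs, sub_zero]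
    push Not at hs
    have hs1 : 1 ≤ s ^ 2 := by
      rw [← sq_abs]
      exact one_le_pow₀ hs
    have h1 := h.b0 (x + t * s)
    have h2 : ‖ψ (x + t * s)‖ ≤ B * (1 + (x + t * s) ^ 2)⁻¹ := by
      rw [← div_eq_mul_inv, le_div_iff₀ (by positivity)]
      linarith
    have h3 : (s ^ 2)⁻¹ ≤ 2 * (1 + s ^ 2)⁻¹ := by
      rw [inv_le_iff_one_le_mul₀ (by positivity)]
      have h6 : 2 * (1 + s ^ 2)⁻¹ * s ^ 2 = 2 * s ^ 2 / (1 + s ^ 2) := by
        field_simp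
      rw [h6, one_le_div (by positivity)]
      linarith
    calc (s ^ 2)⁻¹ * ‖ψ (x + t * s)‖
        ≤ (2 * (1 + s ^ 2)⁻¹) * (B * (1 + (x + t * s) ^ 2)⁻¹) := by gcongr
      _ = 2 * B * 1 * ((1 + s ^ 2)⁻¹ * (1 + (x + t * s) ^ 2)⁻¹) := by ring
      _ ≤ _ := by
          gcongr
          have : 0 ≤ 4 * t ^ 2 * (1 + t ^ 2) ^ 2 := by positivity
          linarith

theorem q_meas {ψ ψ1 : ℝ → ℂ} (h0 : Continuous ψ) (h1 : Continuous ψ1) :
    Measurable (fun y : ℝ × (ℝ × ℝ) => q ψ ψ1 y.1 y.2) := by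
  unfold q
  have e0 : Measurable (fun y : ℝ × (ℝ × ℝ) => ((y.2.2 ^ 2)⁻¹ : ℝ)) := by fun_prop
  refine e0.smul ?_
  refine Measurable.sub (Continuous.measurable (by fun_prop)) ?_
  refine Measurable.ite ?_ ?_ measurable_const
  · exact measurableSet_lt (by fun_prop) measurable_const
  · refine Continuous.measurable ?_
    fun_prop

theorem q_meas' {ψ ψ1 : ℝ → ℂ} (h0 : Continuous ψ) (h1 : Continuous ψ1) (t : ℝ) :
    Measurable (q ψ ψ1 t) :=
  (q_meas h0 h1).comp (measurable_const.prodMk measurable_id)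

/-- continuous bounded functions -/
structure Bdd (g : ℝ × ℝ → ℂ) (M : ℝ) : Prop where
  cont : Continuous g
  bd : ∀ z, ‖g z‖ ≤ M

theorem Bdd.M0 {g : ℝ × ℝ → ℂ} {M : ℝ} (h : Bdd g M) : 0 ≤ M :=
  (norm_nonneg _).trans (h.bd 0)

/-- the double primitive in the slope variable -/
def w (g : ℝ × ℝ → ℂ) (ψ ψ1 : ℝ → ℂ) (t : ℝ) : ℂ := ∫ z : ℝ × ℝ, g z * q ψ ψ1 t z

theorem gq_bound {g : ℝ × ℝ → ℂ} {M : ℝ} (hg : Bdd g M) {B : ℝ} {ψ ψ1 ψ2 : ℝ → ℂ}
    (h : Kd B ψ ψ1 ψ2) (t : ℝ) (z : ℝ × ℝ) :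
    ‖g z * q ψ ψ1 t z‖ ≤ M * (2 * B * (4 * t ^ 2 * (1 + t ^ 2) ^ 2 + 1)) * W t z := by
  rw [norm_mul, mul_assoc M]
  have h1 := q_bound h t z
  have h2 := hg.bd z
  have h3 := hg.M0
  calc ‖g z‖ * ‖q ψ ψ1 t z‖ ≤ M * (2 * B * (4 * t ^ 2 * (1 + t ^ 2) ^ 2 + 1) * W t z) :=
        mul_le_mul h2 h1 (norm_nonneg _) h3
    _ = _ := by ring

theorem gq_int {g : ℝ × ℝ → ℂ} {M : ℝ} (hg : Bdd g M) {B : ℝ} {ψ ψ1 ψ2 : ℝ → ℂ}
    (h : Kd B ψ ψ1 ψ2) (t : ℝ) : Integrable (fun z => g z * q ψ ψ1 t z) := by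
  refine ((W_int t).const_mul (M * (2 * B * (4 * t ^ 2 * (1 + t ^ 2) ^ 2 + 1)))).mono' ?_
    (Eventually.of_forall fun z => gq_bound hg h t z)
  exact (hg.cont.measurable.mul (q_meas' h.c0 h.c1 t)).aestronglyMeasurable

theorem w_continuous {g : ℝ × ℝ → ℂ} {M : ℝ} (hg : Bdd g M) {B : ℝ} {ψ ψ1 ψ2 : ℝ → ℂ}
    (h : Kd B ψ ψ1 ψ2) : Continuous (w g ψ ψ1) := by
  have hB := h.B0
  have hM := hg.M0
  have e1 : w g ψ ψ1 = fun t => ∫ z : ℝ × ℝ,
      g (z.1 - t * z.2, z.2) * q ψ ψ1 t (z.1 - t * z.2, z.2) := by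
    funext t
    unfold w
    rw [← (shear_mp t).integral_comp (shear_emb t)]
  rw [e1, continuous_iff_continuousAt]
  intro t0
  refine continuousAt_of_dominated (bound := fun z : ℝ × ℝ =>
    (M * (2 * B * (4 * (|t0| + 1) ^ 2 * (1 + (|t0| + 1) ^ 2) ^ 2 + 1))) *
      ((1 + z.2 ^ 2)⁻¹ * (1 + z.1 ^ 2)⁻¹)) ?_ ?_ ?_ ?_
  · refine Eventually.of_forall fun t => ?_
    have h1 : Measurable (fun z : ℝ × ℝ => (z.1 - t * z.2, z.2)) := by fun_prop
    exact ((hg.cont.measurable.comp h1).mul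
      ((q_meas' h.c0 h.c1 t).comp h1)).aestronglyMeasurable
  · filter_upwards [Metric.ball_mem_nhds t0 one_pos] with t ht
    rw [Metric.mem_ball, Real.dist_eq] at ht
    refine Eventually.of_forall fun z => ?_
    have h1 := gq_bound hg h t (z.1 - t * z.2, z.2)
    rw [W_comp] at h1
    refine h1.trans ?_
    have h2 : |t| ≤ |t0| + 1 := by
      have := abs_sub_abs_le_abs_sub t t0
      linarith
    have h3 : t ^ 2 ≤ (|t0| + 1) ^ 2 := by
      rw [← sq_abs t]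
      exact pow_le_pow_left₀ (abs_nonneg t) h2 2
    gcongr
  · exact W_base.const_mul _
  · refine Eventually.of_forall fun z => ?_
    refine Continuous.continuousAt ?_
    have hg1 : Continuous (fun t : ℝ => g (z.1 - t * z.2, z.2)) := hg.cont.comp (by fun_prop)
    have hc0 := h.c0
    have hc1 := h.c1
    have hg2 : Continuous (fun t : ℝ => q ψ ψ1 t (z.1 - t * z.2, z.2)) := by
      unfold q
      simp only [sub_add_cancel]
      by_cases hz : |z.2| < 1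
      · simp only [if_pos hz]
        fun_prop
      · simp only [if_neg hz]
        exact continuous_const
    exact hg1.mul hg2

end Pool.Agent.Helper34.Radon.Bd
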