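import Pool.Agent.Helper34.Radon.Bd.Anal

set_option autoImplicit false

open MeasureTheory Real Complex Filter Topology Set
open scoped FourierTransform ContDiff ENNReal

noncomputable section

namespace Pool.Agent.Helper34.Radon.Bd

/-- translate in the first variable -/
def tr (c : ℝ) (g : ℝ × ℝ → ℂ) (z : ℝ × ℝ) : ℂ := g (z.1 + c, z.2)

theorem w_tr (g : ℝ × ℝ → ℂ) (φ φ1 : ℝ → ℂ) (c t : ℝ) :
    w (tr c g) φ φ1 t = w g (fun u => φ (u - c)) (fun u => φ1 (u - c)) t := by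
  unfold w
  rw [← integral_add_right_eq_self (fun z : ℝ × ℝ => tr c g z * q φ φ1 t z) ((-c, 0) : ℝ × ℝ)]
  refine integral_congr_ae (Eventually.of_forall fun z => ?_)
  have e1 : tr c g (z + (-c, 0)) = g z := by
    unfold tr
    congr 1
    refine Prod.ext ?_ ?_
    · simp
    · simp
  have e2 : q φ φ1 t (z + (-c, 0)) = q (fun u => φ (u - c)) (fun u => φ1 (u - c)) t z := by
    unfold q
    have a1 : (z + ((-c, 0) : ℝ × ℝ)).2 = z.2 := by simp
    have a2 : (z + ((-c, 0) : ℝ × ℝ)).1 = z.1 - c := by simp [sub_eq_add_neg]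
    rw [a1, a2]
    have a3 : z.1 - c + t * z.2 = z.1 + t * z.2 - c := by ring
    rw [a3]
  simp only [e1, e2]

theorem q_int {B : ℝ} {ψ ψ1 ψ2 : ℝ → ℂ} (h : Kd B ψ ψ1 ψ2) (t : ℝ) : Integrable (q ψ ψ1 t) := by
  refine ((W_int t).const_mul (2 * B * (4 * t ^ 2 * (1 + t ^ 2) ^ 2 + 1))).mono'
    (q_meas' h.c0 h.c1 t).aestronglyMeasurable (Eventually.of_forall fun z => ?_)
  exact q_bound h t z

theorem win_zero {P : ℝ} {φ : ℝ → ℂ} (h : Win P φ) (u : ℝ) (hu : P < |u|) : φ u = 0 := by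
  by_contra hne
  exact absurd (h.supp u hne) (not_le.2 hu)

theorem win_wbdd {R : ℝ} {m : ℝ → ℂ} (h : Win R m) :
    ∃ C : ℝ, 0 ≤ C ∧ ∀ u, (1 + u ^ 2) * ‖m u‖ ≤ C := by
  have hc : Continuous (fun u : ℝ => ((1 + u ^ 2 : ℝ) : ℂ) * m u) := by
    have := h.smooth.continuous
    fun_prop
  obtain ⟨C, hC⟩ := (h.cpt.mul_left
    (f := fun u : ℝ => ((1 + u ^ 2 : ℝ) : ℂ))).exists_bound_of_continuous hc
  refine ⟨C, (norm_nonneg _).trans (hC 0), fun u => ?_⟩
  have := hC u
  rwa [Pi.mul_apply, norm_mul, Complex.norm_real, Real.norm_of_nonneg (by positivity)] at this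

theorem win_kc {P : ℝ} {φ : ℝ → ℂ} (h : Win P φ) :
    ∃ B : ℝ, Kc P B φ (deriv φ) (deriv (deriv φ)) (deriv (deriv (deriv φ))) := by
  obtain ⟨C0, c0, h0⟩ := win_wbdd h
  obtain ⟨C1, c1, h1⟩ := win_wbdd h.deriv
  obtain ⟨C2, c2, h2⟩ := win_wbdd h.deriv.deriv
  obtain ⟨C3, c3, h3⟩ := win_bdd h.deriv.deriv.deriv
  refine ⟨C0 + C1 + C2 + C3, ⟨fun u => win_hasDerivAt h u, fun u => win_hasDerivAt h.deriv u,
    h.deriv.deriv.smooth.continuous, by positivity, fun u => ?_, fun u => ?_, fun u => ?_⟩,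
    fun u => win_hasDerivAt h.deriv.deriv u, fun u => ?_, win_zero h, win_zero h.deriv,
    win_zero h.deriv.deriv⟩
  · have := h0 u
    linarith
  · have := h1 u
    linarith
  · have := h2 u
    linarith
  · have := h3 u
    linarith

/-- affine on an interval -/
def AffOn (w : ℝ → ℂ) (a c : ℝ) : Prop :=
  ∀ b ∈ Icc a c, w b = w a + ((b - a) / (c - a) : ℝ) • (w c - w a)

theorem AffOn.form {w : ℝ → ℂ} {a c : ℝ} (h : AffOn w a c) :
    ∃ A D : ℂ, ∀ b ∈ Icc a c, w b = A + b • D := by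
  refine ⟨w a - a • ((c - a)⁻¹ • (w c - w a)), (c - a)⁻¹ • (w c - w a), fun b hb => ?_⟩
  rw [h b hb, div_eq_mul_inv, mul_smul, sub_smul]
  ring

theorem affOn_of_form {w : ℝ → ℂ} {a c : ℝ} (hac : a < c) {A D : ℂ}
    (h : ∀ b ∈ Icc a c, w b = A + b • D) : AffOn w a c := by
  intro b hb
  rw [h b hb, h a ⟨le_rfl, hac.le⟩, h c ⟨hac.le, le_rfl⟩]
  have hne : c - a ≠ 0 := by linarith
  have hneC : (c : ℂ) - a ≠ 0 := by exact_mod_cast hne
  simp only [Complex.real_smul]
  push_cast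
  field_simp
  ring

theorem AffOn.mono {w : ℝ → ℂ} {a c a' c' : ℝ} (h : AffOn w a c) (ha : a ≤ a') (hc : c' ≤ c)
    (hac : a' < c') : AffOn w a' c' := by
  obtain ⟨A, D, hf⟩ := h.form
  exact affOn_of_form hac fun b hb => hf b ⟨ha.trans hb.1, hb.2.trans hc⟩

theorem affOn_of_gap {w : ℝ → ℂ} (hw : Continuous w) {a c : ℝ} (hac : a < c)
    (h : ∀ u ∈ Ioo a c, u ∉ Kset w) : AffOn w a c := by
  obtain ⟨b, hb⟩ := gap hw hac h
  refine affOn_of_form hac (A := w a - a • b) (D := b) fun u hu => ?_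
  rw [hb u hu, sub_smul]
  ring

theorem AffOn.notMem {w : ℝ → ℂ} {a c t : ℝ} (h : AffOn w a c) (ha : a < t) (hc : t < c) :
    t ∉ Kset w := by
  obtain ⟨A, D, hf⟩ := h.form
  intro ht
  apply ht
  refine ⟨min (t - a) (c - t), lt_min (by linarith) (by linarith), A, D, fun u hu => hf u ?_⟩
  have h1 := lt_of_lt_of_le hu (min_le_left _ _)
  have h2 := lt_of_lt_of_le hu (min_le_right _ _)
  rw [abs_lt] at h1 h2
  constructor <;> linarith

theorem AffOn.sum {ι : Type} (S : Finset ι) {w : ι → ℝ → ℂ} {a c : ℝ}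
    (h : ∀ i ∈ S, AffOn (w i) a c) : AffOn (fun t => ∑ i ∈ S, w i t) a c := by
  intro b hb
  simp only
  rw [← Finset.sum_sub_distrib, Finset.smul_sum, ← Finset.sum_add_distrib]
  exact Finset.sum_congr rfl fun i hi => h i hi b hb

/-- the uniform exceptional set -/
def Kall (g : ℝ × ℝ → ℂ) : Set ℝ :=
  {t | ¬ ∃ η > 0, ∀ (P : ℝ) (φ : ℝ → ℂ), Win P φ → AffOn (w g φ (deriv φ)) (t - η) (t + η)}

theorem notMem_Kall {g : ℝ × ℝ → ℂ} {t : ℝ} (h : t ∉ Kall g) :
    ∃ η > 0, ∀ (P : ℝ) (φ : ℝ → ℂ), Win P φ → AffOn (w g φ (deriv φ)) (t - η) (t + η) := by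
  by_contra hne
  exact h hne

theorem Kall_closed (g : ℝ × ℝ → ℂ) : IsClosed (Kall g) := by
  have h : IsOpen (Kall g)ᶜ := by
    rw [Metric.isOpen_iff]
    intro t ht
    obtain ⟨η, hη, h⟩ := notMem_Kall ht
    refine ⟨η / 2, half_pos hη, fun t' ht' hK => ?_⟩
    apply hK
    rw [Metric.mem_ball, Real.dist_eq, abs_lt] at ht'
    refine ⟨η / 2, half_pos hη, fun P φ hφ => (h P φ hφ).mono ?_ ?_ ?_⟩ <;>
      linarith [ht'.1, ht'.2]
  exact isOpen_compl_iff.1 h

theorem Kset_subset {g : ℝ × ℝ → ℂ} {P : ℝ} {φ : ℝ → ℂ} (hφ : Win P φ) :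
    Kset (w g φ (deriv φ)) ⊆ Kall g := by
  intro t ht
  by_contra hne
  obtain ⟨η, hη, h⟩ := notMem_Kall hne
  exact (h P φ hφ).notMem (by linarith) (by linarith) ht

theorem Kall_perf {g : ℝ × ℝ → ℂ} {M : ℝ} (hg : Bdd g M)
    (hl : ∀ t : ℝ, ∀ᵐ p : ℝ, Integrable (fun s : ℝ => g (p - t * s, s))) {t : ℝ}
    (ht : t ∈ Kall g) : ∀ η > 0, ∃ t' ∈ Kall g, t' ≠ t ∧ |t' - t| < η := by
  intro η hη
  by_contra hne
  push Not at hne
  apply ht
  refine ⟨η / 2, half_pos hη, fun P φ hφ => ?_⟩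
  obtain ⟨B, hk⟩ := win_kc hφ
  have hwc := w_continuous hg hk.toKd
  have hn : ∀ u, |u - t| < η → u ≠ t → u ∉ Kset (w g φ (deriv φ)) := by
    intro u hu hut huK
    exact absurd hu (not_lt.2 (hne u (Kset_subset hφ huK) hut))
  have ht' : t ∉ Kset (w g φ (deriv φ)) := by
    intro htK
    obtain ⟨u, hu, hut, hlt⟩ := perf hwc (smooth hg hk.toKd (hl t)) htK η hη
    exact hn u hlt hut hu
  refine affOn_of_gap hwc (by linarith) fun u hu => ?_
  by_cases hut : u = t
  · rw [hut]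
    exact ht'
  · refine hn u ?_ hut
    rw [abs_lt]
    constructor <;> linarith [hu.1, hu.2]

theorem Win.shift {P : ℝ} {φ : ℝ → ℂ} (h : Win P φ) (c : ℝ) :
    Win (P + |c|) (fun u => φ (u - c)) := by
  refine ⟨h.smooth.comp (by fun_prop), fun u hu => ?_⟩
  have h1 := h.supp _ hu
  have h2 := abs_sub_abs_le_abs_sub u c
  linarith

theorem deriv_shift (φ : ℝ → ℂ) (c : ℝ) :
    deriv (fun u => φ (u - c)) = fun u => deriv φ (u - c) := by
  funext u
  exact deriv_comp_sub_const φ c u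

theorem w_tr' (g : ℝ × ℝ → ℂ) (φ : ℝ → ℂ) (c : ℝ) :
    w (tr c g) φ (deriv φ) = w g (fun u => φ (u - c)) (deriv (fun u => φ (u - c))) := by
  funext t
  rw [w_tr, deriv_shift]

/-- smooth step -/
def stp (δ u : ℝ) : ℝ := Real.smoothTransition (u / δ)

theorem stp_smooth (δ : ℝ) : ContDiff ℝ ∞ (stp δ) := by
  unfold stp
  exact Real.smoothTransition.contDiff.comp (by fun_prop)

theorem stp_zero {δ u : ℝ} (hδ : 0 < δ) (hu : u ≤ 0) : stp δ u = 0 :=
  Real.smoothTransition.zero_of_nonpos (div_nonpos_of_nonpos_of_nonneg hu hδ.le)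

theorem stp_one {δ u : ℝ} (hδ : 0 < δ) (hu : δ ≤ u) : stp δ u = 1 :=
  Real.smoothTransition.one_of_one_le ((one_le_div hδ).2 hu)

/-- splitting a kernel into pieces of small support -/
theorem split {g : ℝ × ℝ → ℂ} {M : ℝ} (hg : Bdd g M) {δ a c : ℝ} (hδ : 0 < δ)
    (hall : ∀ (x : ℝ) (φ : ℝ → ℂ), Win δ φ → AffOn (w (tr x g) φ (deriv φ)) a c)
    {P : ℝ} {φ : ℝ → ℂ} (hφ : Win P φ) : AffOn (w g φ (deriv φ)) a c := by
  obtain ⟨N, hN⟩ := exists_nat_gt ((|P| + δ) / δ)
  rw [div_lt_iff₀ hδ] at hN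
  set χ : ℕ → ℝ → ℝ := fun i u =>
    stp δ (u + N * δ - i * δ) - stp δ (u + N * δ - (i + 1 : ℕ) * δ) with hχ
  have hsum : ∀ u, |u| ≤ |P| → ∑ i ∈ Finset.range (2 * N), χ i u = 1 := by
    intro u hu
    rw [hχ]
    simp only
    rw [Finset.sum_range_sub' (fun i : ℕ => stp δ (u + N * δ - i * δ))]
    rw [abs_le] at hu
    rw [stp_one hδ (by push_cast; linarith [hu.1]), stp_zero hδ (by push_cast; linarith [hu.2])]
    ring
  set φi : ℕ → ℝ → ℂ := fun i u => (χ i u : ℂ) * φ u with hφi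
  have hφs : φ = fun u => ∑ i ∈ Finset.range (2 * N), φi i u := by
    funext u
    by_cases hu : φ u = 0
    · rw [hu, Finset.sum_eq_zero]
      intro i _
      rw [hφi]
      simp only
      rw [hu, mul_zero]
    · have h1 := hsum u ((hφ.supp u hu).trans (le_abs_self P))
      rw [hφi]
      simp only
      rw [← Finset.sum_mul, ← Complex.ofReal_sum, h1, Complex.ofReal_one, one_mul]
  have hχs : ∀ i, ContDiff ℝ ∞ (χ i) := by
    intro i
    exact ((stp_smooth δ).comp (by fun_prop)).sub ((stp_smooth δ).comp (by fun_prop))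
  have hwin : ∀ i, Win P (φi i) := by
    intro i
    refine ⟨(Complex.ofRealCLM.contDiff.comp (hχs i)).mul hφ.smooth, fun u hu => hφ.supp u ?_⟩
    exact right_ne_zero_of_mul hu
  have hpiece : ∀ i, AffOn (w g (φi i) (deriv (φi i))) a c := by
    intro i
    set x : ℝ := (i + 1 : ℕ) * δ - N * δ with hx
    have h1 : Win δ (fun u => φi i (u + x)) := by
      refine ⟨(hwin i).smooth.comp (by fun_prop), fun u hu => ?_⟩
      have h2 : χ i (u + x) ≠ 0 := by
        intro h0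
        apply hu
        rw [hφi]
        simp only
        rw [h0, Complex.ofReal_zero, zero_mul]
      rw [abs_le]
      constructor
      · by_contra hlt
        push Not at hlt
        apply h2
        rw [hχ]
        simp only
        rw [stp_zero hδ (by rw [hx]; push_cast; linarith),
          stp_zero hδ (by rw [hx]; push_cast; linarith)]
        ring
      · by_contra hlt
        push Not at hlt
        apply h2
        rw [hχ]
        simp only
        rw [stp_one hδ (by rw [hx]; push_cast; linarith),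
          stp_one hδ (by rw [hx]; push_cast; linarith)]
        ring
    have h3 := hall x _ h1
    rw [w_tr'] at h3
    simpa using h3
  have hlin : w g φ (deriv φ) =
      fun t => ∑ i ∈ Finset.range (2 * N), w g (φi i) (deriv (φi i)) t := by
    funext t
    unfold w
    rw [← integral_finsetSum]
    · refine integral_congr_ae (Eventually.of_forall fun z => ?_)
      simp only
      rw [← Finset.mul_sum]
      congr 1
      have hd : deriv φ = fun u => ∑ i ∈ Finset.range (2 * N), deriv (φi i) u := by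
        funext u
        have h2 : HasDerivAt (fun u => ∑ i ∈ Finset.range (2 * N), φi i u)
            (∑ i ∈ Finset.range (2 * N), deriv (φi i) u) u :=
          HasDerivAt.fun_sum fun i _ => win_hasDerivAt (hwin i) u
        rw [← hφs] at h2
        exact h2.deriv
      unfold q
      rw [hd]
      conv_lhs => rw [hφs]
      simp only
      by_cases hz : |z.2| < 1
      · simp only [if_pos hz]
        rw [Finset.smul_sum, ← Finset.sum_add_distrib, ← Finset.sum_sub_distrib,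
          Finset.smul_sum]
      · simp only [if_neg hz, sub_zero]
        rw [Finset.smul_sum]
    · intro i _
      obtain ⟨B, hk⟩ := win_kc (hwin i)
      exact gq_int hg hk.toKd t
  rw [hlin]
  exact AffOn.sum _ fun i _ => hpiece i

end Pool.Agent.Helper34.Radon.Bd
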